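import Mathlib
import Pool.Agent.helper7.OC.Defs2

/-!
# Joint parity of partition numbers: definitions

The zero moduli are products of the sets `T' i`; the scale `i` has the shift `sh i`.
-/

set_option autoImplicit false

open Finset

namespace Pool.Agent.helper7.JT

open OC (J hs cs PA P5 Exc)

section
variable {ι : Type} [Fintype ι] [DecidableEq ι]

/-- the family of tuples of sets -/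
def Famj (L : ι → Finset ℕ) (K : ι → ℕ) : Finset (ι → Finset ℕ) :=
  Fintype.piFinset fun i => (L i).powersetCard (K i)

/-- the product of all the elements -/
def prj (T : ι → Finset ℕ) : ℕ := ∏ i, ∏ ℓ ∈ T i, ℓ

/-- the model value of `∑ 1 / prj T`. -/
noncomputable def EMj (L : ι → Finset ℕ) (K : ι → ℕ) : ℝ :=
  ∏ i, (hs (L i) ^ K i / (K i).factorial)

end

/-- the small prime factors -/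
def PP1 (m j : ℕ) : Finset ℕ := (Ioc (2 ^ j) (2 * 2 ^ j)).filter fun p => p.Prime ∧ p % m = 5 % m

/-- the large prime factors -/
def PP2 (X D₀ m b j : ℕ) : Finset ℕ :=
  (Ioc (X / (2 ^ (j + 2) * D₀)) (2 * (X / (2 ^ (j + 2) * D₀)))).filter fun q => q.Prime ∧ q % m = b % m

/-- every prime of `T' i` divides `D₀ * w + 8 * sh i` exactly once. -/
def Exact {ι : Type} (D₀ : ℕ) (sh : ι → ℕ) (T' : ι → Finset ℕ) (w : ℕ) : Prop :=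
  ∀ i, ∀ ℓ ∈ T' i, ℓ ∣ D₀ * w + 8 * sh i ∧ ¬ ℓ ^ 2 ∣ D₀ * w + 8 * sh i

open Classical in
/-- the numbers `w = p * q` of the family with the zero moduli `T'`. -/
noncomputable def OmJ {ι : Type} (X D₀ m b : ℕ) (sh : ι → ℕ) (T' : ι → Finset ℕ) : Finset ℕ :=
  ((Ico (Nat.log 2 X / 4) (Nat.log 2 X / 3)).biUnion fun j =>
    (PP1 m j ×ˢ PP2 X D₀ m b j).image fun p => p.1 * p.2).filter fun w => Exact D₀ sh T' w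

/-- The scales `L₀` (shift 0), `L₁` (other shifts) and the forced primes `𝒟`. -/
structure JSys {ι₀ ι₁ : Type} (L₀ : ι₀ → Finset ℕ) (L₁ : ι₁ → Finset ℕ) (𝒟 : Finset ℕ) : Prop where
  prime0 : ∀ i, ∀ ℓ ∈ L₀ i, ℓ.Prime ∧ 3 < ℓ
  prime1 : ∀ i, ∀ ℓ ∈ L₁ i, ℓ.Prime ∧ 3 < ℓ
  primeD : ∀ ℓ ∈ 𝒟, ℓ.Prime ∧ 3 < ℓ
  disj0 : ∀ i j, i ≠ j → Disjoint (L₀ i) (L₀ j)
  disj1 : ∀ i j, i ≠ j → Disjoint (L₁ i) (L₁ j)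
  disj01 : ∀ i j, Disjoint (L₀ i) (L₁ j)
  disjD0 : ∀ i, Disjoint (L₀ i) 𝒟
  disjD1 : ∀ i, Disjoint (L₁ i) 𝒟

/-- the modulus of shift 0 -/
def mdj {ι₀ : Type} [Fintype ι₀] (𝒟 : Finset ℕ) (T : ι₀ → Finset ℕ) : ℕ := (∏ ℓ ∈ 𝒟, ℓ) * prj T

/-- The data at height `X`: `nh` shifts, `n` scales. The number of primes of shift 0 is
`2 ^ (μ - 1) - s`, of every other shift at least `2 ^ (μ - 1)`. -/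
structure JData (X nh s N₀ CD C₁ : ℕ) (c₀ ε : ℝ) where
  a : ℕ
  n : ℕ
  μ : ℕ
  L₀ : Fin n → Finset ℕ
  K₀ : Fin n → ℕ
  L₁ : Fin nh × Fin (n + 1) → Finset ℕ
  K₁ : Fin nh × Fin (n + 1) → ℕ
  𝒟 : Finset ℕ
  δ₀ : Fin n → ℝ
  δ₁ : Fin nh × Fin (n + 1) → ℝ
  lam₀ : Fin n → ℝ
  lam₁ : Fin nh × Fin (n + 1) → ℝ
  A₀ : Fin n → Finset ℕ
  A₁ : Fin nh × Fin (n + 1) → Finset ℕ
  two_le_μ : 2 ≤ μ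
  μ_ge : c₀ * Real.log X / (Real.log (Real.log X)) ^ 2 ≤ 2 ^ μ
  card_le : 𝒟.card + ∑ i, K₀ i + ∑ i, K₁ i ≤ Real.log X
  a_ge : (Real.log X) ^ (1600 : ℝ) ≤ 2 ^ a
  a_le : (a : ℝ) ≤ CD * Real.log (Real.log X)
  sys : JSys L₀ L₁ 𝒟
  L₀_mod : ∀ i, ∀ ℓ ∈ L₀ i, ℓ % 8 = 5 ∧ 2 ^ a < ℓ
  L₁_gt : ∀ i, ∀ ℓ ∈ L₁ i, 2 ^ a < ℓ
  D_mod : ∀ ℓ ∈ 𝒟, ℓ % 8 = 5
  D_card : 𝒟.card ≤ CD
  card0 : 𝒟.card + ∑ i, K₀ i + s = 2 ^ (μ - 1)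
  card1 : ∀ h : Fin nh, 2 ^ (μ - 1) ≤ ∑ i, K₁ (h, i)
  ratio1 : ∀ i, K₁ i ≤ (Real.log X) ^ 10 * hs (L₁ i)
  size : ∀ T ∈ Famj L₀ K₀, ∀ T' ∈ Famj L₁ K₁, (mdj 𝒟 T * prj T') ^ 32 ≤ X
  EM₀_pos : 0 < EMj L₀ K₀
  EM₁_pos : 0 < EMj L₁ K₁
  EM₀_le : EMj L₀ K₀ / 2 ≤ ∑ T ∈ Famj L₀ K₀, 1 / (prj T : ℝ)
  EM₁_le : EMj L₁ K₁ / 2 ≤ ∑ T ∈ Famj L₁ K₁, 1 / (prj T : ℝ)
  δ₀_nonneg : ∀ i, 0 ≤ δ₀ i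
  δ₁_nonneg : ∀ i, 0 ≤ δ₁ i
  δ_sum : ∑ i, K₀ i * δ₀ i + ∑ i, K₁ i * δ₁ i ≤ CD
  normal : ∀ u : ℕ, 1 ≤ u → u ≤ X → (∀ m ∈ Exc X a n C₁, ∀ f : ℕ, 24 * u ≠ m * f ^ 2 + 1) →
    (∀ r : ℕ, a ≤ 2 ^ r → 2 ^ 2 ^ r ≤ X → -2 ≤ cs (PA (2 ^ a) (2 ^ 2 ^ r)) (24 * u - 1)) ∧
    (∀ i, ∑ ℓ ∈ L₀ i, (1 + J ℓ (24 * u - 1)) / ℓ ≤ (1 + δ₀ i) * hs (L₀ i)) ∧
    ∀ i, ∑ ℓ ∈ L₁ i, (1 + J ℓ (24 * u - 1)) / ℓ ≤ (1 + δ₁ i) * hs (L₁ i)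
  lam₀_nonneg : ∀ i, 0 ≤ lam₀ i
  lam₁_nonneg : ∀ i, 0 ≤ lam₁ i
  Q : ℕ
  small0 : ∀ m ∈ Exc X a n C₁, m ≤ Q → (∃ ℓ ∈ 𝒟, J ℓ m = -1) ∨
    ∃ i, m ∈ A₀ i ∧ hs ((L₀ i).filter fun ℓ => J ℓ m ≠ -1) ≤ lam₀ i * hs (L₀ i)
  small1 : ∀ m ∈ Exc X a n C₁, m ≤ Q → ∀ h : Fin nh,
    ∃ i, m ∈ A₁ (h, i) ∧ hs ((L₁ (h, i)).filter fun ℓ => J ℓ m ≠ -1) ≤ lam₁ (h, i) * hs (L₁ (h, i))
  A_sum : ∑ i, ((A₀ i).card : ℝ) * lam₀ i ^ K₀ i + ∑ i, ((A₁ i).card : ℝ) * lam₁ i ^ K₁ i ≤ ε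
  large : (N₀ + 1 + (nh + 1) * ∑ m ∈ (Exc X a n C₁).filter (fun m => Q < m), √(24 * X / m)) *
    (2 ^ (𝒟.card + ∑ i, K₀ i + ∑ i, K₁ i) * (2 * (5 * √X))) ≤ ε * (X / Real.log X)

end Pool.Agent.helper7.JT
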