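import Mathlib
import Pool.Agent.helper7.JT.Defs
import Pool.Agent.helper7.OC.C1

/-!
# JT 1: families and their sums
-/

set_option autoImplicit false

open Finset

namespace Pool.Agent.helper7.JT

open OC (J hs cs PA P5 Exc esum esum_le esum_ge hs_nonneg prod_one_sub_ge)

variable {ι : Type} [Fintype ι] [DecidableEq ι] (L : ι → Finset ℕ) (K : ι → ℕ)

lemma mem_Famj (T : ι → Finset ℕ) : T ∈ Famj L K ↔ ∀ i, T i ⊆ L i ∧ (T i).card = K i := by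
  simp [Famj, Fintype.mem_piFinset, mem_powersetCard]

lemma sum_Famj (f : ι → ℕ → ℝ) :
    ∑ T ∈ Famj L K, ∏ i, ∏ ℓ ∈ T i, f i ℓ = ∏ i, esum (L i) (K i) (f i) := by
  unfold Famj esum
  rw [Finset.prod_univ_sum]

lemma inv_prj (T : ι → Finset ℕ) : 1 / (prj T : ℝ) = ∏ i, ∏ ℓ ∈ T i, 1 / (ℓ : ℝ) := by
  unfold prj
  push_cast
  simp_rw [one_div, Finset.prod_inv_distrib]

lemma EMj_nonneg : 0 ≤ EMj L K := prod_nonneg fun i _ => by
  have := hs_nonneg (L i); positivity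

lemma sum_inv_prj_le : ∑ T ∈ Famj L K, 1 / (prj T : ℝ) ≤ EMj L K := by
  simp_rw [inv_prj]
  rw [sum_Famj L K (fun _ ℓ => 1 / (ℓ : ℝ))]
  unfold EMj
  refine prod_le_prod (fun i _ => ?_) fun i _ => ?_
  · unfold esum; exact sum_nonneg fun T _ => prod_nonneg fun _ _ => by positivity
  · exact esum_le (L i) (K i) _ (fun _ _ => by positivity)

lemma sum_inv_prj_ge (δ : ι → ℝ) (hδ : ∀ i, ∀ ℓ ∈ L i, 1 / (ℓ : ℝ) ≤ δ i)
    (hs0 : ∀ i, 0 < hs (L i)) (hδ0 : ∀ i, 0 ≤ δ i)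
    (h : ∑ i, (K i : ℝ) ^ 2 * δ i / hs (L i) ≤ 1 / 2) :
    EMj L K / 2 ≤ ∑ T ∈ Famj L K, 1 / (prj T : ℝ) := by
  simp_rw [inv_prj]
  rw [sum_Famj L K (fun _ ℓ => 1 / (ℓ : ℝ))]
  have h1 : ∀ i, (hs (L i)) ^ K i / (K i).factorial * (1 - K i ^ 2 * δ i / hs (L i))
      ≤ esum (L i) (K i) (fun ℓ => 1 / (ℓ : ℝ)) := fun i =>
    esum_ge (L i) (K i) _ (δ i) (fun ℓ hℓ => ⟨by positivity, hδ i ℓ hℓ⟩) (hs0 i)
  have hx0 : ∀ i ∈ (univ : Finset ι), 0 ≤ (K i : ℝ) ^ 2 * δ i / hs (L i) := fun i _ => by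
    have := hs0 i; have := hδ0 i; positivity
  have h2 := prod_one_sub_ge univ (fun i => (K i : ℝ) ^ 2 * δ i / hs (L i)) hx0 (by linarith)
  have h3 : ∀ i, (K i : ℝ) ^ 2 * δ i / hs (L i) ≤ 1 / 2 := fun i =>
    (single_le_sum hx0 (mem_univ i)).trans h
  have h4 : ∏ i, ((hs (L i)) ^ K i / (K i).factorial * (1 - K i ^ 2 * δ i / hs (L i)))
      ≤ ∏ i, esum (L i) (K i) (fun ℓ => 1 / (ℓ : ℝ)) := by
    refine prod_le_prod (fun i _ => ?_) fun i _ => h1 i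
    have := hs0 i
    have := h3 i
    have h5 : 0 ≤ 1 - (K i : ℝ) ^ 2 * δ i / hs (L i) := by linarith
    positivity
  refine le_trans ?_ h4
  rw [prod_mul_distrib]
  have h5 := EMj_nonneg L K
  unfold EMj at *
  nlinarith

/-- the weighted sum -/
lemma sum_weightj_le (g : ι → ℕ → ℝ) (hg : ∀ i ℓ, 0 ≤ g i ℓ) (δ : ι → ℝ)
    (h : ∀ i, ∑ ℓ ∈ L i, g i ℓ / ℓ ≤ (1 + δ i) * hs (L i)) (hδ0 : ∀ i, 0 ≤ δ i) :
    ∑ T ∈ Famj L K, (∏ i, ∏ ℓ ∈ T i, g i ℓ) / (prj T : ℝ)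
      ≤ Real.exp (∑ i, K i * δ i) * EMj L K := by
  have h1 : ∀ T : ι → Finset ℕ, (∏ i, ∏ ℓ ∈ T i, g i ℓ) / (prj T : ℝ)
      = ∏ i, ∏ ℓ ∈ T i, g i ℓ / ℓ := by
    intro T
    unfold prj
    push_cast
    simp_rw [prod_div_distrib]
  simp_rw [h1]
  rw [sum_Famj L K (fun i ℓ => g i ℓ / (ℓ : ℝ)), Real.exp_sum]
  unfold EMj
  rw [← prod_mul_distrib]
  refine prod_le_prod (fun i _ => ?_) fun i _ => ?_
  · unfold esum
    exact sum_nonneg fun T _ => prod_nonneg fun ℓ _ => div_nonneg (hg i ℓ) (Nat.cast_nonneg _)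
  · refine (esum_le (L i) (K i) _ fun ℓ _ => div_nonneg (hg i ℓ) (Nat.cast_nonneg _)).trans ?_
    have h2 : (0 : ℝ) ≤ ∑ ℓ ∈ L i, g i ℓ / ℓ :=
      sum_nonneg fun ℓ _ => div_nonneg (hg i ℓ) (Nat.cast_nonneg _)
    have h3 : (∑ ℓ ∈ L i, g i ℓ / (ℓ : ℝ)) ^ K i ≤ Real.exp (K i * δ i) * hs (L i) ^ K i := by
      refine (pow_le_pow_left₀ h2 (h i) _).trans ?_
      rw [mul_pow]
      refine mul_le_mul_of_nonneg_right ?_ (pow_nonneg (hs_nonneg _) _)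
      rw [mul_comm (K i : ℝ), Real.exp_mul, Real.rpow_natCast]
      refine pow_le_pow_left₀ (by have := hδ0 i; linarith) ?_ _
      have := Real.add_one_le_exp (δ i)
      linarith
    rw [← mul_div_assoc]
    exact div_le_div_of_nonneg_right h3 (Nat.cast_nonneg _)

/-- restriction at one scale -/
lemma sum_restrictj_le (i₀ : ι) (G : ℕ → Prop) [DecidablePred G] (lam : ℝ)
    (h : hs ((L i₀).filter G) ≤ lam * hs (L i₀)) :
    ∑ T ∈ (Famj L K).filter (fun T => ∀ ℓ ∈ T i₀, G ℓ), 1 / (prj T : ℝ) ≤ lam ^ K i₀ * EMj L K := by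
  classical
  set L' : ι → Finset ℕ := Function.update L i₀ ((L i₀).filter G) with hL'
  have h1 : (Famj L K).filter (fun T => ∀ ℓ ∈ T i₀, G ℓ) ⊆ Famj L' K := by
    intro T hT
    rw [mem_filter, mem_Famj] at hT
    rw [mem_Famj]
    intro i
    refine ⟨?_, (hT.1 i).2⟩
    by_cases hi : i = i₀
    · subst hi
      rw [hL', Function.update_self]
      intro ℓ hℓ
      rw [mem_filter]
      exact ⟨(hT.1 i).1 hℓ, hT.2 ℓ hℓ⟩
    · rw [hL', Function.update_of_ne hi]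
      exact (hT.1 i).1
  refine (sum_le_sum_of_subset_of_nonneg h1 fun _ _ _ => by positivity).trans ?_
  refine (sum_inv_prj_le L' K).trans ?_
  unfold EMj
  rw [← mul_prod_erase univ _ (mem_univ i₀), ← mul_prod_erase univ _ (mem_univ i₀), ← mul_assoc]
  have h2 : ∏ x ∈ univ.erase i₀, hs (L' x) ^ K x / ((K x).factorial : ℝ)
      = ∏ x ∈ univ.erase i₀, hs (L x) ^ K x / ((K x).factorial : ℝ) := by
    refine prod_congr rfl fun x hx => ?_
    rw [hL', Function.update_of_ne (ne_of_mem_erase hx)]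
  rw [h2]
  refine mul_le_mul_of_nonneg_right ?_ (prod_nonneg fun x _ => by
    have := hs_nonneg (L x); positivity)
  rw [hL', Function.update_self, ← mul_div_assoc, ← mul_pow]
  refine div_le_div_of_nonneg_right ?_ (Nat.cast_nonneg _)
  exact pow_le_pow_left₀ (hs_nonneg _) h _

end Pool.Agent.helper7.JT
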