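import Mathlib
import Pool.Agent.helper7.JT.Defs
import Pool.Agent.helper7.OC.C7

/-!
# JT 6: normal numbers and windows
-/

set_option autoImplicit false

open Finset

namespace Pool.Agent.helper7.JT

open OC (J hs cs PA P5 Exc Blk ss5_log_large ss5_mod24 ss5_natlog ss5_blk_V cs_kernel cs_dyadic)

theorem normal_blk (C₁ : ℕ) : ∃ X₀ : ℕ, ∀ X : ℕ, X₀ ≤ X → ∀ a n u : ℕ,
    (Real.log X) ^ (1600 : ℝ) ≤ 2 ^ a → 1 ≤ u → u ≤ X →
    (∀ m ∈ Exc X a n C₁, ∀ f : ℕ, 24 * u ≠ m * f ^ 2 + 1) →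
    ∀ B ∈ Blk X a n C₁, |cs B (24 * u - 1)| ≤ 2 / (Real.log X) ^ 3 := by
  classical
  obtain ⟨X₂, h₂⟩ := ss5_log_large 10
  refine ⟨max X₂ 1, fun X hX a n u ha hu huX hE => ?_⟩
  have hX2 : 10 ≤ Real.log X := h₂ X (le_trans (le_max_left _ _) hX)
  have hX3 : 1 ≤ X := le_trans (le_max_right _ _) hX
  have hL0 : 0 < Real.log X := by linarith
  -- squarefree kernel
  obtain ⟨m, f, hmf, hsq⟩ := Nat.sq_mul_squarefree (24 * u - 1)
  have hN0 : 24 * u - 1 ≠ 0 := by omega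
  have hm0 : m ≠ 0 := hsq.ne_zero
  have hf0 : f ≠ 0 := by
    rintro rfl
    simp at hmf
    omega
  have hmf' : m * f ^ 2 = 24 * u - 1 := by rw [← hmf, mul_comm]
  have hf2 : ¬ 2 ∣ f := by
    intro hd
    have : 2 ∣ 24 * u - 1 := by
      rw [← hmf]
      exact Dvd.dvd.mul_right (dvd_pow hd (by norm_num)) m
    omega
  have hf3 : ¬ 3 ∣ f := by
    intro hd
    have : 3 ∣ 24 * u - 1 := by
      rw [← hmf]
      exact Dvd.dvd.mul_right (dvd_pow hd (by norm_num)) m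
    omega
  have hf24 := ss5_mod24 f hf2 hf3
  have hm24 : m % 24 = 23 := by
    have h1 : (f ^ 2 * m) % 24 = 23 := by rw [hmf]; omega
    rw [Nat.mul_mod, hf24] at h1
    simpa using h1
  have hmle : m ≤ 24 * u - 1 := by
    rw [← hmf]
    exact Nat.le_mul_of_pos_left m (by positivity)
  have hfle : f ≤ 24 * X := by
    have h1 : f ≤ f ^ 2 := Nat.le_self_pow (by norm_num) f
    have h2 : f ^ 2 ≤ f ^ 2 * m := Nat.le_mul_of_pos_right _ (Nat.pos_of_ne_zero hm0)
    omega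
  have hnot : m ∉ Exc X a n C₁ := by
    intro hmem
    exact hE m hmem f (by omega)
  have hsmall : ∀ B ∈ Blk X a n C₁, |cs B m| < 1 / (Real.log X) ^ 3 := by
    intro B hB
    by_contra hlt
    apply hnot
    unfold Exc
    rw [mem_filter, mem_Icc]
    exact ⟨⟨by omega, by omega⟩, hsq, hm24, B, hB, not_lt.mp hlt⟩
  -- kernel error
  have hlogf : (Nat.log 2 f : ℝ) ≤ 2 * Real.log X := by
    have h1 : Nat.log 2 f ≤ Nat.log 2 (24 * X) := Nat.log_mono_right hfle
    have h2 := ss5_natlog (24 * X) (by omega)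
    have h3 : Real.log ((24 * X : ℕ) : ℝ) = Real.log 24 + Real.log X := by
      push_cast
      rw [Real.log_mul (by norm_num) (by positivity)]
    have h4 : Real.log 24 ≤ 10 / 3 := by
      have : Real.log 24 ≤ Real.log (2 ^ (24 / 5 : ℝ)) := by
        apply Real.log_le_log (by norm_num)
        have h5 : (24 : ℝ) ≤ ((2 : ℝ) ^ (24 / 5 : ℝ)) := by
          have h6 : ((2 : ℝ) ^ (24 / 5 : ℝ)) ^ 5 = 2 ^ 24 := by
            rw [← Real.rpow_natCast, ← Real.rpow_mul (by norm_num)]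
            norm_num
          by_contra hlt
          push Not at hlt
          have h7 : ((2 : ℝ) ^ (24 / 5 : ℝ)) ^ 5 < 24 ^ 5 :=
            pow_lt_pow_left₀ hlt (by positivity) (by norm_num)
          rw [h6] at h7
          norm_num at h7
        exact h5
      rw [Real.log_rpow (by norm_num)] at this
      have := Real.log_two_lt_d9
      linarith
    have h5 : (Nat.log 2 f : ℝ) ≤ (Nat.log 2 (24 * X) : ℝ) := by exact_mod_cast h1
    rw [h3] at h2
    linarith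
  have hVerr : ∀ V : ℕ, 2 ^ a ≤ V → (Nat.log 2 f : ℝ) / V ≤ 1 / (Real.log X) ^ 3 := by
    intro V hV
    have h1 : (Real.log X) ^ (1600 : ℝ) ≤ V := ha.trans (by exact_mod_cast hV)
    have h2 : (Real.log X) ^ 1600 ≤ (V : ℝ) := by
      have : (Real.log X) ^ (1600 : ℝ) = (Real.log X) ^ (1600 : ℕ) := by
        rw [← Real.rpow_natCast]; norm_num
      rwa [this] at h1
    have h3 : (Real.log X) ^ 5 ≤ (V : ℝ) :=
      (pow_le_pow_right₀ (by linarith) (by norm_num)).trans h2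
    have hV0 : (0 : ℝ) < V := lt_of_lt_of_le (by positivity) h3
    rw [div_le_div_iff₀ hV0 (by positivity)]
    have h4 : (Nat.log 2 f : ℝ) * Real.log X ^ 3 ≤ 2 * Real.log X * Real.log X ^ 3 :=
      mul_le_mul_of_nonneg_right hlogf (by positivity)
    have h5 : 2 * Real.log X * Real.log X ^ 3 ≤ Real.log X ^ 5 := by
      have : 0 ≤ Real.log X ^ 4 * (Real.log X - 2) := mul_nonneg (by positivity) (by linarith)
      nlinarith
    linarith
  intro B hB
  obtain ⟨V, hV, hVB⟩ := ss5_blk_V X a n C₁ B hB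
  have hV1 : 1 ≤ V := le_trans (Nat.one_le_two_pow) hV
  have h1 := cs_kernel B V m f hV1 (fun ℓ hℓ => ⟨(hVB ℓ hℓ).1, (hVB ℓ hℓ).2.1⟩) hm0 hf0
  rw [hmf'] at h1
  have h2 := hsmall B hB
  have h3 := hVerr V hV
  have h4 : |cs B (24 * u - 1)| ≤ |cs B (24 * u - 1) - cs B m| + |cs B m| := by
    have := abs_add_le (cs B (24 * u - 1) - cs B m) (cs B m)
    simpa using this
  have h5 : 2 / (Real.log X) ^ 3 = 1 / (Real.log X) ^ 3 + 1 / (Real.log X) ^ 3 := by ring
  rw [h5]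
  linarith

/-- a window of dyadic blocks -/
lemma window_normal {X a n C₁ M : ℕ} {η : ℝ} (h : ∀ B ∈ Blk X a n C₁, |cs B M| ≤ η)
    {α β : ℕ} (hα : a ≤ α) (hαβ : α ≤ β) (hβ : β ≤ Nat.log 2 X + 1) :
    |cs (PA (2 ^ α) (2 ^ β)) M| ≤ (β - α : ℕ) * η := by
  rw [cs_dyadic α β _ hαβ]
  refine (abs_sum_le_sum_abs _ _).trans ?_
  have h1 : ∀ j ∈ Ico α β, |cs (PA (2 ^ j) (2 ^ (j + 1))) M| ≤ η := by
    intro j hj
    rw [mem_Ico] at hj
    apply h
    unfold Blk
    rw [mem_union, mem_image]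
    left
    exact ⟨j, mem_Ico.mpr ⟨by omega, by omega⟩, rfl⟩
  refine (sum_le_sum h1).trans ?_
  rw [sum_const, nsmul_eq_mul, Nat.card_Ico]

/-! ### the windows -/

/-- start of the window of the shift `h` at the scale `i` -/
def st (n a c A B h i : ℕ) : ℕ :=
  if i < n then a * 2 ^ i + c * (h + 1) else (A + 1) * B ^ h * (a * 2 ^ (n - 1))

/-- end of the window of the shift `h` at the scale `i` -/
def en (n a c A B h i : ℕ) : ℕ :=
  if i < n then a * 2 ^ i + c * (h + 2) else B * ((A + 1) * B ^ h * (a * 2 ^ (n - 1)))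

section windows
variable {n a c A B nh : ℕ} 

lemma st_short {h i : ℕ} (hi : i < n) : st n a c A B h i = a * 2 ^ i + c * (h + 1) := if_pos hi
lemma en_short {h i : ℕ} (hi : i < n) : en n a c A B h i = a * 2 ^ i + c * (h + 2) := if_pos hi
lemma st_long {h i : ℕ} (hi : ¬ i < n) : st n a c A B h i = (A + 1) * B ^ h * (a * 2 ^ (n - 1)) :=
  if_neg hi
lemma en_long {h i : ℕ} (hi : ¬ i < n) :
    en n a c A B h i = B * ((A + 1) * B ^ h * (a * 2 ^ (n - 1))) := if_neg hi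

lemma scale_le {i j : ℕ} (h : i < j) : a * 2 ^ i + a ≤ a * 2 ^ j := by
  have h2 : 2 ^ (i + 1) ≤ 2 ^ j := Nat.pow_le_pow_right (by norm_num) h
  have h3 : 1 ≤ 2 ^ i := Nat.one_le_two_pow
  calc a * 2 ^ i + a ≤ a * 2 ^ i + a * 2 ^ i := by nlinarith
    _ = a * 2 ^ (i + 1) := by rw [pow_succ]; ring
    _ ≤ a * 2 ^ j := Nat.mul_le_mul_left _ h2

lemma st_ge (hn : 1 ≤ n) (hB : 1 ≤ B) {h i : ℕ} : a ≤ st n a c A B h i := by
  unfold st
  split_ifs
  · have : 1 ≤ 2 ^ i := Nat.one_le_two_pow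
    nlinarith
  · have h1 : 1 ≤ 2 ^ (n - 1) := Nat.one_le_two_pow
    have h2 : 1 ≤ B ^ h := Nat.one_le_pow _ _ hB
    calc a = 1 * 1 * (a * 1) := by ring
      _ ≤ (A + 1) * B ^ h * (a * 2 ^ (n - 1)) :=
        Nat.mul_le_mul (Nat.mul_le_mul (by omega) h2) (Nat.mul_le_mul_left _ h1)

lemma long_ge (hA : 1 ≤ A) (hB : 1 ≤ B) (h : ℕ) :
    2 * (a * 2 ^ (n - 1)) ≤ (A + 1) * B ^ h * (a * 2 ^ (n - 1)) := by
  have h2 : 1 ≤ B ^ h := Nat.one_le_pow _ _ hB
  refine Nat.mul_le_mul_right _ ?_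
  calc 2 = 2 * 1 := rfl
    _ ≤ (A + 1) * B ^ h := Nat.mul_le_mul (by omega) h2

/-- windows of different `(h, i)` are separated -/
lemma windows_sep (hn : 1 ≤ n) (hA : 1 ≤ A) (hB : 1 ≤ B) (hc : c * (nh + 1) ≤ a) {h i h' i' : ℕ}
    (hh : h < nh) (hh' : h' < nh) (hi : i ≤ n) (hi' : i' ≤ n) (hne : (h, i) ≠ (h', i')) :
    en n a c A B h i ≤ st n a c A B h' i' ∨ en n a c A B h' i' ≤ st n a c A B h i := by
  have key : ∀ h i h' i' : ℕ, h < nh → h' < nh → i ≤ n → i' ≤ n →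
      (i < i' ∨ (i = i' ∧ h < h')) → en n a c A B h i ≤ st n a c A B h' i' := by
    intro h i h' i' hh hh' hi hi' hlt
    have hc2 : c * (h + 2) ≤ a := le_trans (Nat.mul_le_mul_left _ (by omega)) hc
    rcases hlt with hlt | ⟨rfl, hlt⟩
    · rw [en_short (by omega)]
      by_cases h1 : i' < n
      · rw [st_short h1]
        have := scale_le (a := a) hlt
        omega
      · rw [st_long h1]
        have h2 := long_ge (n := n) (a := a) hA hB h'
        have h3 : a * 2 ^ i ≤ a * 2 ^ (n - 1) :=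
          Nat.mul_le_mul_left _ (Nat.pow_le_pow_right (by norm_num) (by omega))
        have h4 : a ≤ a * 2 ^ (n - 1) := Nat.le_mul_of_pos_right _ (by positivity)
        omega
    · by_cases h1 : i < n
      · rw [en_short h1, st_short h1]
        have : c * (h + 2) ≤ c * (h' + 1) := Nat.mul_le_mul_left _ (by omega)
        omega
      · rw [en_long h1, st_long h1]
        have h3 : B ^ (h + 1) ≤ B ^ h' := Nat.pow_le_pow_right hB hlt
        calc B * ((A + 1) * B ^ h * (a * 2 ^ (n - 1)))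
            = (A + 1) * B ^ (h + 1) * (a * 2 ^ (n - 1)) := by rw [pow_succ]; ring
          _ ≤ _ := Nat.mul_le_mul_right _ (Nat.mul_le_mul_left _ h3)
  rcases Nat.lt_trichotomy i i' with h1 | h1 | h1
  · exact Or.inl (key h i h' i' hh hh' hi hi' (Or.inl h1))
  · rcases Nat.lt_trichotomy h h' with h2 | h2 | h2
    · exact Or.inl (key h i h' i' hh hh' hi hi' (Or.inr ⟨h1, h2⟩))
    · exact absurd (Prod.ext h2 h1) hne
    · exact Or.inr (key h' i' h i hh' hh hi' hi (Or.inr ⟨h1.symm, h2⟩))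
  · exact Or.inr (key h' i' h i hh' hh hi' hi (Or.inl h1))

/-- the windows are separated from the windows of shift 0 -/
lemma windows_sep0 (hn : 1 ≤ n) (hA : 1 ≤ A) (hB : 1 ≤ B) (hc : c * (nh + 1) ≤ a) {h i i' : ℕ}
    (hh : h < nh) (hi : i ≤ n) (hi' : i' < n) :
    en n a c A B h i ≤ a * 2 ^ i' ∨ a * 2 ^ i' + c ≤ st n a c A B h i := by
  have hc1 : c ≤ a := le_trans (Nat.le_mul_of_pos_right _ (by omega)) hc
  have hc2 : c * (h + 2) ≤ a := le_trans (Nat.mul_le_mul_left _ (by omega)) hc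
  by_cases h1 : i < n
  · rw [en_short h1, st_short h1]
    rcases Nat.lt_trichotomy i i' with h2 | h2 | h2
    · left; have := scale_le (a := a) h2; omega
    · right
      subst h2
      have : c * 1 ≤ c * (h + 1) := Nat.mul_le_mul_left _ (by omega)
      omega
    · right; have := scale_le (a := a) h2; omega
  · right
    rw [st_long h1]
    have h2 := long_ge (n := n) (a := a) hA hB h
    have h3 : a * 2 ^ i' ≤ a * 2 ^ (n - 1) :=
      Nat.mul_le_mul_left _ (Nat.pow_le_pow_right (by norm_num) (by omega))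
    have h4 : a ≤ a * 2 ^ (n - 1) := Nat.le_mul_of_pos_right _ (by positivity)
    omega

end windows

lemma PA_disjoint {α β γ δ : ℕ} (h : β ≤ γ) : Disjoint (PA (2 ^ α) (2 ^ β)) (PA (2 ^ γ) (2 ^ δ)) := by
  rw [Finset.disjoint_left]
  intro ℓ h1 h2
  unfold PA at h1 h2
  rw [mem_filter, mem_Ioc] at h1 h2
  have : 2 ^ β ≤ 2 ^ γ := Nat.pow_le_pow_right (by norm_num) h
  omega

end Pool.Agent.helper7.JT
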