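import Mathlib
import Pool.Agent.helper7.JT.J6
import Pool.Agent.helper7.JT.J1

/-!
# JT 7: windows, lemmas
-/

set_option autoImplicit false

open Finset

namespace Pool.Agent.helper7.JT

open OC (J hs cs PA P5 Exc nonharm hs_sdiff cs_sdiff repel log_large)

lemma mem_PA {a b ℓ : ℕ} : ℓ ∈ PA a b ↔ (a < ℓ ∧ ℓ ≤ b) ∧ ℓ.Prime := by
  unfold PA
  rw [mem_filter, mem_Ioc]

lemma hs_mono {P Q : Finset ℕ} (h : P ⊆ Q) : hs P ≤ hs Q := by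
  unfold hs
  exact sum_le_sum_of_subset_of_nonneg h fun _ _ _ => by positivity

lemma win_low {c₂ : ℝ} {C₁ c α β : ℕ} (hblk : c₂ / α ≤ hs (P5 (2 ^ α) (C₁ * 2 ^ α)))
    (hC : C₁ ≤ 2 ^ c) (h : α + c ≤ β) : c₂ / α ≤ hs (PA (2 ^ α) (2 ^ β)) := by
  refine hblk.trans (hs_mono ?_)
  intro ℓ hℓ
  unfold P5 at hℓ
  rw [mem_filter, mem_Ioc] at hℓ
  rw [mem_PA]
  refine ⟨⟨hℓ.1.1, hℓ.1.2.trans ?_⟩, hℓ.2.1⟩
  calc C₁ * 2 ^ α ≤ 2 ^ c * 2 ^ α := Nat.mul_le_mul_right _ hC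
    _ = 2 ^ (α + c) := by rw [← pow_add, add_comm]
    _ ≤ 2 ^ β := Nat.pow_le_pow_right (by norm_num) h

section win
variable {P 𝒟 : Finset ℕ} {α : ℕ} (hα : 1 ≤ α) (hP : ∀ ℓ ∈ P, ℓ.Prime ∧ 2 ^ α < ℓ)
include hα hP

lemma win_sdiff_low {c₂ : ℝ} {CD : ℕ} (hD : 𝒟.card ≤ CD) (h : c₂ / α ≤ hs P)
    (hr : (CD : ℝ) * ((α : ℝ) / 2 ^ α) ≤ c₂ / 2) : c₂ / 2 / α ≤ hs (P \ 𝒟) := by
  have hb0 : (0 : ℝ) < α := by exact_mod_cast hα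
  have e1 := hs_sdiff P 𝒟 (2 ^ α) Nat.one_le_two_pow (fun ℓ hℓ => (hP ℓ hℓ).2)
  have e4 : (𝒟.card : ℝ) / (2 ^ α : ℕ) ≤ c₂ / 2 / (α : ℝ) := by
    rw [le_div_iff₀ hb0]
    have e5 : (𝒟.card : ℝ) / (2 ^ α : ℕ) * α = 𝒟.card * ((α : ℝ) / 2 ^ α) := by
      push_cast; ring
    rw [e5]
    refine le_trans ?_ hr
    exact mul_le_mul_of_nonneg_right (by exact_mod_cast hD) (by positivity)
  have e6 : c₂ / (α : ℝ) = c₂ / 2 / α + c₂ / 2 / α := by ring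
  linarith

omit hα in
lemma win_norm {M : ℕ} {η : ℝ} (h : |cs P M| + (𝒟.card : ℝ) / 2 ^ α ≤ η) (h0 : 0 < hs (P \ 𝒟)) :
    ∑ ℓ ∈ P \ 𝒟, (1 + J ℓ M) / ℓ ≤ (1 + η / hs (P \ 𝒟)) * hs (P \ 𝒟) := by
  have e1 : ∑ ℓ ∈ P \ 𝒟, (1 + J ℓ M) / ℓ = hs (P \ 𝒟) + cs (P \ 𝒟) M := by
    unfold hs cs
    rw [← sum_add_distrib]
    exact sum_congr rfl fun ℓ _ => by rw [add_div]
  have e3 := cs_sdiff P 𝒟 (2 ^ α) M Nat.one_le_two_pow (fun ℓ hℓ => (hP ℓ hℓ).2)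
  push_cast at e3
  have e6 : (1 + η / hs (P \ 𝒟)) * hs (P \ 𝒟) = hs (P \ 𝒟) + η := by
    field_simp
  rw [e1, e6]
  have e8 := (abs_le.mp e3).2
  have e9 := le_abs_self (cs P M)
  linarith

lemma nonharm_window {m : ℕ} {c₂ : ℝ} (hm : m ≠ 0) (h : |cs P m| < 7 / 10 * hs P)
    (hlow : c₂ / α ≤ hs P)
    (hr : ((Nat.log 2 m : ℝ) + 𝒟.card) * ((α : ℝ) / 2 ^ α) ≤ c₂ / 50) :
    hs ((P \ 𝒟).filter fun ℓ => J ℓ m ≠ -1) ≤ 87 / 100 * hs (P \ 𝒟) := by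
  have hb0 : (0 : ℝ) < α := by exact_mod_cast hα
  have e1 := nonharm P (2 ^ α) m Nat.one_le_two_pow hP hm
  have e2 : hs ((P \ 𝒟).filter fun ℓ => J ℓ m ≠ -1) ≤ hs (P.filter fun ℓ => J ℓ m ≠ -1) :=
    hs_mono (filter_subset_filter _ sdiff_subset)
  have e3 := hs_sdiff P 𝒟 (2 ^ α) Nat.one_le_two_pow (fun ℓ hℓ => (hP ℓ hℓ).2)
  have e8 : ((Nat.log 2 m : ℝ) + 𝒟.card) / (2 ^ α : ℕ) ≤ 1 / 50 * (c₂ / α) := by
    rw [mul_div_assoc', le_div_iff₀ hb0]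
    calc ((Nat.log 2 m : ℝ) + 𝒟.card) / (2 ^ α : ℕ) * α
        = ((Nat.log 2 m : ℝ) + 𝒟.card) * ((α : ℝ) / 2 ^ α) := by push_cast; ring
      _ ≤ 1 / 50 * c₂ := by linarith
  have e9 := (abs_lt.mp h).2
  have e10 : ((Nat.log 2 m : ℝ) + 𝒟.card) / (2 ^ α : ℕ)
      = (Nat.log 2 m : ℝ) / (2 ^ α : ℕ) + (𝒟.card : ℝ) / (2 ^ α : ℕ) := by rw [add_div]
  have e11 : (0 : ℝ) ≤ (𝒟.card : ℝ) / (2 ^ α : ℕ) := by positivity
  rw [e10] at e8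
  linarith

lemma long_sdiff {m : ℕ} {c₂ ρ : ℝ} (hρ : 0 < ρ) (hρ1 : ρ ≤ 1)
    (h : hs (P.filter fun ℓ => J ℓ m ≠ -1) ≤ (1 - ρ) * hs P)
    (hlow : c₂ / α ≤ hs P) (hr : (𝒟.card : ℝ) * ((α : ℝ) / 2 ^ α) ≤ ρ / 2 * c₂) :
    hs ((P \ 𝒟).filter fun ℓ => J ℓ m ≠ -1) ≤ (1 - ρ / 2) * hs (P \ 𝒟) := by
  have hb0 : (0 : ℝ) < α := by exact_mod_cast hα
  have e2 : hs ((P \ 𝒟).filter fun ℓ => J ℓ m ≠ -1) ≤ hs (P.filter fun ℓ => J ℓ m ≠ -1) :=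
    hs_mono (filter_subset_filter _ sdiff_subset)
  have e3 := hs_sdiff P 𝒟 (2 ^ α) Nat.one_le_two_pow (fun ℓ hℓ => (hP ℓ hℓ).2)
  have e4 : (𝒟.card : ℝ) / (2 ^ α : ℕ) ≤ ρ / 2 * hs P := by
    refine le_trans ?_ (mul_le_mul_of_nonneg_left hlow (by positivity))
    rw [mul_div_assoc', le_div_iff₀ hb0]
    refine le_trans (le_of_eq ?_) hr
    push_cast; ring
  have e5 : (0 : ℝ) ≤ (𝒟.card : ℝ) / (2 ^ α : ℕ) := by positivity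
  nlinarith

end win

open Classical in
/-- the harmful moduli of a window -/
noncomputable def HarmW (P : Finset ℕ) (k : ℕ) : Finset ℕ :=
  (Icc 1 (8 ^ k)).filter fun m => Squarefree m ∧ m % 24 = 23 ∧ 7 / 10 * hs P ≤ |cs P m|

lemma mem_HarmW {P : Finset ℕ} {k m : ℕ} : m ∈ HarmW P k ↔ (1 ≤ m ∧ m ≤ 8 ^ k) ∧ Squarefree m ∧
    m % 24 = 23 ∧ 7 / 10 * hs P ≤ |cs P m| := by
  unfold HarmW
  rw [mem_filter, mem_Icc]

/-- the number of harmful moduli of a late window -/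
lemma harm_last_gen (C₁ : ℕ) (c₂ : ℝ) (hc₂ : 0 < c₂) : ∃ CD : ℕ, ∀ (P : Finset ℕ) (k b : ℕ), 1 ≤ b →
    12 * k ≤ b → (∀ ℓ ∈ P, ℓ.Prime ∧ 2 ^ b < ℓ ∧ ℓ ≤ C₁ * 2 ^ b) → c₂ / (b : ℝ) ≤ hs P →
    (HarmW P k).card ≤ CD := by
  obtain ⟨Cr, hCr, hrep⟩ := repel C₁
  have hl2 : 0 < Real.log 2 := Real.log_pos (by norm_num)
  refine ⟨⌈Cr / ((7 / 10 * c₂) ^ 2 * (Real.log 2) ^ 2)⌉₊, ?_⟩
  intro P k₀ b h1 h2 hP h3
  have hb0 : (0 : ℝ) < b := by exact_mod_cast h1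
  have hη : 0 < 7 / 10 * hs P := by
    have : 0 < c₂ / (b : ℝ) := by positivity
    linarith
  have h4 := hrep P (HarmW P k₀) (2 ^ b) (8 ^ k₀) (7 / 10 * hs P)
    (by calc 2 = 2 ^ 1 := by norm_num
          _ ≤ 2 ^ b := Nat.pow_le_pow_right (by norm_num) h1)
    hP
    (by
      calc (8 ^ k₀) ^ 4 = 2 ^ (12 * k₀) := by
            rw [show (8 : ℕ) = 2 ^ 3 by norm_num, ← pow_mul, ← pow_mul]; congr 1; ring
        _ ≤ 2 ^ b := Nat.pow_le_pow_right (by norm_num) h2) hη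
    (fun m hm => by
      rw [mem_HarmW] at hm
      refine ⟨hm.2.1, Nat.odd_iff.mpr (by omega), by omega, hm.1.2, hm.2.2.2⟩)
  have h5 : (7 / 10 * c₂) ^ 2 * (Real.log 2) ^ 2
      ≤ (7 / 10 * hs P) ^ 2 * (Real.log ((2 ^ b : ℕ) : ℝ)) ^ 2 := by
    rw [Nat.cast_pow, Nat.cast_ofNat, Real.log_pow, mul_pow (b : ℝ)]
    have h6 : (7 / 10 * c₂) ^ 2 ≤ (7 / 10 * hs P) ^ 2 * (b : ℝ) ^ 2 := by
      rw [← mul_pow]
      refine pow_le_pow_left₀ (by positivity) ?_ 2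
      rw [div_le_iff₀ hb0] at h3
      linarith
    calc _ ≤ ((7 / 10 * hs P) ^ 2 * (b : ℝ) ^ 2) * (Real.log 2) ^ 2 :=
          mul_le_mul_of_nonneg_right h6 (by positivity)
      _ = _ := by ring
  have h7 : ((HarmW P k₀).card : ℝ) ≤ Cr / ((7 / 10 * c₂) ^ 2 * (Real.log 2) ^ 2) := by
    rw [le_div_iff₀ (by positivity)]
    refine le_trans ?_ h4
    rw [mul_assoc ((HarmW P k₀).card : ℝ)]
    exact mul_le_mul_of_nonneg_left h5 (Nat.cast_nonneg _)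
  have h8 := h7.trans (Nat.le_ceil _)
  exact_mod_cast h8

/-- Elementary facts at height `X` (`x = log X`). -/
structure JF (x : ℝ) (a b₂ : ℕ) (CD : ℕ) (c₂ ρ : ℝ) : Prop where
  x10 : 10 ≤ x
  ab : b₂ ≤ a
  a1 : 1 ≤ a
  M : x ^ 5 ≤ (2 : ℝ) ^ a
  M0 : x ^ (1600 : ℝ) ≤ (2 : ℝ) ^ a
  ratio : ∀ b : ℕ, a ≤ b → (b : ℝ) / 2 ^ b ≤ 1 / x ^ 5
  big : 100 * ((CD : ℝ) + 1) ≤ c₂ * ρ * x
  s1 : (CD : ℝ) * (1 / x ^ 5) ≤ c₂ / 2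
  s2 : (3 * x + CD) * (1 / x ^ 5) ≤ c₂ / 50
  s3 : (CD : ℝ) * (1 / x ^ 5) ≤ ρ / 2 * c₂
  s4 : (CD : ℝ) / x ^ 4 ≤ 1 / x ^ 3
  s5 : 100 ≤ c₂ * x

lemma jfacts (M Ca b₂ CD : ℕ) (hM : 1 ≤ M) (c₂ ρ : ℝ) (hc₂ : 0 < c₂) (hρ : 0 < ρ) (hρ1 : ρ ≤ 1) :
    ∃ X₀ : ℕ, ∀ X : ℕ, X₀ ≤ X → ∀ a : ℕ, (Real.log X) ^ (1600 * M : ℝ) ≤ 2 ^ a →
    (a : ℝ) ≤ Ca * Real.log (Real.log X) → JF (Real.log X) a b₂ CD c₂ ρ := by
  obtain ⟨X₀, hX₀⟩ := log_large (10 + 2 ^ b₂ + 100 * (CD + 1) / (c₂ * ρ) + CD + Ca)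
  refine ⟨X₀, fun X hX a ha1 ha2 => ?_⟩
  have h := hX₀ X hX
  set x := Real.log X with hx
  have p1 : (0 : ℝ) ≤ 100 * (CD + 1) / (c₂ * ρ) := by positivity
  have p4 : (0 : ℝ) ≤ Ca := Nat.cast_nonneg _
  have p5 : (0 : ℝ) ≤ CD := Nat.cast_nonneg _
  have p6 : (0 : ℝ) < 2 ^ b₂ := by positivity
  have x10 : (10 : ℝ) ≤ x := by linarith
  have x0 : (0 : ℝ) < x := by linarith
  have x1 : (1 : ℝ) ≤ x := by linarith
  have hM0 : x ^ (1600 : ℝ) ≤ (2 : ℝ) ^ a := by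
    refine le_trans ?_ ha1
    refine Real.rpow_le_rpow_of_exponent_le x1 ?_
    have : (1 : ℝ) ≤ M := by exact_mod_cast hM
    linarith
  have hM8 : x ^ 8 ≤ (2 : ℝ) ^ a := by
    refine le_trans ?_ hM0
    rw [← Real.rpow_natCast]
    exact Real.rpow_le_rpow_of_exponent_le x1 (by norm_num)
  have hM5 : x ^ 5 ≤ (2 : ℝ) ^ a := le_trans (pow_le_pow_right₀ x1 (by norm_num)) hM8
  have hM1 : x ≤ (2 : ℝ) ^ a := by
    refine le_trans ?_ hM8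
    calc x = x ^ 1 := (pow_one x).symm
      _ ≤ x ^ 8 := pow_le_pow_right₀ x1 (by norm_num)
  have hab : b₂ ≤ a := by
    by_contra hlt
    push Not at hlt
    have : (2 : ℝ) ^ a ≤ 2 ^ b₂ := pow_le_pow_right₀ (by norm_num) hlt.le
    linarith
  have ha : 1 ≤ a := by
    by_contra hlt
    have : a = 0 := by omega
    rw [this, pow_zero] at hM1
    linarith
  have hloglog : Real.log x ≤ x := (Real.log_le_sub_one_of_pos x0).trans (by linarith)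
  have haL : (a : ℝ) ≤ x * x := by
    refine ha2.trans (mul_le_mul (by linarith) hloglog ?_ x0.le)
    exact Real.log_nonneg x1
  have hratio : ∀ b : ℕ, a ≤ b → (b : ℝ) / 2 ^ b ≤ 1 / x ^ 5 := by
    intro b hb
    refine (OC.div_pow_anti ha hb).trans ?_
    rw [div_le_div_iff₀ (by positivity) (by positivity), one_mul]
    calc (a : ℝ) * x ^ 5 ≤ x * x * x ^ 5 := mul_le_mul_of_nonneg_right haL (by positivity)
      _ = x ^ 7 := by ring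
      _ ≤ x ^ 8 := pow_le_pow_right₀ x1 (by norm_num)
      _ ≤ 2 ^ a := hM8
  have hbig : 100 * ((CD : ℝ) + 1) ≤ c₂ * ρ * x := by
    have : 100 * ((CD : ℝ) + 1) / (c₂ * ρ) ≤ x := by linarith
    rw [div_le_iff₀ (by positivity)] at this
    linarith
  have hbig2 : 100 * ((CD : ℝ) + 1) ≤ c₂ * x := by
    refine hbig.trans ?_
    have : c₂ * ρ ≤ c₂ * 1 := mul_le_mul_of_nonneg_left hρ1 hc₂.le
    rw [mul_one] at this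
    exact mul_le_mul_of_nonneg_right this x0.le
  have hCDx : (CD : ℝ) ≤ x := by linarith
  have x4 : (1 : ℝ) ≤ x ^ 4 := one_le_pow₀ x1
  have e5 : x ^ 5 = x ^ 4 * x := by ring
  have e51 : x ≤ x ^ 5 := by rw [e5]; nlinarith
  have e52 : x ^ 2 ≤ x ^ 5 := pow_le_pow_right₀ x1 (by norm_num)
  refine ⟨x10, hab, ha, hM5, hM0, hratio, hbig, ?_, ?_, ?_, ?_, by linarith⟩
  · rw [mul_one_div, div_le_iff₀ (by positivity)]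
    have := mul_le_mul_of_nonneg_left e51 hc₂.le
    linarith
  · rw [mul_one_div, div_le_iff₀ (by positivity)]
    have h1 := mul_le_mul_of_nonneg_left (pow_le_pow_right₀ x1 (show 3 ≤ 5 by norm_num)) hc₂.le
    have h2 : c₂ * x ^ 3 = (c₂ * x) * x ^ 2 := by ring
    have h3 : 100 * x ^ 2 ≤ c₂ * x * x ^ 2 := mul_le_mul_of_nonneg_right (by linarith) (by positivity)
    nlinarith
  · rw [mul_one_div, div_le_iff₀ (by positivity)]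
    have h1 := mul_le_mul_of_nonneg_left e51 (mul_pos hc₂ hρ).le
    nlinarith
  · rw [div_le_div_iff₀ (by positivity) (by positivity)]
    have : (CD : ℝ) * x ^ 3 ≤ x * x ^ 3 := mul_le_mul_of_nonneg_right hCDx (by positivity)
    linarith [this, show x * x ^ 3 = x ^ 4 by ring]

lemma sum_fin_prod (nh n : ℕ) (hn : 1 ≤ n) (g : ℕ → ℝ) :
    ∑ p : Fin nh × Fin (n + 1), g p.2.val = nh * (g 0 + ∑ i ∈ Ico 1 n, g i + g n) := by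
  rw [Fintype.sum_prod_type]
  simp only
  rw [sum_const, card_univ, Fintype.card_fin, nsmul_eq_mul]
  congr 1
  rw [Fin.sum_univ_eq_sum_range g (n + 1), sum_range_succ, Finset.range_eq_Ico,
    Finset.sum_eq_sum_Ico_succ_bot hn]

lemma sum_fin_prod_nat (nh n : ℕ) (hn : 1 ≤ n) (g : ℕ → ℕ) :
    ∑ p : Fin nh × Fin (n + 1), g p.2.val = nh * (g 0 + ∑ i ∈ Ico 1 n, g i + g n) := by
  rw [Fintype.sum_prod_type]
  simp only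
  rw [sum_const, card_univ, Fintype.card_fin, smul_eq_mul]
  congr 1
  rw [Fin.sum_univ_eq_sum_range g (n + 1), sum_range_succ, Finset.range_eq_Ico,
    Finset.sum_eq_sum_Ico_succ_bot hn]

end Pool.Agent.helper7.JT
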