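import Mathlib
import Pool.Agent.helper7.JT.J7

/-!
# JT 8a: windows, lemmas
-/

set_option autoImplicit false

open Finset

namespace Pool.Agent.helper7.JT

open OC (J hs cs PA P5 Exc hs_nonneg)

/-- bound of the ends of the windows -/
def eb (n a A B nh i : ℕ) : ℕ := if i < n then 2 * (a * 2 ^ i) else (A + 1) * B ^ nh * (a * 2 ^ (n - 1))

lemma en_le_eb {n a c A B nh h i : ℕ} (hB : 1 ≤ B) (hc : c * (nh + 1) ≤ a) (hh : h < nh) :
    en n a c A B h i ≤ eb n a A B nh i := by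
  by_cases h1 : i < n
  · rw [en_short h1]
    unfold eb
    rw [if_pos h1]
    have hc2 : c * (h + 2) ≤ a := le_trans (Nat.mul_le_mul_left _ (by omega)) hc
    have : 1 ≤ 2 ^ i := Nat.one_le_two_pow
    nlinarith
  · rw [en_long h1]
    unfold eb
    rw [if_neg h1]
    have h3 : B ^ (h + 1) ≤ B ^ nh := Nat.pow_le_pow_right hB hh
    calc B * ((A + 1) * B ^ h * (a * 2 ^ (n - 1)))
        = (A + 1) * B ^ (h + 1) * (a * 2 ^ (n - 1)) := by rw [pow_succ]; ring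
      _ ≤ _ := Nat.mul_le_mul_right _ (Nat.mul_le_mul_left _ h3)

lemma st_add_le_en {n a c A B h i : ℕ} (hB : 2 ≤ B) (hc : c ≤ a) (hn : 1 ≤ n) :
    st n a c A B h i + c ≤ en n a c A B h i := by
  by_cases h1 : i < n
  · rw [en_short h1, st_short h1]
    have : c * (h + 2) = c * (h + 1) + c := by ring
    omega
  · rw [en_long h1, st_long h1]
    have h2 := st_ge (n := n) (a := a) (c := c) (A := A) (B := B) (h := h) (i := i) hn (by omega)
    rw [st_long h1] at h2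
    nlinarith

/-- the window -/
def Win (n a c A B h i : ℕ) : Finset ℕ := PA (2 ^ st n a c A B h i) (2 ^ en n a c A B h i)


section
variable {ι : Type} [Fintype ι] [DecidableEq ι] (L : ι → Finset ℕ) (K : ι → ℕ) (σ : ι → ℕ)

lemma EM_le_of (x c₂ : ℝ) (hc₂ : 0 < c₂) (hx : 10 ≤ x) (hcx : 100 ≤ c₂ * x)
    (hL : ∀ i, ∀ ℓ ∈ L i, 2 ^ σ i < ℓ) (hpos : ∀ i, 0 < hs (L i))
    (hinv : ∀ i, 1 / hs (L i) ≤ 2 / c₂ * (σ i : ℝ)) (hratio : ∀ i, (σ i : ℝ) / 2 ^ σ i ≤ 1 / x ^ 5)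
    (hKx : ∀ i, (K i : ℝ) ≤ x) (hKsum : ∑ i, (K i : ℝ) ≤ x) :
    EMj L K / 2 ≤ ∑ T ∈ Famj L K, 1 / (prj T : ℝ) := by
  have x0 : 0 < x := by linarith
  refine sum_inv_prj_ge L K (fun i => 1 / 2 ^ σ i) ?_ hpos (fun i => by positivity) ?_
  · intro i ℓ hℓ
    have h2 : (2 : ℝ) ^ σ i ≤ ℓ := by exact_mod_cast (hL i ℓ hℓ).le
    exact one_div_le_one_div_of_le (by positivity) h2
  · have e1 : ∀ i ∈ (univ : Finset ι), (K i : ℝ) ^ 2 * (1 / 2 ^ σ i) / hs (L i)
        ≤ K i * (x * (2 / c₂) * (1 / x ^ 5)) := by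
      intro i _
      have e2 := hinv i
      have e3 := hratio i
      have e4 := hKx i
      have hp := hpos i
      calc (K i : ℝ) ^ 2 * (1 / 2 ^ σ i) / hs (L i)
          = K i * K i * (1 / 2 ^ σ i) * (1 / hs (L i)) := by ring
        _ ≤ K i * x * (1 / 2 ^ σ i) * (2 / c₂ * (σ i : ℝ)) := by
            refine mul_le_mul ?_ e2 (by positivity) (by positivity)
            refine mul_le_mul_of_nonneg_right ?_ (by positivity)
            exact mul_le_mul_of_nonneg_left e4 (Nat.cast_nonneg _)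
        _ = K i * (x * (2 / c₂) * ((σ i : ℝ) / 2 ^ σ i)) := by ring
        _ ≤ _ := by
            refine mul_le_mul_of_nonneg_left ?_ (Nat.cast_nonneg _)
            exact mul_le_mul_of_nonneg_left e3 (by positivity)
    refine (sum_le_sum e1).trans ?_
    rw [← sum_mul]
    calc (∑ i, (K i : ℝ)) * (x * (2 / c₂) * (1 / x ^ 5))
        ≤ x * (x * (2 / c₂) * (1 / x ^ 5)) := mul_le_mul_of_nonneg_right hKsum (by positivity)
      _ = 2 / (c₂ * x ^ 3) := by field_simp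
      _ ≤ 1 / 2 := by
        rw [div_le_div_iff₀ (by positivity) (by norm_num)]
        have h1 : (1 : ℝ) ≤ x ^ 2 := one_le_pow₀ (by linarith)
        nlinarith

lemma delta_le (η c₂ : ℝ) (hη : 0 ≤ η) (hinv : ∀ i, 1 / hs (L i) ≤ 2 / c₂ * (σ i : ℝ)) :
    ∑ i, (K i : ℝ) * (η / hs (L i)) ≤ η * (2 / c₂) * ∑ i, (K i : ℝ) * (σ i : ℝ) := by
  rw [mul_sum]
  refine sum_le_sum fun i _ => ?_
  calc (K i : ℝ) * (η / hs (L i)) = K i * η * (1 / hs (L i)) := by ring
    _ ≤ K i * η * (2 / c₂ * (σ i : ℝ)) := mul_le_mul_of_nonneg_left (hinv i) (by positivity)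
    _ = _ := by ring

end

end Pool.Agent.helper7.JT
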