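import Mathlib
import Pool.Agent.helper7.JT.J8a

/-!
# JT 8: the data at height `X`, first stage
-/

set_option autoImplicit false

open Finset

namespace Pool.Agent.helper7.JT

open OC (J hs cs PA P5 Exc Blk Harm Pb mem_Pb mem_Harm mem_Exc
  sum_fin sum_fin_nat hs_nonneg ss5_natlog Pb_disjoint prod_scale_le)

/-- the scales of shift 0 -/
def L0 (a C₁ n : ℕ) (𝒟 : Finset ℕ) : Fin n → Finset ℕ := fun i => Pb a C₁ i.val \ 𝒟

/-- number of primes at the scales of shift 0 -/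
def K0f (k₀ s d n : ℕ) (Kf : ℕ → ℕ) : ℕ → ℕ :=
  fun i => if i = 0 then k₀ - s - d - ∑ j ∈ Ico 1 n, Kf j else Kf i

/-- number of primes at the scales of shift 0 -/
def K0 (k₀ s d n : ℕ) (Kf : ℕ → ℕ) : Fin n → ℕ := fun i => K0f k₀ s d n Kf i.val

/-- the scales of the other shifts -/
def L1 (a n c A B nh : ℕ) (𝒟 : Finset ℕ) : Fin nh × Fin (n + 1) → Finset ℕ :=
  fun p => Win n a c A B p.1.val p.2.val \ 𝒟

/-- number of primes at the scales of the other shifts -/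
def K1f (k₀ Cn n : ℕ) (Kf : ℕ → ℕ) : ℕ → ℕ :=
  fun i => if i = 0 then k₀ - ∑ j ∈ Ico 1 n, Kf j else if i < n then Kf i else Cn

/-- number of primes at the scales of the other shifts -/
def K1 (k₀ Cn n nh : ℕ) (Kf : ℕ → ℕ) : Fin nh × Fin (n + 1) → ℕ := fun p => K1f k₀ Cn n Kf p.2.val

/-- first stage -/
structure JPre (X nh s CD₁ C₁ c A B Cn W : ℕ) (c₂ : ℝ) (a n k₀ : ℕ) (Kf : ℕ → ℕ) (𝒟 : Finset ℕ) :
    Prop where
  sys : JSys (L0 a C₁ n 𝒟) (L1 a n c A B nh 𝒟) 𝒟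
  card0 : 𝒟.card + ∑ i, K0 k₀ s 𝒟.card n Kf i + s = k₀
  K0_ge : k₀ ≤ 2 * K0f k₀ s 𝒟.card n Kf 0
  K1_ge : k₀ ≤ 2 * K1f k₀ Cn n Kf 0
  card1 : ∀ h : Fin nh, ∑ i, K1 k₀ Cn n nh Kf (h, i) = k₀ + Cn
  tot : 𝒟.card + ∑ i, K0 k₀ s 𝒟.card n Kf i + ∑ i, K1 k₀ Cn n nh Kf i ≤ (nh + 1) * k₀ + W
  totx : ((𝒟.card + ∑ i, K0 k₀ s 𝒟.card n Kf i + ∑ i, K1 k₀ Cn n nh Kf i : ℕ) : ℝ) ≤ Real.log X
  size : ∀ T ∈ Famj (L0 a C₁ n 𝒟) (K0 k₀ s 𝒟.card n Kf),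
    ∀ T' ∈ Famj (L1 a n c A B nh 𝒟) (K1 k₀ Cn n nh Kf), (mdj 𝒟 T * prj T') ^ 32 ≤ X
  L0_pos : ∀ i, 0 < hs (L0 a C₁ n 𝒟 i)
  L1_pos : ∀ p, 0 < hs (L1 a n c A B nh 𝒟 p)
  L1_inv : ∀ p : Fin nh × Fin (n + 1), 1 / hs (L1 a n c A B nh 𝒟 p) ≤
    2 / c₂ * ((st n a c A B p.1.val p.2.val : ℕ) : ℝ)
  EM0_le : EMj (L0 a C₁ n 𝒟) (K0 k₀ s 𝒟.card n Kf) / 2 ≤
    ∑ T ∈ Famj (L0 a C₁ n 𝒟) (K0 k₀ s 𝒟.card n Kf), 1 / (prj T : ℝ)
  EM1_le : EMj (L1 a n c A B nh 𝒟) (K1 k₀ Cn n nh Kf) / 2 ≤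
    ∑ T ∈ Famj (L1 a n c A B nh 𝒟) (K1 k₀ Cn n nh Kf), 1 / (prj T : ℝ)
  δ_sum : ∑ i, (K0 k₀ s 𝒟.card n Kf i : ℝ) * (3 / (Real.log X) ^ 3 / hs (L0 a C₁ n 𝒟 i))
    + ∑ p, (K1 k₀ Cn n nh Kf p : ℝ) * (4 / (Real.log X) ^ 2 / hs (L1 a n c A B nh 𝒟 p)) ≤ 2
  en_log : ∀ p : Fin nh × Fin (n + 1), en n a c A B p.1.val p.2.val ≤ Nat.log 2 X
  normal : ∀ u : ℕ, 1 ≤ u → u ≤ X → (∀ m ∈ Exc X a n C₁, ∀ f : ℕ, 24 * u ≠ m * f ^ 2 + 1) →
    (∀ r : ℕ, a ≤ 2 ^ r → 2 ^ 2 ^ r ≤ X → -2 ≤ cs (PA (2 ^ a) (2 ^ 2 ^ r)) (24 * u - 1)) ∧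
    (∀ i, ∑ ℓ ∈ L0 a C₁ n 𝒟 i, (1 + J ℓ (24 * u - 1)) / ℓ ≤
      (1 + 3 / (Real.log X) ^ 3 / hs (L0 a C₁ n 𝒟 i)) * hs (L0 a C₁ n 𝒟 i)) ∧
    ∀ p, ∑ ℓ ∈ L1 a n c A B nh 𝒟 p, (1 + J ℓ (24 * u - 1)) / ℓ ≤
      (1 + 4 / (Real.log X) ^ 2 / hs (L1 a n c A B nh 𝒟 p)) * hs (L1 a n c A B nh 𝒟 p)

lemma j8_s5 {c x : ℝ} (h : 100 ≤ c * x) (hx : 1 ≤ x) : 6 ≤ c * x ^ 2 := by
  have h1 : c * x ^ 2 = (c * x) * x := by ring
  rw [h1]
  have h2 : (c * x) * 1 ≤ (c * x) * x := mul_le_mul_of_nonneg_left hx (by linarith)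
  linarith

lemma j8_cube {x : ℝ} (h : 10 ≤ x) : 1 * (10 * x ^ 2) ≤ 1 * x ^ 3 := by
  have h1 : x ^ 3 = x * x ^ 2 := by ring
  rw [h1, one_mul, one_mul]
  exact mul_le_mul_of_nonneg_right h (sq_nonneg x)

lemma j8_sq {x : ℝ} (h : 10 ≤ x) : 3 ≤ 2 * x ^ 2 := by
  nlinarith

theorem jstage1 {X nh s CD₁ C₁ C₃ c A B b₀ b₂ Cn W a n μ : ℕ} {c₂ ρ : ℝ} {Kf : ℕ → ℕ} {𝒟 : Finset ℕ}
    (hc₂ : 0 < c₂) (hX2 : 2 ≤ X)
    (hblock : ∀ b : ℕ, b₀ ≤ b → c₂ / b ≤ hs (P5 (2 ^ b) (C₁ * 2 ^ b))) (hC₁c : C₁ ≤ 2 ^ c)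
    (hA : 1 ≤ A) (hB : 2 ≤ B) (hC₃ : 1 ≤ C₃)
    (hW : W = nh * ((A + 1) * B ^ nh * Cn) + (A + 1) * B ^ nh + 2 + nh * Cn)
    (h2μ : 2 ≤ μ) (hμle : (((nh + 1 : ℕ) : ℝ) + W + 1) * (2 : ℝ) ^ μ ≤ Real.log X)
    (hn2 : 2 ≤ n) 
    (hsum : 2 * (∑ i ∈ Ico 1 n, Kf i + s + CD₁) ≤ 2 ^ (μ - 1))
    (hsize : ((C₃ * (8 ^ ((nh + 1) * 2 ^ (μ - 1))) ^ C₃) ^ CD₁ *
        (2 ^ (2 * (a * 2 ^ (μ - 1) + ∑ i ∈ Ico 1 n, a * 2 ^ i * Kf i))) ^ (nh + 1) *
        2 ^ (W * (a * 2 ^ (n - 1)))) ^ 32 ≤ X)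
    (F : JF (Real.log X) a b₂ CD₁ c₂ ρ) (hab0 : b₀ ≤ a) (hca : c * (nh + 1) ≤ a)
    (hnorm' : ∀ u : ℕ, 1 ≤ u → u ≤ X → (∀ m ∈ Exc X a n C₁, ∀ f : ℕ, 24 * u ≠ m * f ^ 2 + 1) →
      ∀ B ∈ Blk X a n C₁, |cs B (24 * u - 1)| ≤ 2 / (Real.log X) ^ 3)
    (hDcard : 𝒟.card ≤ CD₁)
    (hDmem : ∀ ℓ ∈ 𝒟, ℓ.Prime ∧ ℓ % 8 = 5 ∧ ℓ ≤ C₃ * (8 ^ ((nh + 1) * 2 ^ (μ - 1))) ^ C₃) :
    JPre X nh s CD₁ C₁ c A B Cn W c₂ a n (2 ^ (μ - 1)) Kf 𝒟 := by
  classical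
  set M := nh + 1 with hM
  set k₀ := 2 ^ (μ - 1) with hk₀
  set k := M * k₀ with hk
  have hM0 : (0 : ℝ) < M := by exact_mod_cast (by omega : 0 < M)
  have hXpos : 0 < X := by omega
  have hn1 : 1 ≤ n := by omega
  have hk1 : 1 ≤ k₀ := Nat.one_le_two_pow
  have hk11 : 1 ≤ k := Nat.one_le_iff_ne_zero.mpr (by positivity)
  set x := Real.log X with hx
  have x0 : 0 < x := by linarith [F.x10]
  have x1 : 1 ≤ x := by linarith [F.x10]
  have ha1 := F.a1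
  have hca1 : c ≤ a := le_trans (Nat.le_mul_of_pos_right _ (by omega)) hca
  have hB1 : 1 ≤ B := by omega
  -- `k` and `x`
  have hμ2 : (2 : ℝ) ^ μ = 2 * (k₀ : ℝ) := by
    rw [hk₀]; push_cast
    rw [← pow_succ']; congr 1; omega
  have hkx2 : 2 * ((M : ℝ) + W + 1) * k₀ ≤ x := by rw [hμ2] at hμle; linarith
  have hk0pos : (0 : ℝ) < k₀ := by exact_mod_cast hk1
  have hkx : (k : ℝ) ≤ x := by
    refine le_trans ?_ hkx2
    rw [hk]; push_cast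
    have h1 : (0 : ℝ) ≤ W * k₀ := mul_nonneg (Nat.cast_nonneg _) hk0pos.le
    have h2 : (0 : ℝ) ≤ M * k₀ := mul_nonneg (Nat.cast_nonneg _) hk0pos.le
    rw [hk₀] at h1 h2 hk0pos ⊢
    push_cast at h1 h2 hk0pos ⊢
    linarith
  have hk₀x : (k₀ : ℝ) ≤ x := by
    refine le_trans ?_ hkx
    exact_mod_cast Nat.le_mul_of_pos_left _ (by omega)
  -- blocks of shift 0
  have hb : ∀ i, a ≤ a * 2 ^ i := fun i => Nat.le_mul_of_pos_right _ (by positivity)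
  have hb1 : ∀ i, 1 ≤ a * 2 ^ i := fun i => ha1.trans (hb i)
  have hPb : ∀ i, c₂ / ((a * 2 ^ i : ℕ) : ℝ) ≤ hs (Pb a C₁ i) := fun i =>
    hblock (a * 2 ^ i) (hab0.trans (hb i))
  have hPmem : ∀ i, ∀ ℓ ∈ Pb a C₁ i, ℓ.Prime ∧ 2 ^ (a * 2 ^ i) < ℓ := fun i ℓ hℓ => by
    rw [mem_Pb] at hℓ; exact ⟨hℓ.2.1, hℓ.1.1⟩
  have hV1 : ∀ i, 1 ≤ 2 ^ (a * 2 ^ i) := fun i => Nat.one_le_two_pow
  have hratio := fun i => F.ratio (a * 2 ^ i) (hb i)
  have haC : C₁ ≤ 2 ^ a := hC₁c.trans (Nat.pow_le_pow_right (by norm_num) hca1)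
  have hC3pos : 1 ≤ C₃ * (8 ^ k) ^ C₃ := Nat.one_le_iff_ne_zero.mpr (by
    have := hC₃
    positivity)
  -- the scales of shift 0
  set S' := ∑ j ∈ Ico 1 n, Kf j with hS'
  set L₀ := L0 a C₁ n 𝒟 with hL₀
  set K' := K0f k₀ s 𝒟.card n Kf with hK'
  set K₀ := K0 k₀ s 𝒟.card n Kf with hK₀
  have hIco : ∀ i ∈ Ico 1 n, K' i = Kf i := fun i hi => by
    rw [mem_Ico] at hi; rw [hK']; unfold K0f; rw [if_neg (by omega)]
  have hK'0 : K' 0 = k₀ - s - 𝒟.card - S' := by rw [hK']; unfold K0f; rw [if_pos rfl]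
  have hcard : 𝒟.card + ∑ i, K₀ i + s = k₀ := by
    have e1 : ∑ i, K₀ i = K' 0 + ∑ i ∈ Ico 1 n, K' i := sum_fin_nat n hn1 K'
    have e3 : ∑ i ∈ Ico 1 n, K' i = S' := sum_congr rfl hIco
    rw [e1, e3, hK'0]; omega
  have hK0 : k₀ ≤ 2 * K' 0 := by rw [hK'0]; omega
  have hK₀le : ∀ i, K₀ i ≤ k₀ := fun i => by
    have := single_le_sum (f := K₀) (fun j _ => Nat.zero_le _) (mem_univ i)
    omega
  -- the scales of the other shifts
  set L₁ := L1 a n c A B nh 𝒟 with hL₁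
  set K'' := K1f k₀ Cn n Kf with hK''
  set K₁ := K1 k₀ Cn n nh Kf with hK₁
  have hK''0 : K'' 0 = k₀ - S' := by rw [hK'']; unfold K1f; rw [if_pos rfl]
  have hK''n : K'' n = Cn := by
    rw [hK'']; unfold K1f; rw [if_neg (by omega), if_neg (by omega)]
  have hIco'' : ∀ i ∈ Ico 1 n, K'' i = Kf i := fun i hi => by
    rw [mem_Ico] at hi; rw [hK'']; unfold K1f; rw [if_neg (by omega), if_pos hi.2]
  have hKsum1 : K'' 0 + ∑ i ∈ Ico 1 n, K'' i + K'' n = k₀ + Cn := by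
    have e3 : ∑ i ∈ Ico 1 n, K'' i = S' := sum_congr rfl hIco''
    rw [e3, hK''0, hK''n]; omega
  have hcard1 : ∑ p, K₁ p = nh * (k₀ + Cn) := by
    have := sum_fin_prod_nat nh n hn1 K''
    rw [hKsum1] at this
    exact this
  have hcard1h : ∀ h : Fin nh, ∑ i, K₁ (h, i) = k₀ + Cn := by
    intro h
    have e1 : ∑ i, K₁ (h, i) = ∑ i : Fin (n + 1), K'' i.val := rfl
    rw [e1, Fin.sum_univ_eq_sum_range K'' (n + 1), sum_range_succ, Finset.range_eq_Ico,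
      Finset.sum_eq_sum_Ico_succ_bot hn1]
    exact hKsum1
  have hKtot : 𝒟.card + ∑ i, K₀ i + ∑ i, K₁ i ≤ k + W := by
    rw [hcard1, hk, hM, hW]
    have : nh * (k₀ + Cn) = nh * k₀ + nh * Cn := by ring
    have h2 : (nh + 1) * k₀ = nh * k₀ + k₀ := by ring
    have h3 : 0 ≤ nh * ((A + 1) * B ^ nh * Cn) + (A + 1) * B ^ nh := Nat.zero_le _
    omega
  have hKtotx : ((𝒟.card + ∑ i, K₀ i + ∑ i, K₁ i : ℕ) : ℝ) ≤ x := by
    have e1 : ((𝒟.card + ∑ i, K₀ i + ∑ i, K₁ i : ℕ) : ℝ) ≤ ((k + W : ℕ) : ℝ) := by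
      exact_mod_cast hKtot
    refine e1.trans (le_trans ?_ hkx2)
    rw [hk]; push_cast
    have h1 : (1 : ℝ) ≤ k₀ := by exact_mod_cast hk1
    have h2 : (0 : ℝ) ≤ W := Nat.cast_nonneg _
    have h3 : (0 : ℝ) ≤ M * k₀ := mul_nonneg (Nat.cast_nonneg _) hk0pos.le
    have h4 := mul_le_mul_of_nonneg_left h1 h2
    rw [hk₀] at h1 h3 h4 hk0pos ⊢
    push_cast at h1 h3 h4 hk0pos ⊢
    linarith
  have hK₁x : ∀ p, (K₁ p : ℝ) ≤ x := fun p => by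
    have h1 : K₁ p ≤ ∑ i, K₁ i := single_le_sum (f := K₁) (fun j _ => Nat.zero_le _) (mem_univ p)
    have h2 : K₁ p ≤ 𝒟.card + ∑ i, K₀ i + ∑ i, K₁ i := by omega
    refine le_trans ?_ hKtotx
    exact_mod_cast h2
  -- exponents
  set S := a * k₀ + ∑ i ∈ Ico 1 n, a * 2 ^ i * Kf i with hS
  set bb := a * 2 ^ (n - 1) with hbb
  have hSle : ∑ i : Fin n, a * 2 ^ i.val * K₀ i ≤ S := by
    have e1 : ∑ i : Fin n, a * 2 ^ i.val * K₀ i = a * 2 ^ 0 * K' 0 + ∑ i ∈ Ico 1 n, a * 2 ^ i * K' i :=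
      sum_fin_nat n hn1 (fun i => a * 2 ^ i * K' i)
    rw [e1, sum_congr rfl (fun i hi => by rw [hIco i hi])]
    refine Nat.add_le_add_right ?_ _
    rw [pow_zero, mul_one]
    refine Nat.mul_le_mul_left _ ?_
    rw [hK'0]; omega
  have hS1le : ∑ p : Fin nh × Fin (n + 1), eb n a A B nh p.2.val * K₁ p ≤ nh * (2 * S) + W * bb := by
    have e1 : ∑ p : Fin nh × Fin (n + 1), eb n a A B nh p.2.val * K₁ p
        = nh * (eb n a A B nh 0 * K'' 0 + ∑ i ∈ Ico 1 n, eb n a A B nh i * K'' i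
          + eb n a A B nh n * K'' n) := sum_fin_prod_nat nh n hn1 (fun i => eb n a A B nh i * K'' i)
    have e2 : eb n a A B nh 0 = 2 * a := by unfold eb; rw [if_pos (by omega)]; ring
    have e3 : eb n a A B nh n = (A + 1) * B ^ nh * bb := by unfold eb; rw [if_neg (by omega)]
    have e4 : ∑ i ∈ Ico 1 n, eb n a A B nh i * K'' i = 2 * ∑ i ∈ Ico 1 n, a * 2 ^ i * Kf i := by
      rw [mul_sum]
      refine sum_congr rfl fun i hi => ?_
      rw [hIco'' i hi]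
      rw [mem_Ico] at hi
      unfold eb
      rw [if_pos hi.2]; ring
    rw [e1, e2, e3, e4, hK''0, hK''n]
    have e5 : 2 * a * (k₀ - S') ≤ 2 * (a * k₀) := by
      calc 2 * a * (k₀ - S') ≤ 2 * a * k₀ := Nat.mul_le_mul_left _ (by omega)
        _ = _ := by ring
    have e6 : nh * ((A + 1) * B ^ nh * bb * Cn) ≤ W * bb := by
      calc nh * ((A + 1) * B ^ nh * bb * Cn) = nh * ((A + 1) * B ^ nh * Cn) * bb := by ring
        _ ≤ W * bb := Nat.mul_le_mul_right _ (by omega)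
    calc nh * (2 * a * (k₀ - S') + 2 * ∑ i ∈ Ico 1 n, a * 2 ^ i * Kf i + (A + 1) * B ^ nh * bb * Cn)
        ≤ nh * (2 * S + (A + 1) * B ^ nh * bb * Cn) := by
          refine Nat.mul_le_mul_left _ ?_
          rw [hS]; omega
      _ = nh * (2 * S) + nh * ((A + 1) * B ^ nh * bb * Cn) := by ring
      _ ≤ _ := Nat.add_le_add_left e6 _
  set DF := (C₃ * (8 ^ k) ^ C₃) ^ CD₁ with hDF
  have hDF1 : 1 ≤ DF := Nat.one_le_pow _ _ hC3pos
  have hsize' : (DF * 2 ^ (2 * S) * 2 ^ (nh * (2 * S) + W * bb)) ^ 32 ≤ X := by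
    refine le_trans (le_of_eq ?_) hsize
    congr 1
    rw [hDF, hM, pow_add, pow_succ, ← pow_mul 2 (2 * S) nh]
    rw [show 2 * S * nh = nh * (2 * S) by ring]
    ring
  have hE2 : 2 ^ (32 * (2 * S + (nh * (2 * S) + W * bb))) ≤ X := by
    refine le_trans ?_ hsize'
    calc 2 ^ (32 * (2 * S + (nh * (2 * S) + W * bb))) = (2 ^ (2 * S + (nh * (2 * S) + W * bb))) ^ 32 := by
          rw [← pow_mul, mul_comm]
      _ ≤ _ := Nat.pow_le_pow_left (by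
          rw [pow_add, mul_assoc]
          exact Nat.le_mul_of_pos_left _ hDF1) 32
  have hElog : 32 * (2 * S + (nh * (2 * S) + W * bb)) ≤ Nat.log 2 X :=
    Nat.le_log_of_pow_le (by norm_num) hE2
  have hlogx := ss5_natlog X (by omega)
  have hEx : ((2 * S + (nh * (2 * S) + W * bb) : ℕ) : ℝ) ≤ x := by
    have h1 : ((32 * (2 * S + (nh * (2 * S) + W * bb)) : ℕ) : ℝ) ≤ (Nat.log 2 X : ℝ) := by
      exact_mod_cast hElog
    rw [Nat.cast_mul] at h1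
    push_cast at h1 ⊢
    have h2 : (0 : ℝ) ≤ 2 * S + (nh * (2 * S) + W * bb) := by positivity
    linarith
  have hW2 : 2 + (A + 1) * B ^ nh ≤ W := by rw [hW]; omega
  have hebW : ∀ i ≤ n, eb n a A B nh i ≤ W * bb := by
    intro i hi
    unfold eb
    split_ifs with h
    · have h3 : a * 2 ^ i ≤ bb := Nat.mul_le_mul_left _ (Nat.pow_le_pow_right (by norm_num) (by omega))
      calc 2 * (a * 2 ^ i) ≤ 2 * bb := Nat.mul_le_mul_left _ h3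
        _ ≤ W * bb := Nat.mul_le_mul_right _ (by omega)
    · exact Nat.mul_le_mul_right _ (by omega)
  have henlog : ∀ p : Fin nh × Fin (n + 1), en n a c A B p.1.val p.2.val ≤ Nat.log 2 X := by
    intro p
    have h1 := en_le_eb (n := n) (i := p.2.val) (A := A) hB1 hca p.1.isLt
    have h2 := hebW p.2.val (by omega)
    have h3 : W * bb ≤ 32 * (2 * S + (nh * (2 * S) + W * bb)) := by omega
    omega
  -- windows
  have hst : ∀ p : Fin nh × Fin (n + 1), a ≤ st n a c A B p.1.val p.2.val := fun p =>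
    st_ge hn1 hB1
  have hst1 : ∀ p : Fin nh × Fin (n + 1), 1 ≤ st n a c A B p.1.val p.2.val := fun p =>
    ha1.trans (hst p)
  have hsten : ∀ p : Fin nh × Fin (n + 1), st n a c A B p.1.val p.2.val + c ≤
      en n a c A B p.1.val p.2.val := fun p => st_add_le_en hB hca1 hn1
  have hWmem : ∀ h i : ℕ, ∀ ℓ ∈ Win n a c A B h i, ℓ.Prime ∧ 2 ^ st n a c A B h i < ℓ :=
    fun h i ℓ hℓ => by
      unfold Win at hℓ
      rw [mem_PA] at hℓ
      exact ⟨hℓ.2, hℓ.1.1⟩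
  have hWlow : ∀ h i : ℕ, c₂ / ((st n a c A B h i : ℕ) : ℝ) ≤ hs (Win n a c A B h i) := by
    intro h i
    have h1 : a ≤ st n a c A B h i := st_ge hn1 hB1
    exact win_low (hblock _ (hab0.trans h1)) hC₁c (st_add_le_en hB hca1 hn1)
  have hratioW : ∀ h i : ℕ, ((st n a c A B h i : ℕ) : ℝ) / 2 ^ st n a c A B h i ≤ 1 / x ^ 5 :=
    fun h i => F.ratio _ (st_ge hn1 hB1)
  have hCDpos : (0 : ℝ) ≤ CD₁ := Nat.cast_nonneg _
  have hDc : (𝒟.card : ℝ) ≤ CD₁ := by exact_mod_cast hDcard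
  have hL₁low : ∀ p, c₂ / 2 / ((st n a c A B p.1.val p.2.val : ℕ) : ℝ) ≤ hs (L₁ p) := by
    intro p
    refine win_sdiff_low (hst1 p) (hWmem _ _) hDcard (hWlow _ _) ?_
    exact le_trans (mul_le_mul_of_nonneg_left (hratioW _ _) hCDpos) F.s1
  have hL₁pos : ∀ p, 0 < hs (L₁ p) := fun p => lt_of_lt_of_le (by
    have : (0 : ℝ) < ((st n a c A B p.1.val p.2.val : ℕ) : ℝ) := by exact_mod_cast hst1 p
    positivity) (hL₁low p)
  have hinvL₁ : ∀ p, 1 / hs (L₁ p) ≤ 2 / c₂ * ((st n a c A B p.1.val p.2.val : ℕ) : ℝ) := by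
    intro p
    have hb0 : (0 : ℝ) < ((st n a c A B p.1.val p.2.val : ℕ) : ℝ) := by exact_mod_cast hst1 p
    have e1 := hL₁low p
    rw [div_le_iff₀ (hL₁pos p)]
    set b := ((st n a c A B p.1.val p.2.val : ℕ) : ℝ) with hbdef
    have e2 : (1 : ℝ) = 2 / c₂ * b * (c₂ / 2 / b) := by
      field_simp
    calc (1 : ℝ) = 2 / c₂ * b * (c₂ / 2 / b) := e2
      _ ≤ _ := mul_le_mul_of_nonneg_left e1 (by positivity)
  have hL₀low : ∀ i : Fin n, c₂ / 2 / ((a * 2 ^ i.val : ℕ) : ℝ) ≤ hs (L₀ i) := by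
    intro i
    refine win_sdiff_low (hb1 _) (hPmem _) hDcard (hPb _) ?_
    exact le_trans (mul_le_mul_of_nonneg_left (hratio _) hCDpos) F.s1
  have hL₀pos : ∀ i : Fin n, 0 < hs (L₀ i) := fun i => lt_of_lt_of_le (by
    have : (0 : ℝ) < ((a * 2 ^ i.val : ℕ) : ℝ) := by exact_mod_cast hb1 i.val
    positivity) (hL₀low i)
  have hinvL₀ : ∀ i : Fin n, 1 / hs (L₀ i) ≤ 2 / c₂ * ((a * 2 ^ i.val : ℕ) : ℝ) := by
    intro i
    have hb0 : (0 : ℝ) < ((a * 2 ^ i.val : ℕ) : ℝ) := by exact_mod_cast hb1 i.val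
    have e1 := hL₀low i
    rw [div_le_iff₀ (hL₀pos i)]
    set b := ((a * 2 ^ i.val : ℕ) : ℝ) with hbdef
    have e2 : (1 : ℝ) = 2 / c₂ * b * (c₂ / 2 / b) := by
      field_simp
    calc (1 : ℝ) = 2 / c₂ * b * (c₂ / 2 / b) := e2
      _ ≤ _ := mul_le_mul_of_nonneg_left e1 (by positivity)
  -- the system
  have hsys : JSys L₀ L₁ 𝒟 := by
    refine ⟨?_, ?_, ?_, ?_, ?_, ?_, ?_, ?_⟩
    · intro i ℓ hℓ
      rw [hL₀] at hℓ; unfold L0 at hℓ; rw [mem_sdiff] at hℓ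
      have := mem_Pb.mp hℓ.1
      exact ⟨this.2.1, by have := this.2.1.two_le; have h8 := (mem_Pb.mp hℓ.1).2.2; omega⟩
    · intro p ℓ hℓ
      rw [hL₁] at hℓ; unfold L1 at hℓ; rw [mem_sdiff] at hℓ
      have h1 := hWmem _ _ ℓ hℓ.1
      refine ⟨h1.1, lt_of_le_of_lt ?_ h1.2⟩
      have h2 : 2 ≤ st n a c A B p.1.val p.2.val := by
        have h3 := F.x10
        have h4 := F.M
        have h5 : a ≤ st n a c A B p.1.val p.2.val := hst p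
        by_contra hlt
        have h6 : a ≤ 1 := by omega
        have h7 : (2 : ℝ) ^ a ≤ 2 ^ 1 := pow_le_pow_right₀ (by norm_num) h6
        have h8 : (10 : ℝ) ^ 5 ≤ x ^ 5 := pow_le_pow_left₀ (by norm_num) h3 5
        norm_num at h7 h8
        linarith
      calc 3 ≤ 2 ^ 2 := by norm_num
        _ ≤ _ := Nat.pow_le_pow_right (by norm_num) h2
    · intro ℓ hℓ
      obtain ⟨h1, h2, _⟩ := hDmem ℓ hℓ
      exact ⟨h1, by omega⟩
    · intro i j hij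
      refine disjoint_of_subset_left sdiff_subset (disjoint_of_subset_right sdiff_subset ?_)
      exact Pb_disjoint haC (fun h => hij (Fin.ext h))
    · intro p q hpq
      refine disjoint_of_subset_left sdiff_subset (disjoint_of_subset_right sdiff_subset ?_)
      have hne : (p.1.val, p.2.val) ≠ (q.1.val, q.2.val) := by
        intro h
        apply hpq
        rw [Prod.mk.injEq] at h
        exact Prod.ext (Fin.ext h.1) (Fin.ext h.2)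
      unfold Win
      rcases windows_sep (n := n) (a := a) (c := c) (A := A) (B := B) hn1 hA hB1 hca p.1.isLt
        q.1.isLt (by omega) (by omega) hne with h | h
      · exact PA_disjoint h
      · exact (PA_disjoint h).symm
    · intro i p
      refine disjoint_of_subset_left sdiff_subset (disjoint_of_subset_right sdiff_subset ?_)
      rw [Finset.disjoint_left]
      intro ℓ h1 h2
      rw [mem_Pb] at h1
      unfold Win at h2
      rw [mem_PA] at h2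
      rcases windows_sep0 (n := n) (a := a) (c := c) (A := A) (B := B) (i := p.2.val) hn1 hA hB1 hca
        p.1.isLt (by omega) i.isLt with h | h
      · have : 2 ^ en n a c A B p.1.val p.2.val ≤ 2 ^ (a * 2 ^ i.val) :=
          Nat.pow_le_pow_right (by norm_num) h
        omega
      · have h3 : 2 ^ (a * 2 ^ i.val + c) ≤ 2 ^ st n a c A B p.1.val p.2.val :=
          Nat.pow_le_pow_right (by norm_num) h
        have h4 : C₁ * 2 ^ (a * 2 ^ i.val) ≤ 2 ^ (a * 2 ^ i.val + c) := by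
          rw [pow_add, mul_comm]
          exact Nat.mul_le_mul_left _ hC₁c
        omega
    · intro i
      exact sdiff_disjoint
    · intro i
      exact sdiff_disjoint
  -- sizes
  have hsz : ∀ T ∈ Famj L₀ K₀, ∀ T' ∈ Famj L₁ K₁, (mdj 𝒟 T * prj T') ^ 32 ≤ X := by
    intro T hT T' hT'
    rw [mem_Famj] at hT hT'
    refine le_trans (Nat.pow_le_pow_left ?_ 32) hsize'
    unfold mdj prj
    refine Nat.mul_le_mul (Nat.mul_le_mul ?_ ?_) ?_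
    · calc ∏ ℓ ∈ 𝒟, ℓ ≤ ∏ _ℓ ∈ 𝒟, (C₃ * (8 ^ k) ^ C₃) :=
            prod_le_prod' fun ℓ hℓ => (hDmem ℓ hℓ).2.2
        _ = (C₃ * (8 ^ k) ^ C₃) ^ 𝒟.card := by rw [prod_const]
        _ ≤ _ := Nat.pow_le_pow_right hC3pos hDcard
    · calc ∏ i, ∏ ℓ ∈ T i, ℓ ≤ ∏ i : Fin n, 2 ^ (2 * (a * 2 ^ i.val * K₀ i)) := by
            refine prod_le_prod' fun i _ => ?_
            have := prod_scale_le haC (i := i.val) (T := T i) ((hT i).1.trans sdiff_subset)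
            rwa [(hT i).2] at this
        _ = 2 ^ (2 * ∑ i : Fin n, a * 2 ^ i.val * K₀ i) := by
            rw [prod_pow_eq_pow_sum, mul_sum]
        _ ≤ _ := Nat.pow_le_pow_right (by norm_num) (Nat.mul_le_mul_left _ hSle)
    · calc ∏ p, ∏ ℓ ∈ T' p, ℓ ≤ ∏ p : Fin nh × Fin (n + 1), 2 ^ (eb n a A B nh p.2.val * K₁ p) := by
            refine prod_le_prod' fun p _ => ?_
            calc ∏ ℓ ∈ T' p, ℓ ≤ ∏ _ℓ ∈ T' p, 2 ^ (eb n a A B nh p.2.val) := by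
                  refine prod_le_prod' fun ℓ hℓ => ?_
                  have h1 := (hT' p).1 hℓ
                  rw [hL₁] at h1; unfold L1 at h1; rw [mem_sdiff] at h1
                  have h2 := h1.1
                  unfold Win at h2
                  rw [mem_PA] at h2
                  exact h2.1.2.trans (Nat.pow_le_pow_right (by norm_num) (en_le_eb hB1 hca p.1.isLt))
              _ = _ := by rw [prod_const, ← pow_mul, (hT' p).2]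
        _ = 2 ^ (∑ p : Fin nh × Fin (n + 1), eb n a A B nh p.2.val * K₁ p) := by
            rw [prod_pow_eq_pow_sum]
        _ ≤ _ := Nat.pow_le_pow_right (by norm_num) hS1le
  have hEM0pos : 0 < EMj L₀ K₀ := prod_pos fun i _ => by
    have := hL₀pos i
    positivity
  have hEM1pos : 0 < EMj L₁ K₁ := prod_pos fun i _ => by
    have := hL₁pos i
    positivity
  have hK₀sum : (∑ i, (K₀ i : ℝ)) ≤ x := by
    refine le_trans ?_ hk₀x
    have : ∑ i, K₀ i ≤ k₀ := by omega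
    exact_mod_cast this
  have hK₁sum : (∑ i, (K₁ i : ℝ)) ≤ x := by
    refine le_trans ?_ hKtotx
    have : ∑ i, K₁ i ≤ 𝒟.card + ∑ i, K₀ i + ∑ i, K₁ i := by omega
    exact_mod_cast this
  have hK₀x : ∀ i, (K₀ i : ℝ) ≤ x := fun i => le_trans (by exact_mod_cast hK₀le i) hk₀x
  have hL₀gt : ∀ i : Fin n, ∀ ℓ ∈ L₀ i, 2 ^ (a * 2 ^ i.val) < ℓ := fun i ℓ hℓ => by
    rw [hL₀] at hℓ; unfold L0 at hℓ; rw [mem_sdiff] at hℓ
    exact (hPmem _ ℓ hℓ.1).2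
  have hL₁gt : ∀ p, ∀ ℓ ∈ L₁ p, 2 ^ st n a c A B p.1.val p.2.val < ℓ := fun p ℓ hℓ => by
    rw [hL₁] at hℓ; unfold L1 at hℓ; rw [mem_sdiff] at hℓ
    exact (hWmem _ _ ℓ hℓ.1).2
  have hEM0le := EM_le_of L₀ K₀ (fun i => a * 2 ^ i.val) x c₂ hc₂ F.x10 F.s5 hL₀gt hL₀pos hinvL₀
    (fun i => hratio i.val) hK₀x hK₀sum
  have hEM1le := EM_le_of L₁ K₁ (fun p => st n a c A B p.1.val p.2.val) x c₂ hc₂ F.x10 F.s5 hL₁gt
    hL₁pos hinvL₁ (fun p => hratioW _ _) hK₁x hK₁sum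
  -- the errors
  have hδ0 := delta_le L₀ K₀ (fun i => a * 2 ^ i.val) (3 / x ^ 3) c₂ (by positivity) hinvL₀
  have hδ1 := delta_le L₁ K₁ (fun p => st n a c A B p.1.val p.2.val) (4 / x ^ 2) c₂ (by positivity)
    hinvL₁
  have hδ : ∑ i, (K₀ i : ℝ) * (3 / x ^ 3 / hs (L₀ i)) + ∑ p, (K₁ p : ℝ) * (4 / x ^ 2 / hs (L₁ p))
      ≤ 2 := by
    have e1 : ∑ i, (K₀ i : ℝ) * ((a * 2 ^ i.val : ℕ) : ℝ) ≤ x := by
      refine le_trans ?_ hEx
      have h1 : ∑ i : Fin n, a * 2 ^ i.val * K₀ i ≤ 2 * S + (nh * (2 * S) + W * bb) := by omega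
      have h2 : ∑ i, (K₀ i : ℝ) * ((a * 2 ^ i.val : ℕ) : ℝ)
          = ((∑ i : Fin n, a * 2 ^ i.val * K₀ i : ℕ) : ℝ) := by
        rw [Nat.cast_sum]
        exact sum_congr rfl fun i _ => by push_cast; ring
      rw [h2]
      exact_mod_cast h1
    have e2 : ∑ p : Fin nh × Fin (n + 1), (K₁ p : ℝ) * ((st n a c A B p.1.val p.2.val : ℕ) : ℝ) ≤ x := by
      refine le_trans ?_ hEx
      have h1 : ∑ p : Fin nh × Fin (n + 1), st n a c A B p.1.val p.2.val * K₁ p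
          ≤ 2 * S + (nh * (2 * S) + W * bb) := by
        refine le_trans (sum_le_sum fun p _ => ?_) (hS1le.trans (by omega))
        refine Nat.mul_le_mul_right _ ?_
        have h2 := hsten p
        have h3 := en_le_eb (n := n) (i := p.2.val) (A := A) hB1 hca p.1.isLt
        omega
      have h2 : ∑ p : Fin nh × Fin (n + 1), (K₁ p : ℝ) * ((st n a c A B p.1.val p.2.val : ℕ) : ℝ)
          = ((∑ p : Fin nh × Fin (n + 1), st n a c A B p.1.val p.2.val * K₁ p : ℕ) : ℝ) := by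
        rw [Nat.cast_sum]
        exact sum_congr rfl fun i _ => by push_cast; ring
      rw [h2]
      exact_mod_cast h1
    have f1 : 3 / x ^ 3 * (2 / c₂) * ∑ i, (K₀ i : ℝ) * ((a * 2 ^ i.val : ℕ) : ℝ) ≤ 1 := by
      calc _ ≤ 3 / x ^ 3 * (2 / c₂) * x := mul_le_mul_of_nonneg_left e1 (by positivity)
        _ = 6 / (c₂ * x ^ 2) := by field_simp; ring
        _ ≤ 1 := by
          rw [div_le_one (by positivity)]
          exact j8_s5 F.s5 x1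
    have f2 : 4 / x ^ 2 * (2 / c₂) * ∑ p : Fin nh × Fin (n + 1), (K₁ p : ℝ) *
        ((st n a c A B p.1.val p.2.val : ℕ) : ℝ) ≤ 1 := by
      calc _ ≤ 4 / x ^ 2 * (2 / c₂) * x := mul_le_mul_of_nonneg_left e2 (by positivity)
        _ = 8 / (c₂ * x) := by field_simp; ring
        _ ≤ 1 := by
          rw [div_le_one (by positivity)]
          linarith [F.s5]
    linarith [hδ0, hδ1]
  -- normal numbers
  have hnormal : ∀ u : ℕ, 1 ≤ u → u ≤ X → (∀ m ∈ Exc X a n C₁, ∀ f : ℕ, 24 * u ≠ m * f ^ 2 + 1) →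
      (∀ r : ℕ, a ≤ 2 ^ r → 2 ^ 2 ^ r ≤ X → -2 ≤ cs (PA (2 ^ a) (2 ^ 2 ^ r)) (24 * u - 1)) ∧
      (∀ i, ∑ ℓ ∈ L₀ i, (1 + J ℓ (24 * u - 1)) / ℓ ≤ (1 + 3 / x ^ 3 / hs (L₀ i)) * hs (L₀ i)) ∧
      ∀ p, ∑ ℓ ∈ L₁ p, (1 + J ℓ (24 * u - 1)) / ℓ ≤ (1 + 4 / x ^ 2 / hs (L₁ p)) * hs (L₁ p) := by
    intro u hu huX hno
    have hblk := hnorm' u hu huX hno
    have hD4 : (𝒟.card : ℝ) / 2 ^ a ≤ 1 / x ^ 3 := by
      refine le_trans ?_ F.s4
      calc (𝒟.card : ℝ) / 2 ^ a ≤ CD₁ / 2 ^ a :=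
            div_le_div_of_nonneg_right hDc (by positivity)
        _ ≤ CD₁ / x ^ 4 := div_le_div_of_nonneg_left hCDpos (by positivity)
            ((pow_le_pow_right₀ x1 (by norm_num)).trans F.M)
    have hD4' : ∀ α : ℕ, a ≤ α → (𝒟.card : ℝ) / 2 ^ α ≤ 1 / x ^ 3 := fun α hα =>
      le_trans (div_le_div_of_nonneg_left (Nat.cast_nonneg _) (by positivity)
        (pow_le_pow_right₀ (by norm_num) hα)) hD4
    have hx3 : (1 : ℝ) / x ^ 3 ≤ 1 / 10 * (1 / x ^ 2) := by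
      rw [div_mul_div_comm, mul_one, div_le_div_iff₀ (by positivity) (by positivity)]
      exact j8_cube F.x10
    refine ⟨fun r har hrX => ?_, fun i => ?_, fun p => ?_⟩
    · have h1 := window_normal hblk (α := a) (β := 2 ^ r) le_rfl har (by
        have := Nat.le_log_of_pow_le (by norm_num) hrX
        omega)
      have h2 : ((2 ^ r - a : ℕ) : ℝ) ≤ 3 / 2 * x := by
        have h4 : 2 ^ r ≤ Nat.log 2 X := Nat.le_log_of_pow_le (by norm_num) hrX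
        have h6 : ((2 ^ r - a : ℕ) : ℝ) ≤ (Nat.log 2 X : ℝ) := by
          exact_mod_cast (by omega : 2 ^ r - a ≤ Nat.log 2 X)
        linarith
      have h3 : ((2 ^ r - a : ℕ) : ℝ) * (2 / x ^ 3) ≤ 2 := by
        calc _ ≤ 3 / 2 * x * (2 / x ^ 3) := mul_le_mul_of_nonneg_right h2 (by positivity)
          _ = 3 / x ^ 2 := by field_simp
          _ ≤ 2 := by
            rw [div_le_iff₀ (by positivity)]
            exact j8_sq F.x10
      exact (abs_le.mp (h1.trans h3)).1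
    · refine win_norm (fun ℓ hℓ => hPmem _ ℓ hℓ) ?_ (hL₀pos i)
      have h1 : |cs (Pb a C₁ i.val) (24 * u - 1)| ≤ 2 / x ^ 3 := by
        apply hblk
        unfold OC.Blk
        rw [mem_union, mem_image, mem_image]
        right
        exact ⟨i.val, mem_range.mpr i.isLt, rfl⟩
      have h2 := hD4' (a * 2 ^ i.val) (hb _)
      have h3 : (3 : ℝ) / x ^ 3 = 2 / x ^ 3 + 1 / x ^ 3 := by ring
      rw [h3]
      exact add_le_add h1 h2
    · refine win_norm (fun ℓ hℓ => hWmem _ _ ℓ hℓ) ?_ (hL₁pos p)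
      have h1 := window_normal hblk (α := st n a c A B p.1.val p.2.val)
        (β := en n a c A B p.1.val p.2.val) (hst p) (by have := hsten p; omega)
        (by have := henlog p; omega)
      have h2 : ((en n a c A B p.1.val p.2.val - st n a c A B p.1.val p.2.val : ℕ) : ℝ)
          ≤ 3 / 2 * x := by
        have h4 := henlog p
        have h6 : ((en n a c A B p.1.val p.2.val - st n a c A B p.1.val p.2.val : ℕ) : ℝ)
            ≤ (Nat.log 2 X : ℝ) := by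
          exact_mod_cast (by omega :
            en n a c A B p.1.val p.2.val - st n a c A B p.1.val p.2.val ≤ Nat.log 2 X)
        linarith
      have h3 : ((en n a c A B p.1.val p.2.val - st n a c A B p.1.val p.2.val : ℕ) : ℝ) * (2 / x ^ 3)
          ≤ 3 / x ^ 2 := by
        calc _ ≤ 3 / 2 * x * (2 / x ^ 3) := mul_le_mul_of_nonneg_right h2 (by positivity)
          _ = 3 / x ^ 2 := by field_simp
      have h4 := hD4' (st n a c A B p.1.val p.2.val) (hst p)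
      have h5 : (4 : ℝ) / x ^ 2 = 3 / x ^ 2 + 1 / x ^ 2 := by ring
      have h6 : (0 : ℝ) ≤ 1 / x ^ 2 := by positivity
      unfold Win
      rw [h5]
      linarith [h1.trans h3]
  have hK''ge : k₀ ≤ 2 * K'' 0 := by rw [hK''0]; omega
  exact ⟨hsys, hcard, hK0, hK''ge, hcard1h, hKtot, hKtotx, hsz, hL₀pos, hL₁pos, hinvL₁, hEM0le,
    hEM1le, hδ, henlog, hnormal⟩

end Pool.Agent.helper7.JT
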