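import Mathlib
import Pool.Agent.helper7.JT.J8
import Pool.Agent.helper52.JT.NC
import Pool.Agent.helper61.JT.EXC
import Pool.Agent.helper71.JT.LW

/-!
# JT 9: existence of the data
-/

set_option autoImplicit false

open Finset

namespace Pool.Agent.helper7.JT

open OC (J hs cs PA P5 Exc Blk Harm Pb mem_Pb mem_Harm block_lower harm_last harm_count forced mem_Exc
  sum_fin sum_fin_nat hs_nonneg ss5_natlog sum_sparse Pb_disjoint prod_scale_le)

open Classical in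
/-- candidate exceptional moduli at the scale `i` -/
noncomputable def Aset (E : Finset ℕ) (P : ℕ → Finset ℕ) (k i : ℕ) : Finset ℕ :=
  if i = 0 then E.filter (fun m => m ≤ 8 ^ k) else HarmW (P (i - 1)) k

/-- the first scale where `m` is not harmful -/
lemma small_gen {E 𝒟 : Finset ℕ} {P : ℕ → Finset ℕ} {α : ℕ → ℕ} {k n CD : ℕ} {x c₂ : ℝ}
    (hE : ∀ m ∈ E, Squarefree m ∧ m % 24 = 23 ∧ 1 ≤ m)
    (hP : ∀ i < n, ∀ ℓ ∈ P i, ℓ.Prime ∧ 2 ^ α i < ℓ) (hα : ∀ i, 1 ≤ α i)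
    (hlow : ∀ i < n, c₂ / (α i : ℝ) ≤ hs (P i)) (hr : ∀ i, (α i : ℝ) / 2 ^ α i ≤ 1 / x ^ 5)
    (hs2 : (3 * x + CD) * (1 / x ^ 5) ≤ c₂ / 50) (hx : 0 < x)
    (hD : 𝒟.card ≤ CD) (hkx : (k : ℝ) ≤ x) {m : ℕ} (hm : m ∈ E) (hmk : m ≤ 8 ^ k)
    (hn : 1 ≤ n) (hlast : m ∉ HarmW (P (n - 1)) k) :
    ∃ i, i < n ∧ m ∈ Aset E P k i ∧
      hs ((P i \ 𝒟).filter fun ℓ => J ℓ m ≠ -1) ≤ 87 / 100 * hs (P i \ 𝒟) := by
  classical
  obtain ⟨hsq, h24, hm1⟩ := hE m hm
  have hex : ∃ i, i < n ∧ m ∉ HarmW (P i) k := ⟨n - 1, by omega, hlast⟩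
  obtain ⟨hin, hiH⟩ := Nat.find_spec hex
  have hmin := fun j (hj : j < Nat.find hex) => Nat.find_min hex hj
  set i := Nat.find hex with hi
  refine ⟨i, hin, ?_, ?_⟩
  · unfold Aset
    by_cases h0 : i = 0
    · rw [if_pos h0]; exact mem_filter.mpr ⟨hm, hmk⟩
    · rw [if_neg h0]
      have := hmin (i - 1) (by omega)
      push Not at this
      exact this (by omega)
  · have hnh : |cs (P i) m| < 7 / 10 * hs (P i) := by
      by_contra hge
      push Not at hge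
      exact hiH (mem_HarmW.mpr ⟨⟨hm1, hmk⟩, hsq, h24, hge⟩)
    have e7 : Nat.log 2 m ≤ 3 * k := by
      have : m ≤ 2 ^ (3 * k) := by rw [pow_mul]; exact hmk
      exact (Nat.log_mono_right this).trans (by rw [Nat.log_pow (by norm_num)])
    have e7' : (Nat.log 2 m : ℝ) ≤ 3 * x := by
      have : (Nat.log 2 m : ℝ) ≤ 3 * k := by exact_mod_cast e7
      linarith
    refine nonharm_window (hα i) (hP i hin) (by omega) hnh (hlow i hin) ?_
    refine le_trans ?_ hs2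
    refine mul_le_mul ?_ (hr i) (by positivity) (by positivity)
    have : (𝒟.card : ℝ) ≤ CD := by exact_mod_cast hD
    linarith

lemma pow_le_aux {C₄ D : ℝ} {k e e' : ℕ} (h1 : 1 ≤ D * (k : ℝ) ^ 2) (hD : D ≤ C₄) (he : e ≤ e') :
    (D * (k : ℝ) ^ 2) ^ e ≤ (C₄ * (k : ℝ) ^ 2) ^ e' := by
  calc (D * (k : ℝ) ^ 2) ^ e ≤ (D * (k : ℝ) ^ 2) ^ e' := pow_le_pow_right₀ h1 he
    _ ≤ _ := pow_le_pow_left₀ (by linarith)
        (mul_le_mul_of_nonneg_right hD (by positivity)) e'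

lemma A_sum_gen {E : Finset ℕ} {P : ℕ → Finset ℕ} {k n k₀ : ℕ} {Kf K' : ℕ → ℕ} {R0 ε₁ : ℝ} {R : ℕ → ℝ}
    (h0 : ((E.filter (fun m => m ≤ 8 ^ k)).card : ℝ) ≤ R0)
    (hR : ∀ i ∈ Ico 1 n, ((HarmW (P (i - 1)) k).card : ℝ) ≤ R i)
    (hK0 : k₀ ≤ 2 * K' 0) (hKi : ∀ i ∈ Ico 1 n, K' i = Kf i)
    (hP2 : ∀ K₀ : ℕ, k₀ ≤ 2 * K₀ → R0 * (87 / 100 : ℝ) ^ K₀ + ∑ i ∈ Ico 1 n, R i * (87 / 100 : ℝ) ^ Kf i
      ≤ ε₁) :
    ((Aset E P k 0).card : ℝ) * (87 / 100) ^ K' 0 + ∑ i ∈ Ico 1 n,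
      ((Aset E P k i).card : ℝ) * (87 / 100) ^ K' i ≤ ε₁ := by
  refine le_trans (add_le_add ?_ (sum_le_sum fun i hi => ?_)) (hP2 (K' 0) hK0)
  · refine mul_le_mul_of_nonneg_right ?_ (by positivity)
    have e3 : Aset E P k 0 = E.filter (fun m => m ≤ 8 ^ k) := by unfold Aset; rw [if_pos rfl]
    rw [e3]
    exact h0
  · rw [hKi i hi]
    refine mul_le_mul_of_nonneg_right ?_ (by positivity)
    have hi' := mem_Ico.mp hi
    have e3 : Aset E P k i = HarmW (P (i - 1)) k := by unfold Aset; rw [if_neg (by omega)]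
    rw [e3]
    exact hR i hi

lemma Harm_eq (a C₁ k i : ℕ) : Harm a C₁ k i = HarmW (Pb a C₁ i) k := by
  ext m
  rw [mem_Harm, mem_HarmW]

open Classical in
/-- candidates for the other shifts -/
noncomputable def A1f (E : Finset ℕ) (n a c A B k h i : ℕ) : Finset ℕ :=
  if i < n then Aset E (fun j => Win n a c A B h j) k i else HarmW (Win n a c A B h (n - 1)) k

/-- loss for the other shifts -/
noncomputable def lamf (n : ℕ) (ρ : ℝ) (i : ℕ) : ℝ := if i < n then 87 / 100 else 1 - ρ / 2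

lemma Win_short {n a c A B h i : ℕ} (hi : i < n) : Win n a c A B h i =
    PA (2 ^ (a * 2 ^ i + c * (h + 1))) (2 ^ (a * 2 ^ i + c * (h + 1) + c)) := by
  unfold Win
  rw [st_short hi, en_short hi]
  congr 2
  ring

/-- sum over the scales of one other shift -/
lemma sum_fin_succ_real (n : ℕ) (hn : 1 ≤ n) (g : ℕ → ℝ) :
    ∑ i : Fin (n + 1), g i.val = g 0 + ∑ i ∈ Ico 1 n, g i + g n := by
  rw [Fin.sum_univ_eq_sum_range g (n + 1), sum_range_succ, Finset.range_eq_Ico,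
    Finset.sum_eq_sum_Ico_succ_bot hn]

lemma j9_nonneg (N₀ M : ℕ) (y x B θ : ℝ) (hB : 0 ≤ B) :
    0 ≤ (N₀ : ℝ) + 1 + M * (√y * (8 * x ^ 10 * B ^ θ)) := by
  positivity

theorem jsetup (nh s N₀ : ℕ) (ε : ℝ) (hε : 0 < ε) : ∃ (CD C₁ : ℕ) (c₀ : ℝ), 0 < c₀ ∧
    ∃ X₀ : ℕ, ∀ X : ℕ, X₀ ≤ X → Nonempty (JData X nh s N₀ CD C₁ c₀ ε) := by
  classical
  obtain ⟨C₁, c₂, b₀, hC₁, hc₂, hblock⟩ := block_lower
  set c := C₁ with hcdef
  have hC₁c : C₁ ≤ 2 ^ c := Nat.lt_two_pow_self.le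
  obtain ⟨CD₁, hlastH⟩ := harm_last C₁ c₂ hc₂
  obtain ⟨CD₂, hlastW⟩ := harm_last_gen (2 ^ c) c₂ hc₂
  obtain ⟨A, B, b₁, ρ, hA, hB, hρ, hρ1, hlong⟩ := longwin
  obtain ⟨C₃', hforced⟩ := forced 1 le_rfl
  obtain ⟨C₄a, hC₄a, hharm⟩ := harm_count C₁ c₂ hc₂
  obtain ⟨C₄b, hC₄b, hharmW⟩ := harm_count (2 ^ c) c₂ hc₂
  set M := nh + 1 with hM
  have hM1 : 1 ≤ M := by omega
  set ε₁ := ε / (2 * M) with hε₁
  have hM0 : (0 : ℝ) < M := by exact_mod_cast hM1
  have hε₁pos : 0 < ε₁ := by positivity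
  -- number of primes in the long windows
  obtain ⟨Cn, hCn⟩ : ∃ Cn : ℕ, (CD₂ : ℝ) * (1 - ρ / 2) ^ Cn ≤ ε₁ := by
    obtain ⟨N, hN⟩ := exists_pow_lt_of_lt_one (show 0 < ε₁ / (CD₂ + 1) by positivity)
      (show 1 - ρ / 2 < 1 by linarith)
    refine ⟨N, ?_⟩
    rw [lt_div_iff₀ (by positivity)] at hN
    have : 0 ≤ (1 - ρ / 2) ^ N := pow_nonneg (by linarith) _
    nlinarith
  set C₄ := C₄a + 4 * C₄b with hC₄
  have hC₄1 : 1 ≤ C₄ := by linarith
  set W := nh * ((A + 1) * B ^ nh * Cn) + (A + 1) * B ^ nh + 2 + nh * Cn with hW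
  set C₃ := max 1 C₃' with hC₃
  obtain ⟨c₀, Ca, hc₀, X₁, hnum⟩ := num_choice2 M CD₁ C₃ s N₀ W C₄ ε₁ hM1 hC₄1 hε₁pos
  obtain ⟨X₂, hexc⟩ := exc_total2 C₁ M hM1
  obtain ⟨X₃, hnorm⟩ := normal_blk C₁
  obtain ⟨X₄, hfacts⟩ := jfacts M Ca (b₀ + b₁ + c * (nh + 1)) CD₁ hM1 c₂ ρ hc₂ hρ hρ1
  refine ⟨CD₁ + Ca + nh + 3, C₁, c₀, hc₀, max (max X₁ X₂) (max (max X₃ X₄) 2), fun X hX => ?_⟩
  have hX₁ : X₁ ≤ X := by omega
  have hX₂ : X₂ ≤ X := by omega
  have hX₃ : X₃ ≤ X := by omega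
  have hX₄ : X₄ ≤ X := by omega
  have hX2 : 2 ≤ X := by omega
  clear hX
  obtain ⟨a, n, μ, Kf, h2μ, hμge, hμle, hage, hale, hn2, hnL, hlast, hlast2, hsum, hsize, hP2, hP1⟩ :=
    hnum X hX₁
  have F := hfacts X hX₄ a hage hale
  have hexc' := hexc X hX₂ a n hage hnL
  have hnorm' := fun u => hnorm X hX₃ a n u F.M0
  clear hexc hnorm hfacts hnum hX₁ hX₂ hX₃ hX₄
  have ha1 := F.a1
  have hab0 : b₀ ≤ a := by have := F.ab; omega
  have hab1 : b₁ ≤ a := by have := F.ab; omega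
  have hca : c * (nh + 1) ≤ a := by have := F.ab; omega
  have hca1 : c ≤ a := le_trans (Nat.le_mul_of_pos_right _ (by omega)) hca
  have hn1 : 1 ≤ n := by omega
  have hB1 : 1 ≤ B := by omega
  set k := M * 2 ^ (μ - 1) with hk
  have hk11 : 1 ≤ k := Nat.one_le_iff_ne_zero.mpr (by positivity)
  -- forced primes
  have hb1 : ∀ i, 1 ≤ a * 2 ^ i := fun i => ha1.trans (Nat.le_mul_of_pos_right _ (by positivity))
  have hPb : ∀ i, c₂ / ((a * 2 ^ i : ℕ) : ℝ) ≤ hs (Pb a C₁ i) := fun i =>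
    hblock (a * 2 ^ i) (hab0.trans (Nat.le_mul_of_pos_right _ (by positivity)))
  have hchoose : ∀ m ∈ Harm a C₁ k (n - 1), ∃ ℓ : ℕ, ℓ.Prime ∧ ℓ % 8 = 5 ∧ ¬ ℓ ∣ 1 ∧
      jacobiSym (ℓ : ℤ) m = -1 ∧ ℓ ≤ C₃' * m ^ C₃' := fun m hm => by
    rw [mem_Harm] at hm
    exact hforced m hm.2.1 (by omega)
  choose! Fp hFp using hchoose
  set 𝒟 := (Harm a C₁ k (n - 1)).image Fp with h𝒟
  have hDcard : 𝒟.card ≤ CD₁ := by
    refine card_image_le.trans ?_
    exact hlastH a k (n - 1) (hb1 _) hlast (hPb _)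
  have hDmem : ∀ ℓ ∈ 𝒟, ℓ.Prime ∧ ℓ % 8 = 5 ∧ ℓ ≤ C₃ * (8 ^ k) ^ C₃ := by
    intro ℓ hℓ
    rw [h𝒟, mem_image] at hℓ
    obtain ⟨m, hm, rfl⟩ := hℓ
    obtain ⟨h1, h2, _, _, h5⟩ := hFp m hm
    refine ⟨h1, h2, h5.trans ?_⟩
    rw [mem_Harm] at hm
    calc C₃' * m ^ C₃' ≤ C₃ * (8 ^ k) ^ C₃' :=
          Nat.mul_le_mul (le_max_right _ _) (Nat.pow_le_pow_left hm.1.2 _)
      _ ≤ C₃ * (8 ^ k) ^ C₃ :=
          Nat.mul_le_mul_left _ (Nat.pow_le_pow_right (by positivity) (le_max_right _ _))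
  have hDJ : ∀ m ∈ Harm a C₁ k (n - 1), ∃ ℓ ∈ 𝒟, J ℓ m = -1 := fun m hm => by
    refine ⟨Fp m, mem_image_of_mem _ hm, ?_⟩
    unfold J
    rw [(hFp m hm).2.2.2.1]
    norm_num
  have P := jstage1 (s := s) (Kf := Kf) (b₀ := b₀) (Cn := Cn) (c₂ := c₂) hc₂ hX2 hblock hC₁c hA hB
    (le_max_left 1 C₃') hW h2μ hμle hn2 hsum hsize F hab0 hca hnorm' hDcard hDmem
  set x := Real.log X with hx
  have x10 := F.x10
  have x0 : 0 < x := by linarith
  have x1 : 1 ≤ x := by linarith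
  set E := Exc X a n C₁ with hE
  set k₀ := 2 ^ (μ - 1) with hk₀
  have hEmem : ∀ m ∈ E, Squarefree m ∧ m % 24 = 23 ∧ 1 ≤ m := fun m hm => mem_Exc hm
  have hkx : (k : ℝ) ≤ x := by
    refine le_trans ?_ hμle
    have h1 : (k₀ : ℝ) ≤ 2 ^ μ := by
      rw [hk₀]; push_cast
      exact pow_le_pow_right₀ (by norm_num) (by omega)
    have h2 : (0 : ℝ) ≤ W := Nat.cast_nonneg _
    have h3 : (0 : ℝ) ≤ k₀ := Nat.cast_nonneg _
    have h4 := mul_le_mul_of_nonneg_left h1 hM0.le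
    have h5 : (M : ℝ) * 2 ^ μ ≤ (M + W + 1) * 2 ^ μ :=
      mul_le_mul_of_nonneg_right (by linarith) (pow_nonneg (by norm_num) _)
    rw [hk, Nat.cast_mul]
    exact h4.trans h5
  have hkc : (k : ℝ) = (M : ℝ) * 2 ^ (μ - 1) := by rw [hk, hk₀]; push_cast; ring
  -- constants at the scales
  have hscale : ∀ i ∈ Ico 1 n, a * 2 ^ (i - 1) + a * 2 ^ (i - 1) ≤ a * 2 ^ (n - 1) := by
    intro i hi
    rw [mem_Ico] at hi
    calc a * 2 ^ (i - 1) + a * 2 ^ (i - 1) = a * 2 ^ (i - 1 + 1) := by rw [pow_succ]; ring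
      _ ≤ _ := Nat.mul_le_mul_left _ (Nat.pow_le_pow_right (by norm_num) (by omega))
  have hPmem : ∀ i < n, ∀ ℓ ∈ Pb a C₁ i, ℓ.Prime ∧ 2 ^ (a * 2 ^ i) < ℓ := fun i _ ℓ hℓ => by
    rw [mem_Pb] at hℓ; exact ⟨hℓ.2.1, hℓ.1.1⟩
  have hWmem : ∀ h i : ℕ, ∀ ℓ ∈ Win n a c A B h i, ℓ.Prime ∧ 2 ^ st n a c A B h i < ℓ :=
    fun h i ℓ hℓ => by
      unfold Win at hℓ
      rw [mem_PA] at hℓ
      exact ⟨hℓ.2, hℓ.1.1⟩
  have hWlow : ∀ h i : ℕ, c₂ / ((st n a c A B h i : ℕ) : ℝ) ≤ hs (Win n a c A B h i) := by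
    intro h i
    have h1 : a ≤ st n a c A B h i := st_ge hn1 hB1
    exact win_low (hblock _ (hab0.trans h1)) hC₁c (st_add_le_en hB hca1 hn1)
  have hst1 : ∀ h i : ℕ, 1 ≤ st n a c A B h i := fun h i => ha1.trans (st_ge hn1 hB1)
  have hratio : ∀ i : ℕ, ((a * 2 ^ i : ℕ) : ℝ) / 2 ^ (a * 2 ^ i) ≤ 1 / x ^ 5 := fun i =>
    F.ratio (a * 2 ^ i) (Nat.le_mul_of_pos_right _ (by positivity))
  have hratioW : ∀ h i : ℕ, ((st n a c A B h i : ℕ) : ℝ) / 2 ^ st n a c A B h i ≤ 1 / x ^ 5 :=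
    fun h i => F.ratio _ (st_ge hn1 hB1)
  -- the counts
  set θ : ℝ := 14 / (1600 * M) with hθ
  set R : ℕ → ℝ := fun i => 10 * (C₄ * (M * 2 ^ (μ - 1)) ^ 2) ^
    (12 * (M * 2 ^ (μ - 1)) / (a * 2 ^ (i - 1)) + 1) with hR
  have hE0 : ((E.filter (fun m => m ≤ 8 ^ k)).card : ℝ) ≤ x ^ 10 * ((8 : ℝ) ^ (M * 2 ^ (μ - 1))) ^ θ := by
    have := hexc' (8 ^ k)
    push_cast at this
    exact this
  have hcount0 : ∀ i ∈ Ico 1 n, ((HarmW (Pb a C₁ (i - 1)) k).card : ℝ) ≤ R i := by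
    intro i hi
    have h1 := hscale i hi
    have e4 := hharm (a * 2 ^ (i - 1)) k (Pb a C₁ (i - 1)) (HarmW (Pb a C₁ (i - 1)) k) (hb1 _)
      (by omega) (fun ℓ hℓ => by
        rw [mem_Pb] at hℓ; exact ⟨hℓ.2.1, hℓ.1.1, hℓ.1.2⟩) (hPb _) (fun m hm => by
        rw [mem_HarmW] at hm
        exact ⟨hm.2.1, Nat.odd_iff.mpr (by omega), by omega, hm.1.2, hm.2.2.2⟩)
    refine e4.trans ?_
    rw [hR]
    simp only
    rw [← hkc]
    refine mul_le_mul_of_nonneg_left ?_ (by norm_num)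
    have hk1r : (1 : ℝ) ≤ (k : ℝ) ^ 2 := one_le_pow₀ (by exact_mod_cast hk11)
    refine pow_le_aux (one_le_mul_of_one_le_of_one_le hC₄a hk1r) (by linarith) ?_
    refine Nat.add_le_add_right (Nat.div_le_div_right ?_) 1
    show 6 * k ≤ 12 * k
    omega
  have hcountW : ∀ h : ℕ, h < nh → ∀ i ∈ Ico 1 n, ((HarmW (Win n a c A B h (i - 1)) k).card : ℝ) ≤ R i := by
    intro h hh i hi
    have h1 := hscale i hi
    have hi' := mem_Ico.mp hi
    have hc2 : c * (h + 1) ≤ a := le_trans (Nat.mul_le_mul_left _ (by omega)) hca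
    have h2 : a ≤ a * 2 ^ (i - 1) := Nat.le_mul_of_pos_right _ (by positivity)
    have hst := st_short (n := n) (a := a) (c := c) (A := A) (B := B) (h := h) (i := i - 1) (by omega)
    have e4 := hharmW (st n a c A B h (i - 1)) (2 * k) (Win n a c A B h (i - 1))
      (HarmW (Win n a c A B h (i - 1)) k) (hst1 _ _)
      (by rw [hst]; omega) (fun ℓ hℓ => by
        rw [Win_short (by omega), mem_PA] at hℓ
        rw [hst]
        refine ⟨hℓ.2, hℓ.1.1, hℓ.1.2.trans (le_of_eq ?_)⟩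
        rw [pow_add, mul_comm]) (hWlow _ _) (fun m hm => by
        rw [mem_HarmW] at hm
        refine ⟨hm.2.1, Nat.odd_iff.mpr (by omega), by omega, hm.1.2.trans ?_, hm.2.2.2⟩
        exact Nat.pow_le_pow_right (by norm_num) (by omega))
    refine e4.trans ?_
    rw [hR]
    simp only
    rw [← hkc]
    refine mul_le_mul_of_nonneg_left ?_ (by norm_num)
    have hk1r : (1 : ℝ) ≤ (k : ℝ) ^ 2 := one_le_pow₀ (by exact_mod_cast hk11)
    have e5 : C₄b * ((2 * k : ℕ) : ℝ) ^ 2 = (4 * C₄b) * (k : ℝ) ^ 2 := by push_cast; ring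
    rw [e5]
    refine pow_le_aux (one_le_mul_of_one_le_of_one_le (by linarith) hk1r) (by linarith) ?_
    refine Nat.add_le_add_right ?_ 1
    show 6 * (2 * k) / st n a c A B h (i - 1) ≤ 12 * k / (a * 2 ^ (i - 1))
    rw [show 6 * (2 * k) = 12 * k by ring]
    refine Nat.div_le_div_left ?_ (hb1 _)
    rw [hst]; omega
  have hlastWc : ∀ h : ℕ, ((HarmW (Win n a c A B h (n - 1)) k).card : ℝ) ≤ CD₂ := by
    intro h
    have hst := st_short (n := n) (a := a) (c := c) (A := A) (B := B) (h := h) (i := n - 1) (by omega)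
    have := hlastW (Win n a c A B h (n - 1)) k (st n a c A B h (n - 1)) (hst1 _ _)
      (by rw [hst]; omega) (fun ℓ hℓ => by
        rw [Win_short (by omega), mem_PA] at hℓ
        rw [hst]
        refine ⟨hℓ.2, hℓ.1.1, hℓ.1.2.trans (le_of_eq ?_)⟩
        rw [pow_add, mul_comm]) (hWlow _ _)
    exact_mod_cast this
  have hAsum0 : ∑ i : Fin n, ((Aset E (fun i => Pb a C₁ i) k i.val).card : ℝ) *
      (87 / 100) ^ K0 k₀ s 𝒟.card n Kf i ≤ ε₁ := by
    have e1 := sum_fin n hn1 (fun i => ((Aset E (fun i => Pb a C₁ i) k i).card : ℝ) *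
      (87 / 100) ^ K0f k₀ s 𝒟.card n Kf i)
    refine (le_of_eq e1).trans ?_
    refine A_sum_gen (R := R) hE0 hcount0 P.K0_ge (fun i hi => ?_) hP2
    rw [mem_Ico] at hi
    unfold K0f
    rw [if_neg (by omega)]
  have hAsum1 : ∑ p : Fin nh × Fin (n + 1), ((A1f E n a c A B k p.1.val p.2.val).card : ℝ) *
      (lamf n ρ p.2.val) ^ K1 k₀ Cn n nh Kf p ≤ nh * (ε₁ + ε₁) := by
    rw [Fintype.sum_prod_type]
    have e1 : ∀ h : Fin nh, ∑ i : Fin (n + 1), ((A1f E n a c A B k h.val i.val).card : ℝ) *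
        (lamf n ρ i.val) ^ K1 k₀ Cn n nh Kf (h, i) ≤ ε₁ + ε₁ := by
      intro h
      have e2 := sum_fin_succ_real n hn1 (fun i => ((A1f E n a c A B k h.val i).card : ℝ) *
        (lamf n ρ i) ^ K1f k₀ Cn n Kf i)
      refine (le_of_eq e2).trans (add_le_add ?_ ?_)
      · have e3 : ((A1f E n a c A B k h.val 0).card : ℝ) * (lamf n ρ 0) ^ K1f k₀ Cn n Kf 0
            + ∑ i ∈ Ico 1 n, ((A1f E n a c A B k h.val i).card : ℝ) * (lamf n ρ i) ^ K1f k₀ Cn n Kf i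
            = ((Aset E (fun j => Win n a c A B h.val j) k 0).card : ℝ) * (87 / 100) ^ K1f k₀ Cn n Kf 0
            + ∑ i ∈ Ico 1 n, ((Aset E (fun j => Win n a c A B h.val j) k i).card : ℝ) *
              (87 / 100) ^ K1f k₀ Cn n Kf i := by
          congr 1
          · unfold A1f lamf
            rw [if_pos (by omega), if_pos (by omega)]
          · refine sum_congr rfl fun i hi => ?_
            rw [mem_Ico] at hi
            unfold A1f lamf
            rw [if_pos (by omega), if_pos (by omega)]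
        rw [e3]
        refine A_sum_gen (R := R) hE0 (hcountW h.val h.isLt) P.K1_ge (fun i hi => ?_) hP2
        rw [mem_Ico] at hi
        unfold K1f
        rw [if_neg (by omega), if_pos hi.2]
      · have e3 : K1f k₀ Cn n Kf n = Cn := by
          unfold K1f
          rw [if_neg (by omega), if_neg (by omega)]
        have e4 : lamf n ρ n = 1 - ρ / 2 := by unfold lamf; rw [if_neg (by omega)]
        have e5 : A1f E n a c A B k h.val n = HarmW (Win n a c A B h.val (n - 1)) k := by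
          unfold A1f; rw [if_neg (by omega)]
        simp only [e3, e4, e5]
        refine le_trans ?_ hCn
        exact mul_le_mul_of_nonneg_right (hlastWc h.val) (pow_nonneg (by linarith) _)
    refine (sum_le_sum fun h _ => e1 h).trans ?_
    rw [sum_const, card_univ, Fintype.card_fin, nsmul_eq_mul]
  have hAsum : ∑ i : Fin n, ((Aset E (fun i => Pb a C₁ i) k i.val).card : ℝ) *
      (87 / 100) ^ K0 k₀ s 𝒟.card n Kf i + ∑ p : Fin nh × Fin (n + 1),
      ((A1f E n a c A B k p.1.val p.2.val).card : ℝ) * (lamf n ρ p.2.val) ^ K1 k₀ Cn n nh Kf p ≤ ε := by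
    refine (add_le_add hAsum0 hAsum1).trans ?_
    have h1 : ε₁ + nh * (ε₁ + ε₁) ≤ 2 * M * ε₁ := by
      have h2 : (M : ℝ) = nh + 1 := by rw [hM]; push_cast; ring
      rw [h2]
      linarith
    refine h1.trans (le_of_eq ?_)
    rw [hε₁]
    field_simp
  -- small moduli
  have hsmall0 : ∀ m ∈ E, m ≤ 8 ^ k → (∃ ℓ ∈ 𝒟, J ℓ m = -1) ∨
      ∃ i : Fin n, m ∈ Aset E (fun i => Pb a C₁ i) k i.val ∧
        hs ((L0 a C₁ n 𝒟 i).filter fun ℓ => J ℓ m ≠ -1) ≤ 87 / 100 * hs (L0 a C₁ n 𝒟 i) := by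
    intro m hm hmk
    by_cases h : m ∈ Harm a C₁ k (n - 1)
    · exact Or.inl (hDJ m h)
    · right
      rw [Harm_eq] at h
      obtain ⟨i, hi, h1, h2⟩ := small_gen (P := fun i => Pb a C₁ i) (α := fun i => a * 2 ^ i) hEmem
        hPmem hb1 (fun i _ => hPb i) hratio F.s2 x0 hDcard hkx hm hmk hn1 h
      exact ⟨⟨i, hi⟩, h1, h2⟩
  have hsmall1 : ∀ m ∈ E, m ≤ 8 ^ k → ∀ h : Fin nh, ∃ i : Fin (n + 1),
      m ∈ A1f E n a c A B k h.val i.val ∧
        hs ((L1 a n c A B nh 𝒟 (h, i)).filter fun ℓ => J ℓ m ≠ -1) ≤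
          lamf n ρ i.val * hs (L1 a n c A B nh 𝒟 (h, i)) := by
    intro m hm hmk h
    by_cases hH : m ∈ HarmW (Win n a c A B h.val (n - 1)) k
    · refine ⟨⟨n, by omega⟩, ?_, ?_⟩
      · unfold A1f
        rw [if_neg (by simp)]
        exact hH
      · have hst := st_long (n := n) (a := a) (c := c) (A := A) (B := B) (h := h.val) (i := n) (by omega)
        have hen := en_long (n := n) (a := a) (c := c) (A := A) (B := B) (h := h.val) (i := n) (by omega)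
        have e4 : lamf n ρ n = 1 - ρ / 2 := by unfold lamf; rw [if_neg (by omega)]
        show hs ((Win n a c A B h.val n \ 𝒟).filter fun ℓ => J ℓ m ≠ -1) ≤
          lamf n ρ n * hs (Win n a c A B h.val n \ 𝒟)
        rw [e4]
        have hlong1 := hlong m (st n a c A B h.val n) (hab1.trans (st_ge hn1 hB1)) (hEmem m hm).2.1
          (hEmem m hm).1 (by
            calc m ^ A ≤ (8 ^ k) ^ A := Nat.pow_le_pow_left hmk A
              _ = 2 ^ (3 * k * A) := by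
                  have h8 : (8 : ℕ) ^ k = 2 ^ (3 * k) := by rw [pow_mul 2 3 k]; norm_num
                  rw [h8, ← pow_mul]
              _ ≤ _ := by
                  refine Nat.pow_le_pow_right (by norm_num) ?_
                  rw [hst]
                  have h2 : 1 ≤ B ^ h.val := Nat.one_le_pow _ _ hB1
                  calc 3 * k * A ≤ (12 * k) * (A + 1) := Nat.mul_le_mul (by omega) (by omega)
                    _ ≤ (a * 2 ^ (n - 1)) * (A + 1) := Nat.mul_le_mul_right _ hlast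
                    _ = (A + 1) * 1 * (a * 2 ^ (n - 1)) := by ring
                    _ ≤ _ := Nat.mul_le_mul_right _ (Nat.mul_le_mul_left _ h2))
        have e6 : PA (2 ^ st n a c A B h.val n) (2 ^ (B * st n a c A B h.val n))
            = Win n a c A B h.val n := by
          unfold Win
          rw [hst, hen]
        rw [e6] at hlong1
        refine long_sdiff (hst1 _ _) (hWmem _ _) hρ hρ1 hlong1 (hWlow _ _) ?_
        refine le_trans ?_ F.s3
        exact mul_le_mul (by exact_mod_cast hDcard) (hratioW _ _)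
          (div_nonneg (Nat.cast_nonneg _) (pow_nonneg (by norm_num) _)) (Nat.cast_nonneg _)
    · obtain ⟨i, hi, h1, h2⟩ := small_gen (P := fun i => Win n a c A B h.val i)
        (α := fun i => st n a c A B h.val i) hEmem
        (fun i _ => hWmem _ _) (hst1 _) (fun i _ => hWlow _ i) (hratioW _) F.s2 x0 hDcard hkx hm hmk
        hn1 hH
      refine ⟨⟨i, by omega⟩, ?_, ?_⟩
      · unfold A1f
        rw [if_pos hi]
        exact h1
      · have e4 : lamf n ρ i = 87 / 100 := by unfold lamf; rw [if_pos hi]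
        show hs ((Win n a c A B h.val i \ 𝒟).filter fun ℓ => J ℓ m ≠ -1) ≤
          lamf n ρ i * hs (Win n a c A B h.val i \ 𝒟)
        rw [e4]
        exact h2
  -- large moduli
  have hlarge : ((N₀ : ℝ) + 1 + (nh + 1) * ∑ m ∈ E.filter (fun m => 8 ^ k < m), √(24 * X / m)) *
      (2 ^ (𝒟.card + ∑ i, K0 k₀ s 𝒟.card n Kf i + ∑ i, K1 k₀ Cn n nh Kf i) * (2 * (5 * √X)))
      ≤ ε * (X / x) := by
    have hle : ε₁ * (X / x) ≤ ε * (X / x) := by
      refine mul_le_mul_of_nonneg_right ?_ (div_nonneg (Nat.cast_nonneg _) x0.le)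
      rw [hε₁]
      refine div_le_self hε.le ?_
      have : (1 : ℝ) ≤ M := by exact_mod_cast hM1
      linarith
    refine le_trans (le_trans ?_ hP1) hle
    refine mul_le_mul ?_ ?_ (mul_nonneg (pow_nonneg (by norm_num) _) (mul_nonneg (by norm_num)
      (mul_nonneg (by norm_num) (Real.sqrt_nonneg _)))) (j9_nonneg _ _ _ _ _ _ (pow_nonneg (by norm_num) _))
    · refine add_le_add_right ?_ _
      have hMc : ((nh : ℝ) + 1) = M := by rw [hM]; push_cast; ring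
      rw [hMc]
      refine mul_le_mul_of_nonneg_left ?_ hM0.le
      have e1 := sum_sparse E (x ^ 10) θ (pow_nonneg x0.le _)
        (div_nonneg (by norm_num) (mul_nonneg (by norm_num) hM0.le))
        (by
          rw [hθ, div_le_div_iff₀ (mul_pos (by norm_num) hM0) (by norm_num)]
          have : (1 : ℝ) ≤ M := by exact_mod_cast hM1
          linarith) hexc' (8 ^ k) (Nat.one_le_pow _ _ (by norm_num))
      have e2 : ∀ m ∈ E.filter (fun m => 8 ^ k < m), √(24 * X / m)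
          = √(24 * X) * (1 / √(m : ℝ)) := by
        intro m _
        rw [Real.sqrt_div (mul_nonneg (by norm_num) (Nat.cast_nonneg _))]; ring
      rw [sum_congr rfl e2, ← mul_sum]
      refine mul_le_mul_of_nonneg_left ?_ (Real.sqrt_nonneg _)
      push_cast at e1
      exact e1
    · refine mul_le_mul_of_nonneg_right ?_ (mul_nonneg (by norm_num)
        (mul_nonneg (by norm_num) (Real.sqrt_nonneg _)))
      exact pow_le_pow_right₀ (by norm_num) P.tot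
  have hratio1 : ∀ p, (K1 k₀ Cn n nh Kf p : ℝ) ≤ x ^ 10 * hs (L1 a n c A B nh 𝒟 p) := by
    intro p
    have h1 : (K1 k₀ Cn n nh Kf p : ℝ) ≤ x := by
      refine le_trans ?_ P.totx
      have h2 := single_le_sum (f := K1 k₀ Cn n nh Kf) (fun j _ => Nat.zero_le _) (mem_univ p)
      exact_mod_cast (by omega : K1 k₀ Cn n nh Kf p ≤
        𝒟.card + ∑ i, K0 k₀ s 𝒟.card n Kf i + ∑ i, K1 k₀ Cn n nh Kf i)
    have h2 := P.L1_inv p
    have h3 : ((st n a c A B p.1.val p.2.val : ℕ) : ℝ) ≤ 3 / 2 * x := by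
      refine le_trans ?_ (ss5_natlog X (by omega))
      have h4 := P.en_log p
      have h5 := st_add_le_en (n := n) (a := a) (c := c) (A := A) (B := B) (h := p.1.val)
        (i := p.2.val) hB hca1 hn1
      exact_mod_cast (by omega : st n a c A B p.1.val p.2.val ≤ Nat.log 2 X)
    have h4 := P.L1_pos p
    have h5 : 1 ≤ (3 * x / c₂) * hs (L1 a n c A B nh 𝒟 p) := by
      rw [div_le_iff₀ h4] at h2
      refine h2.trans (mul_le_mul_of_nonneg_right ?_ h4.le)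
      calc 2 / c₂ * ((st n a c A B p.1.val p.2.val : ℕ) : ℝ) ≤ 2 / c₂ * (3 / 2 * x) :=
            mul_le_mul_of_nonneg_left h3 (div_nonneg (by norm_num) hc₂.le)
        _ = 3 * x / c₂ := by ring
    have h6 : x * (3 * x / c₂) ≤ x ^ 10 := by
      have h7 : 3 / c₂ ≤ x := by
        rw [div_le_iff₀ hc₂]
        linarith [F.s5]
      calc x * (3 * x / c₂) = x * x * (3 / c₂) := by ring
        _ ≤ x * x * x := mul_le_mul_of_nonneg_left h7 (mul_nonneg x0.le x0.le)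
        _ = x ^ 3 := by ring
        _ ≤ x ^ 10 := pow_le_pow_right₀ x1 (by norm_num)
    calc (K1 k₀ Cn n nh Kf p : ℝ) ≤ x * 1 := by rw [mul_one]; exact h1
      _ ≤ x * ((3 * x / c₂) * hs (L1 a n c A B nh 𝒟 p)) := mul_le_mul_of_nonneg_left h5 x0.le
      _ = (x * (3 * x / c₂)) * hs (L1 a n c A B nh 𝒟 p) := by ring
      _ ≤ _ := mul_le_mul_of_nonneg_right h6 h4.le
  have hEM0pos : 0 < EMj (L0 a C₁ n 𝒟) (K0 k₀ s 𝒟.card n Kf) := prod_pos fun i _ => by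
    exact div_pos (pow_pos (P.L0_pos i) _) (Nat.cast_pos.mpr (Nat.factorial_pos _))
  have hEM1pos : 0 < EMj (L1 a n c A B nh 𝒟) (K1 k₀ Cn n nh Kf) := prod_pos fun i _ => by
    exact div_pos (pow_pos (P.L1_pos i) _) (Nat.cast_pos.mpr (Nat.factorial_pos _))
  have hCDr : ((CD₁ + Ca + nh + 3 : ℕ) : ℝ) = CD₁ + Ca + nh + 3 := by push_cast; ring
  have hxlog : 0 ≤ Real.log x := Real.log_nonneg x1
  exact ⟨{
    a := a, n := n, μ := μ, L₀ := L0 a C₁ n 𝒟, K₀ := K0 k₀ s 𝒟.card n Kf,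
    L₁ := L1 a n c A B nh 𝒟, K₁ := K1 k₀ Cn n nh Kf, 𝒟 := 𝒟,
    δ₀ := fun i => 3 / x ^ 3 / hs (L0 a C₁ n 𝒟 i),
    δ₁ := fun i => 4 / x ^ 2 / hs (L1 a n c A B nh 𝒟 i),
    lam₀ := fun _ => 87 / 100, lam₁ := fun p => lamf n ρ p.2.val,
    A₀ := fun i => Aset E (fun i => Pb a C₁ i) k i.val,
    A₁ := fun p => A1f E n a c A B k p.1.val p.2.val,
    two_le_μ := h2μ, μ_ge := hμge, card_le := by exact_mod_cast P.totx, a_ge := F.M0,
    a_le := by
      refine hale.trans (mul_le_mul_of_nonneg_right ?_ hxlog)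
      rw [hCDr]
      have h1 : (0 : ℝ) ≤ CD₁ := Nat.cast_nonneg _
      have h2 : (0 : ℝ) ≤ nh := Nat.cast_nonneg _
      linarith
    sys := P.sys
    L₀_mod := fun i ℓ hℓ => by
      unfold L0 at hℓ
      rw [mem_sdiff] at hℓ
      have h1 := mem_Pb.mp hℓ.1
      refine ⟨h1.2.2, lt_of_le_of_lt ?_ h1.1.1⟩
      exact Nat.pow_le_pow_right (by norm_num) (Nat.le_mul_of_pos_right _ (by positivity))
    L₁_gt := fun p ℓ hℓ => by
      unfold L1 at hℓ
      rw [mem_sdiff] at hℓ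
      refine lt_of_le_of_lt ?_ (hWmem _ _ ℓ hℓ.1).2
      exact Nat.pow_le_pow_right (by norm_num) (st_ge hn1 hB1)
    D_mod := fun ℓ hℓ => (hDmem ℓ hℓ).2.1
    D_card := by omega
    card0 := P.card0
    card1 := fun h => by rw [P.card1 h]; omega
    ratio1 := hratio1
    size := P.size
    EM₀_pos := hEM0pos, EM₁_pos := hEM1pos, EM₀_le := P.EM0_le, EM₁_le := P.EM1_le
    δ₀_nonneg := fun i => div_nonneg (div_nonneg (by norm_num) (pow_nonneg x0.le _)) (P.L0_pos i).le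
    δ₁_nonneg := fun i => div_nonneg (div_nonneg (by norm_num) (pow_nonneg x0.le _)) (P.L1_pos i).le
    δ_sum := by
      refine P.δ_sum.trans ?_
      rw [hCDr]
      have h1 : (0 : ℝ) ≤ CD₁ := Nat.cast_nonneg _
      have h2 : (0 : ℝ) ≤ nh := Nat.cast_nonneg _
      have h3 : (0 : ℝ) ≤ Ca := Nat.cast_nonneg _
      linarith
    normal := P.normal
    lam₀_nonneg := fun _ => by norm_num
    lam₁_nonneg := fun p => by
      unfold lamf
      split_ifs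
      · norm_num
      · linarith
    Q := 8 ^ k
    small0 := hsmall0, small1 := hsmall1, A_sum := hAsum, large := hlarge }⟩

end Pool.Agent.helper7.JT
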