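import Mathlib
import Pool.Agent.helper7.JT.J1
import Pool.Agent.helper61.JT.YC
import Pool.Agent.helper7.OC.C3

/-!
# JT 2: the counting inequality with shifts, parts
-/

set_option autoImplicit false

open Finset

namespace Pool.Agent.helper7.JT

open OC (J hs cs PA P5 Exc Hit card_w_le one_add_J_nonneg one_add_J_le)

variable {ι₀ ι₁ : Type} [Fintype ι₀] [DecidableEq ι₀] [Fintype ι₁] [DecidableEq ι₁]

/-- all the primes -/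
def unj (𝒟 : Finset ℕ) (T : ι₀ → Finset ℕ) (T' : ι₁ → Finset ℕ) : Finset ℕ :=
  𝒟 ∪ (univ.biUnion T ∪ univ.biUnion T')

/-- the shift of a prime -/
def sfj (sh : ι₁ → ℕ) (L₁ : ι₁ → Finset ℕ) (ℓ : ℕ) : ℕ := ∑ i with ℓ ∈ L₁ i, sh i

variable {L₀ : ι₀ → Finset ℕ} {K₀ : ι₀ → ℕ} {L₁ : ι₁ → Finset ℕ} {K₁ : ι₁ → ℕ} {𝒟 : Finset ℕ}

section
omit [Fintype ι₀] [DecidableEq ι₀] [DecidableEq ι₁]

lemma JSys.sf1 (hS : JSys L₀ L₁ 𝒟) (sh : ι₁ → ℕ) {i : ι₁} {ℓ : ℕ} (h : ℓ ∈ L₁ i) :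
    sfj sh L₁ ℓ = sh i := by
  unfold sfj
  have : (univ.filter fun j => ℓ ∈ L₁ j) = {i} := by
    ext j
    rw [mem_filter, mem_singleton]
    constructor
    · rintro ⟨_, hj⟩
      by_contra hne
      exact disjoint_left.mp (hS.disj1 j i hne) hj h
    · rintro rfl
      exact ⟨mem_univ _, h⟩
  rw [this, sum_singleton]

lemma JSys.sf0 (hS : JSys L₀ L₁ 𝒟) (sh : ι₁ → ℕ) {i : ι₀} {ℓ : ℕ} (h : ℓ ∈ L₀ i) :
    sfj sh L₁ ℓ = 0 := by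
  unfold sfj
  have : (univ.filter fun j => ℓ ∈ L₁ j) = ∅ := by
    rw [filter_eq_empty_iff]
    intro j _ hj
    exact disjoint_left.mp (hS.disj01 i j) h hj
  rw [this, sum_empty]

lemma JSys.sfD (hS : JSys L₀ L₁ 𝒟) (sh : ι₁ → ℕ) {ℓ : ℕ} (h : ℓ ∈ 𝒟) : sfj sh L₁ ℓ = 0 := by
  unfold sfj
  have : (univ.filter fun j => ℓ ∈ L₁ j) = ∅ := by
    rw [filter_eq_empty_iff]
    intro j _ hj
    exact disjoint_left.mp (hS.disjD1 j) hj h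
  rw [this, sum_empty]

end

section
variable (hS : JSys L₀ L₁ 𝒟) {T : ι₀ → Finset ℕ} (hT : T ∈ Famj L₀ K₀) {T' : ι₁ → Finset ℕ}
  (hT' : T' ∈ Famj L₁ K₁)

include hS hT hT'

lemma JSys.disjs : Disjoint 𝒟 (univ.biUnion T ∪ univ.biUnion T') ∧
    Disjoint (univ.biUnion T) (univ.biUnion T') := by
  rw [mem_Famj] at hT hT'
  constructor
  · rw [disjoint_union_right, disjoint_biUnion_right, disjoint_biUnion_right]
    exact ⟨fun i _ => disjoint_of_subset_right (hT i).1 (hS.disjD0 i).symm,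
      fun i _ => disjoint_of_subset_right (hT' i).1 (hS.disjD1 i).symm⟩
  · rw [disjoint_biUnion_right]
    intro j _
    rw [disjoint_biUnion_left]
    intro i _
    exact disjoint_of_subset_left (hT i).1 (disjoint_of_subset_right (hT' j).1 (hS.disj01 i j))

lemma JSys.prod_un {M : Type*} [CommMonoid M] (f : ℕ → M) :
    ∏ ℓ ∈ unj 𝒟 T T', f ℓ = (∏ ℓ ∈ 𝒟, f ℓ) * ((∏ i, ∏ ℓ ∈ T i, f ℓ) * ∏ i, ∏ ℓ ∈ T' i, f ℓ) := by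
  obtain ⟨h1, h2⟩ := hS.disjs hT hT'
  rw [mem_Famj] at hT hT'
  unfold unj
  rw [prod_union h1, prod_union h2, prod_biUnion, prod_biUnion]
  · intro i _ j _ hij
    exact disjoint_of_subset_left (hT' i).1 (disjoint_of_subset_right (hT' j).1 (hS.disj1 i j hij))
  · intro i _ j _ hij
    exact disjoint_of_subset_left (hT i).1 (disjoint_of_subset_right (hT j).1 (hS.disj0 i j hij))

lemma JSys.md_eq : mdj 𝒟 T * prj T' = ∏ ℓ ∈ unj 𝒟 T T', ℓ := by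
  rw [hS.prod_un hT hT']
  unfold mdj prj
  rw [mul_assoc]

lemma JSys.md_cast : ∏ ℓ ∈ unj 𝒟 T T', (ℓ : ℝ) = (∏ ℓ ∈ 𝒟, (ℓ : ℝ)) * (prj T * prj T') := by
  rw [hS.prod_un hT hT']
  unfold prj
  push_cast
  rfl

lemma JSys.card_un : (unj 𝒟 T T').card = 𝒟.card + ∑ i, K₀ i + ∑ i, K₁ i := by
  obtain ⟨h1, h2⟩ := hS.disjs hT hT'
  rw [mem_Famj] at hT hT'
  unfold unj
  rw [card_union_of_disjoint h1, card_union_of_disjoint h2, card_biUnion, card_biUnion, add_assoc]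
  · congr 2
    · exact sum_congr rfl fun i _ => (hT i).2
    · exact sum_congr rfl fun i _ => (hT' i).2
  · intro i _ j _ hij
    exact disjoint_of_subset_left (hT' i).1 (disjoint_of_subset_right (hT' j).1 (hS.disj1 i j hij))
  · intro i _ j _ hij
    exact disjoint_of_subset_left (hT i).1 (disjoint_of_subset_right (hT j).1 (hS.disj0 i j hij))

lemma JSys.mem_un {ℓ : ℕ} (h : ℓ ∈ unj 𝒟 T T') :
    ℓ ∈ 𝒟 ∨ (∃ i, ℓ ∈ T i ∧ ℓ ∈ L₀ i) ∨ ∃ i, ℓ ∈ T' i ∧ ℓ ∈ L₁ i := by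
  rw [mem_Famj] at hT hT'
  unfold unj at h
  rw [mem_union, mem_union, mem_biUnion, mem_biUnion] at h
  rcases h with h | ⟨i, _, h⟩ | ⟨i, _, h⟩
  · exact Or.inl h
  · exact Or.inr (Or.inl ⟨i, h, (hT i).1 h⟩)
  · exact Or.inr (Or.inr ⟨i, h, (hT' i).1 h⟩)

lemma JSys.prime_un {ℓ : ℕ} (h : ℓ ∈ unj 𝒟 T T') : ℓ.Prime ∧ 3 < ℓ := by
  rcases hS.mem_un hT hT' h with h | ⟨i, _, h⟩ | ⟨i, _, h⟩
  · exact hS.primeD ℓ h
  · exact hS.prime0 i ℓ h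
  · exact hS.prime1 i ℓ h

lemma JSys.squarefree : Squarefree (mdj 𝒟 T * prj T') := by
  rw [hS.md_eq hT hT']
  refine Finset.squarefree_prod_of_pairwise_isCoprime ?_ ?_
  · intro a ha b hb hab
    rw [Function.onFun, ← Nat.coprime_iff_isRelPrime]
    exact (Nat.coprime_primes (hS.prime_un hT hT' ha).1 (hS.prime_un hT hT' hb).1).mpr hab
  · intro ℓ hℓ
    exact (Nat.Prime.prime (hS.prime_un hT hT' hℓ).1).squarefree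

lemma JSys.pos : 0 < mdj 𝒟 T * prj T' :=
  Nat.pos_of_ne_zero (hS.squarefree hT hT').ne_zero

/-- every prime divides its shift of `D₀ * w`. -/
lemma JSys.dvd_shift (sh : ι₁ → ℕ) {w : ℕ} (hw : Exact (mdj 𝒟 T) sh T' w) {ℓ : ℕ}
    (h : ℓ ∈ unj 𝒟 T T') : ℓ ∣ mdj 𝒟 T * w + 8 * sfj sh L₁ ℓ := by
  rcases hS.mem_un hT hT' h with h | ⟨i, h1, h2⟩ | ⟨i, h1, h2⟩
  · rw [hS.sfD sh h, mul_zero, add_zero]
    refine Dvd.dvd.mul_right ?_ _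
    unfold mdj
    exact Dvd.dvd.mul_right (dvd_prod_of_mem _ h) _
  · rw [hS.sf0 sh h2, mul_zero, add_zero]
    refine Dvd.dvd.mul_right ?_ _
    unfold mdj prj
    exact Dvd.dvd.mul_left ((dvd_prod_of_mem (fun x => x) h1).trans
      (dvd_prod_of_mem (fun i => ∏ ℓ ∈ T i, ℓ) (mem_univ i))) _
  · rw [hS.sf1 sh h2]
    exact (hw i ℓ h1).1

end

/-- a prime dividing `N` exactly once has symbol `≠ -1` for the kernel. -/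
lemma not_neg_one_gen (μ y N m f ℓ : ℕ) (hp : ℓ.Prime) (h3 : 3 < ℓ) (hd : ℓ ∣ N) (hsq : ¬ ℓ ^ 2 ∣ N)
    (hM : (m * f ^ 2) % 4 = 3) (h : 3 * N = m * f ^ 2 + (2 ^ μ * y) ^ 2) : J ℓ m ≠ -1 := by
  intro hJ
  have hm0 : m ≠ 0 := by rintro rfl; simp at hM
  have hf0 : f ≠ 0 := by rintro rfl; simp at hM
  have hd1 : ℓ ∣ m * f ^ 2 + (2 ^ μ * y) ^ 2 := by
    rw [← h]; exact Dvd.dvd.mul_left hd _
  by_cases hlf : ℓ ∣ f
  · have h4 : ℓ ^ 2 ∣ m * f ^ 2 := Dvd.dvd.mul_left (pow_dvd_pow_of_dvd hlf 2) _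
    have h5 : ℓ ∣ m * f ^ 2 := (dvd_pow_self ℓ two_ne_zero).trans h4
    have h6 : ℓ ∣ (2 ^ μ * y) ^ 2 := (Nat.dvd_add_right h5).mp hd1
    have h7 : ℓ ^ 2 ∣ (2 ^ μ * y) ^ 2 := pow_dvd_pow_of_dvd (hp.dvd_of_dvd_pow h6) 2
    have h8 : ℓ ^ 2 ∣ 3 * N := by rw [h]; exact dvd_add h4 h7
    have h9 : Nat.Coprime (ℓ ^ 2) 3 := by
      refine Nat.Coprime.pow_left 2 ?_
      rw [Nat.coprime_primes hp Nat.prime_three]; omega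
    exact hsq (h9.dvd_of_dvd_mul_left h8)
  · have h4 := OC.J_kernel ℓ m f hp hm0 hf0
    rw [if_neg hlf, hJ] at h4
    exact OC.served ℓ (m * f ^ 2) (2 ^ μ) y hp (by omega) hM hd1 h4

open Classical in
/-- trivial count for one integer `c`. -/
lemma partj_trivial (hS : JSys L₀ L₁ 𝒟) (sh : ι₁ → ℕ)
    (Ω : (ι₀ → Finset ℕ) → (ι₁ → Finset ℕ) → Finset ℕ) (μ Y : ℕ)
    (hΩ : ∀ T ∈ Famj L₀ K₀, ∀ T' ∈ Famj L₁ K₁, ∀ w ∈ Ω T T', Exact (mdj 𝒟 T) sh T' w)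
    (hY : ∀ T ∈ Famj L₀ K₀, ∀ T' ∈ Famj L₁ K₁, mdj 𝒟 T * prj T' ≤ Y) (c : ℤ) :
    ∑ T ∈ Famj L₀ K₀, ∑ T' ∈ Famj L₁ K₁, (((Ω T T').filter fun w => Hit (mdj 𝒟 T) μ Y c w).card : ℝ)
      ≤ 2 ^ (𝒟.card + ∑ i, K₀ i + ∑ i, K₁ i) * (2 * Y / ∏ ℓ ∈ 𝒟, (ℓ : ℝ)) *
        (EMj L₀ K₀ * EMj L₁ K₁) := by
  set A := (2 : ℝ) ^ (𝒟.card + ∑ i, K₀ i + ∑ i, K₁ i) * (2 * Y / ∏ ℓ ∈ 𝒟, (ℓ : ℝ)) with hA
  have hA0 : 0 ≤ A := mul_nonneg (by positivity) (div_nonneg (by positivity)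
    (prod_nonneg fun _ _ => by positivity))
  have h1 : ∀ T ∈ Famj L₀ K₀, ∀ T' ∈ Famj L₁ K₁,
      (((Ω T T').filter fun w => Hit (mdj 𝒟 T) μ Y c w).card : ℝ)
      ≤ A * (1 / prj T) * (1 / prj T') := by
    intro T hT T' hT'
    have hpos := hS.pos hT hT'
    have hmd : ((mdj 𝒟 T * prj T' : ℕ) : ℝ) = (∏ ℓ ∈ 𝒟, (ℓ : ℝ)) * (prj T * prj T') := by
      rw [hS.md_eq hT hT']; push_cast; exact hS.md_cast hT hT'
    have hmd0 : (0 : ℝ) < ((mdj 𝒟 T * prj T' : ℕ) : ℝ) := by exact_mod_cast hpos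
    have hD0 : 0 < mdj 𝒟 T := Nat.pos_of_mul_pos_right hpos
    have e1 := card_w_le (mdj 𝒟 T) μ Y hD0 (Ω T T') c
    have e2 : ((Icc 1 Y).filter fun y : ℕ => ∃ w ∈ Ω T T',
        3 * ((mdj 𝒟 T : ℤ) * (w : ℤ)) = c + (2 ^ μ * (y : ℤ)) ^ 2).card
        ≤ ((Icc 1 Y).filter fun y : ℕ => ∀ ℓ ∈ unj 𝒟 T T',
          (ℓ : ℤ) ∣ (c + 24 * (sfj sh L₁ ℓ : ℤ)) + (2 ^ μ * (y : ℤ)) ^ 2).card := by
      refine card_le_card ?_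
      intro y hy
      rw [mem_filter] at hy ⊢
      obtain ⟨hy1, w, hw, he⟩ := hy
      refine ⟨hy1, fun ℓ hℓ => ?_⟩
      have h2 := hS.dvd_shift hT hT' sh (hΩ T hT T' hT' w hw) hℓ
      have h3 : (ℓ : ℤ) ∣ ((mdj 𝒟 T * w + 8 * sfj sh L₁ ℓ : ℕ) : ℤ) := by exact_mod_cast h2
      have h4 : c + 24 * (sfj sh L₁ ℓ : ℤ) + (2 ^ μ * (y : ℤ)) ^ 2
          = 3 * ((mdj 𝒟 T * w + 8 * sfj sh L₁ ℓ : ℕ) : ℤ) := by
        push_cast; linarith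
      rw [h4]
      exact Dvd.dvd.mul_left h3 _
    have e3 := ytrivial2 μ Y (unj 𝒟 T T') (fun ℓ => c + 24 * (sfj sh L₁ ℓ : ℤ)) (fun ℓ hℓ => by
      have := hS.prime_un hT hT' hℓ
      exact ⟨this.1, by omega⟩)
    rw [hS.card_un hT hT', hS.md_cast hT hT', ← hmd] at e3
    have e4 : (((Ω T T').filter fun w => Hit (mdj 𝒟 T) μ Y c w).card : ℝ)
        ≤ ((Icc 1 Y).filter fun y : ℕ => ∀ ℓ ∈ unj 𝒟 T T',
          (ℓ : ℤ) ∣ (c + 24 * (sfj sh L₁ ℓ : ℤ)) + (2 ^ μ * (y : ℤ)) ^ 2).card := by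
      exact_mod_cast e1.trans e2
    refine e4.trans (e3.trans ?_)
    have e5 : (Y : ℝ) / ((mdj 𝒟 T * prj T' : ℕ) : ℝ) + 1
        ≤ 2 * Y / (∏ ℓ ∈ 𝒟, (ℓ : ℝ)) * (1 / prj T) * (1 / prj T') := by
      have e6 : (1 : ℝ) ≤ Y / ((mdj 𝒟 T * prj T' : ℕ) : ℝ) := by
        rw [le_div_iff₀ hmd0, one_mul]
        exact_mod_cast hY T hT T' hT'
      have e7 : 2 * Y / (∏ ℓ ∈ 𝒟, (ℓ : ℝ)) * (1 / prj T) * (1 / prj T')
          = 2 * ((Y : ℝ) / ((mdj 𝒟 T * prj T' : ℕ) : ℝ)) := by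
        rw [hmd, div_mul_div_comm, div_mul_div_comm, mul_one, mul_one, mul_div_assoc, mul_assoc]
      rw [e7]; linarith
    calc (2 : ℝ) ^ (𝒟.card + ∑ i, K₀ i + ∑ i, K₁ i) * ((Y : ℝ) / ((mdj 𝒟 T * prj T' : ℕ) : ℝ) + 1)
        ≤ 2 ^ (𝒟.card + ∑ i, K₀ i + ∑ i, K₁ i) *
          (2 * Y / (∏ ℓ ∈ 𝒟, (ℓ : ℝ)) * (1 / prj T) * (1 / prj T')) :=
          mul_le_mul_of_nonneg_left e5 (by positivity)
      _ = _ := by rw [hA]; ring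
  refine (sum_le_sum fun T hT => sum_le_sum fun T' hT' => h1 T hT T' hT').trans ?_
  simp_rw [← mul_sum, ← sum_mul, ← mul_sum]
  rw [mul_assoc]
  refine mul_le_mul_of_nonneg_left ?_ hA0
  exact mul_le_mul (sum_inv_prj_le L₀ K₀) (sum_inv_prj_le L₁ K₁)
    (sum_nonneg fun _ _ => by positivity) (EMj_nonneg L₀ K₀)

end Pool.Agent.helper7.JT
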