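import Mathlib
import Pool.Agent.helper7.JT.J2

/-!
# JT 3: the counting inequality with shifts
-/

set_option autoImplicit false

open Finset

namespace Pool.Agent.helper7.JT

open OC (J hs cs PA P5 Exc Hit card_w_le one_add_J_nonneg one_add_J_le)

variable {ι₀ ι₁ : Type} [Fintype ι₀] [DecidableEq ι₀] [Fintype ι₁] [DecidableEq ι₁]
variable {L₀ : ι₀ → Finset ℕ} {K₀ : ι₀ → ℕ} {L₁ : ι₁ → Finset ℕ} {K₁ : ι₁ → ℕ} {𝒟 : Finset ℕ}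

omit [DecidableEq ι₀] [DecidableEq ι₁] in
lemma Dpos (hS : JSys L₀ L₁ 𝒟) : (0 : ℝ) < ∏ ℓ ∈ 𝒟, (ℓ : ℝ) := prod_pos fun ℓ hℓ => by
  have := (hS.primeD ℓ hℓ).1.pos
  exact_mod_cast this

open Classical in
/-- the normal `n`. -/
lemma partj_normal (hS : JSys L₀ L₁ 𝒟) (sh : ι₁ → ℕ) (h₀ : ℕ)
    (Ω : (ι₀ → Finset ℕ) → (ι₁ → Finset ℕ) → Finset ℕ) (μ Y : ℕ) (O' : Finset ℕ)
    (β : ℝ) (hβ : 0 ≤ β) (δ₀ : ι₀ → ℝ) (hδ0 : ∀ i, 0 ≤ δ₀ i) (δ₁ : ι₁ → ℝ) (hδ1 : ∀ i, 0 ≤ δ₁ i)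
    (h1 : ∀ n ∈ O', ∀ T ∈ Famj L₀ K₀, ∀ T' ∈ Famj L₁ K₁, (((Icc 1 Y).filter fun y : ℕ =>
      ∃ w ∈ Ω T T', 3 * ((mdj 𝒟 T : ℤ) * (w : ℤ)) = (24 * ((n : ℤ) - h₀) - 1) +
        (2 ^ μ * (y : ℤ)) ^ 2).card : ℝ)
      ≤ β * (∏ ℓ ∈ unj 𝒟 T T', (1 + J ℓ (24 * (n - h₀ + sfj sh L₁ ℓ) - 1))) *
        (Y / ∏ ℓ ∈ unj 𝒟 T T', (ℓ : ℝ)))
    (h2 : ∀ n ∈ O', (∀ i, ∑ ℓ ∈ L₀ i, (1 + J ℓ (24 * (n - h₀) - 1)) / ℓ ≤ (1 + δ₀ i) * hs (L₀ i)) ∧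
      ∀ i, ∑ ℓ ∈ L₁ i, (1 + J ℓ (24 * (n - h₀ + sh i) - 1)) / ℓ ≤ (1 + δ₁ i) * hs (L₁ i)) :
    ∑ T ∈ Famj L₀ K₀, ∑ T' ∈ Famj L₁ K₁, (((Ω T T').filter fun w => ∃ n ∈ O',
      Hit (mdj 𝒟 T) μ Y (24 * ((n : ℤ) - h₀) - 1) w).card : ℝ)
      ≤ O'.card * (β * 2 ^ 𝒟.card * (Y / ∏ ℓ ∈ 𝒟, (ℓ : ℝ)) *
        (Real.exp (∑ i, K₀ i * δ₀ i + ∑ i, K₁ i * δ₁ i) * (EMj L₀ K₀ * EMj L₁ K₁))) := by
  have hD := Dpos hS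
  set c := β * 2 ^ 𝒟.card * ((Y : ℝ) / ∏ ℓ ∈ 𝒟, (ℓ : ℝ)) with hc
  have hc0 : 0 ≤ c := by rw [hc]; positivity
  have e1 : ∀ T ∈ Famj L₀ K₀, ∀ T' ∈ Famj L₁ K₁, (((Ω T T').filter fun w => ∃ n ∈ O',
      Hit (mdj 𝒟 T) μ Y (24 * ((n : ℤ) - h₀) - 1) w).card : ℝ) ≤
      ∑ n ∈ O', c * (((∏ i, ∏ ℓ ∈ T i, (1 + J ℓ (24 * (n - h₀) - 1))) / (prj T : ℝ)) *
        ((∏ i, ∏ ℓ ∈ T' i, (1 + J ℓ (24 * (n - h₀ + sh i) - 1))) / (prj T' : ℝ))) := by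
    intro T hT T' hT'
    have f1 : ((Ω T T').filter fun w => ∃ n ∈ O', Hit (mdj 𝒟 T) μ Y (24 * ((n : ℤ) - h₀) - 1) w) ⊆
        O'.biUnion fun n => (Ω T T').filter fun w => Hit (mdj 𝒟 T) μ Y (24 * ((n : ℤ) - h₀) - 1) w := by
      intro w hw
      rw [mem_filter] at hw
      obtain ⟨hw1, n, hn, hh⟩ := hw
      exact mem_biUnion.mpr ⟨n, hn, mem_filter.mpr ⟨hw1, hh⟩⟩
    have f2 : (((Ω T T').filter fun w => ∃ n ∈ O',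
        Hit (mdj 𝒟 T) μ Y (24 * ((n : ℤ) - h₀) - 1) w).card : ℝ) ≤
        ∑ n ∈ O', (((Ω T T').filter fun w => Hit (mdj 𝒟 T) μ Y (24 * ((n : ℤ) - h₀) - 1) w).card : ℝ) := by
      exact_mod_cast (card_le_card f1).trans card_biUnion_le
    refine f2.trans (sum_le_sum fun n hn => ?_)
    have hpos := hS.pos hT hT'
    have f3 := card_w_le (mdj 𝒟 T) μ Y (Nat.pos_of_mul_pos_right hpos) (Ω T T') (24 * ((n : ℤ) - h₀) - 1)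
    have f4 : (((Ω T T').filter fun w => Hit (mdj 𝒟 T) μ Y (24 * ((n : ℤ) - h₀) - 1) w).card : ℝ)
        ≤ β * (∏ ℓ ∈ unj 𝒟 T T', (1 + J ℓ (24 * (n - h₀ + sfj sh L₁ ℓ) - 1))) *
          (Y / ∏ ℓ ∈ unj 𝒟 T T', (ℓ : ℝ)) :=
      le_trans (by exact_mod_cast f3) (h1 n hn T hT T' hT')
    refine f4.trans ?_
    rw [hS.prod_un hT hT' (fun ℓ => 1 + J ℓ (24 * (n - h₀ + sfj sh L₁ ℓ) - 1)), hS.md_cast hT hT']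
    have hm := (mem_Famj L₀ K₀ T).mp hT
    have hm' := (mem_Famj L₁ K₁ T').mp hT'
    have f5 : ∏ ℓ ∈ 𝒟, (1 + J ℓ (24 * (n - h₀ + sfj sh L₁ ℓ) - 1)) ≤ 2 ^ 𝒟.card := by
      rw [← prod_const]
      exact prod_le_prod (fun ℓ _ => one_add_J_nonneg _ _) fun ℓ _ => one_add_J_le _ _
    have f6 : ∏ i, ∏ ℓ ∈ T i, (1 + J ℓ (24 * (n - h₀ + sfj sh L₁ ℓ) - 1))
        = ∏ i, ∏ ℓ ∈ T i, (1 + J ℓ (24 * (n - h₀) - 1)) :=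
      prod_congr rfl fun i _ => prod_congr rfl fun ℓ hℓ => by
        rw [hS.sf0 sh ((hm i).1 hℓ), add_zero]
    have f7 : ∏ i, ∏ ℓ ∈ T' i, (1 + J ℓ (24 * (n - h₀ + sfj sh L₁ ℓ) - 1))
        = ∏ i, ∏ ℓ ∈ T' i, (1 + J ℓ (24 * (n - h₀ + sh i) - 1)) :=
      prod_congr rfl fun i _ => prod_congr rfl fun ℓ hℓ => by
        rw [hS.sf1 sh ((hm' i).1 hℓ)]
    rw [f6, f7]
    have p0 : (0 : ℝ) ≤ ∏ i, ∏ ℓ ∈ T i, (1 + J ℓ (24 * (n - h₀) - 1)) :=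
      prod_nonneg fun i _ => prod_nonneg fun ℓ _ => one_add_J_nonneg _ _
    have p1 : (0 : ℝ) ≤ ∏ i, ∏ ℓ ∈ T' i, (1 + J ℓ (24 * (n - h₀ + sh i) - 1)) :=
      prod_nonneg fun i _ => prod_nonneg fun ℓ _ => one_add_J_nonneg _ _
    have q0 : (0 : ℝ) ≤ prj T := Nat.cast_nonneg _
    have q1 : (0 : ℝ) ≤ prj T' := Nat.cast_nonneg _
    set A := ∏ i, ∏ ℓ ∈ T i, (1 + J ℓ (24 * (n - h₀) - 1)) with hA
    set B := ∏ i, ∏ ℓ ∈ T' i, (1 + J ℓ (24 * (n - h₀ + sh i) - 1)) with hB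
    calc β * ((∏ ℓ ∈ 𝒟, (1 + J ℓ (24 * (n - h₀ + sfj sh L₁ ℓ) - 1))) * (A * B))
          * (Y / ((∏ ℓ ∈ 𝒟, (ℓ : ℝ)) * (prj T * prj T')))
        ≤ β * (2 ^ 𝒟.card * (A * B)) * (Y / ((∏ ℓ ∈ 𝒟, (ℓ : ℝ)) * (prj T * prj T'))) := by
          refine mul_le_mul_of_nonneg_right ?_ (by positivity)
          exact mul_le_mul_of_nonneg_left (mul_le_mul_of_nonneg_right f5 (mul_nonneg p0 p1)) hβ
      _ = _ := by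
          rw [hc, ← div_div, ← div_div]
          ring
  refine (sum_le_sum fun T hT => sum_le_sum fun T' hT' => e1 T hT T' hT').trans ?_
  simp_rw [sum_comm (s := Famj L₁ K₁) (t := O')]
  rw [sum_comm, ← nsmul_eq_mul, ← sum_const]
  refine sum_le_sum fun n hn => ?_
  simp_rw [← mul_sum]
  rw [← sum_mul, mul_comm (Real.exp _), ← mul_assoc, mul_assoc c] 
  have s0 := sum_weightj_le L₀ K₀ (fun _ ℓ => 1 + J ℓ (24 * (n - h₀) - 1))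
    (fun _ ℓ => one_add_J_nonneg _ _) δ₀ (h2 n hn).1 hδ0
  have s1 := sum_weightj_le L₁ K₁ (fun i ℓ => 1 + J ℓ (24 * (n - h₀ + sh i) - 1))
    (fun _ ℓ => one_add_J_nonneg _ _) δ₁ (h2 n hn).2 hδ1
  have t1 : (0 : ℝ) ≤ ∑ T' ∈ Famj L₁ K₁, (∏ i, ∏ ℓ ∈ T' i, (1 + J ℓ (24 * (n - h₀ + sh i) - 1))) /
      (prj T' : ℝ) := sum_nonneg fun T' _ => div_nonneg
        (prod_nonneg fun i _ => prod_nonneg fun ℓ _ => one_add_J_nonneg _ _) (Nat.cast_nonneg _)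
  have t0 := EMj_nonneg L₀ K₀
  have h3 := mul_le_mul s0 s1 t1 (mul_nonneg (Real.exp_pos _).le t0)
  calc _ ≤ c * ((Real.exp (∑ i, K₀ i * δ₀ i) * EMj L₀ K₀) * (Real.exp (∑ i, K₁ i * δ₁ i) * EMj L₁ K₁)) :=
        mul_le_mul_of_nonneg_left h3 hc0
    _ = _ := by rw [Real.exp_add]; ring

open Classical in
/-- the values of the forms with first coefficient `m ∈ E`, shift `d`. -/
lemma partj_large (hS : JSys L₀ L₁ 𝒟) (sh : ι₁ → ℕ)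
    (Ω : (ι₀ → Finset ℕ) → (ι₁ → Finset ℕ) → Finset ℕ) (μ Y X d : ℕ)
    (hΩ : ∀ T ∈ Famj L₀ K₀, ∀ T' ∈ Famj L₁ K₁, ∀ w ∈ Ω T T', Exact (mdj 𝒟 T) sh T' w)
    (hY : ∀ T ∈ Famj L₀ K₀, ∀ T' ∈ Famj L₁ K₁, mdj 𝒟 T * prj T' ≤ Y) (E : Finset ℕ)
    (hE : ∀ m ∈ E, 1 ≤ m) :
    ∑ T ∈ Famj L₀ K₀, ∑ T' ∈ Famj L₁ K₁, (((Ω T T').filter fun w => ∃ m ∈ E, ∃ f : ℕ, 1 ≤ f ∧
      m * f ^ 2 ≤ 24 * X ∧ Hit (mdj 𝒟 T) μ Y ((m : ℤ) * f ^ 2 - 24 * d) w).card : ℝ)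
      ≤ (∑ m ∈ E, √(24 * X / m)) *
        (2 ^ (𝒟.card + ∑ i, K₀ i + ∑ i, K₁ i) * (2 * Y / ∏ ℓ ∈ 𝒟, (ℓ : ℝ)) *
          (EMj L₀ K₀ * EMj L₁ K₁)) := by
  have h1 : ∀ T ∈ Famj L₀ K₀, ∀ T' ∈ Famj L₁ K₁, (((Ω T T').filter fun w => ∃ m ∈ E, ∃ f : ℕ, 1 ≤ f ∧
      m * f ^ 2 ≤ 24 * X ∧ Hit (mdj 𝒟 T) μ Y ((m : ℤ) * f ^ 2 - 24 * d) w).card : ℝ) ≤
      ∑ m ∈ E, ∑ f ∈ Icc 1 (Nat.sqrt (24 * X / m)),
        (((Ω T T').filter fun w => Hit (mdj 𝒟 T) μ Y ((m : ℤ) * f ^ 2 - 24 * d) w).card : ℝ) := by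
    intro T _ T' _
    have e1 : ((Ω T T').filter fun w => ∃ m ∈ E, ∃ f : ℕ, 1 ≤ f ∧ m * f ^ 2 ≤ 24 * X ∧
      Hit (mdj 𝒟 T) μ Y ((m : ℤ) * f ^ 2 - 24 * d) w) ⊆ E.biUnion fun m =>
        (Icc 1 (Nat.sqrt (24 * X / m))).biUnion fun f =>
          (Ω T T').filter fun w => Hit (mdj 𝒟 T) μ Y ((m : ℤ) * f ^ 2 - 24 * d) w := by
      intro w hw
      rw [mem_filter] at hw
      obtain ⟨hw1, m, hm, f, hf, hmf, hh⟩ := hw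
      rw [mem_biUnion]
      refine ⟨m, hm, ?_⟩
      rw [mem_biUnion]
      refine ⟨f, ?_, mem_filter.mpr ⟨hw1, hh⟩⟩
      rw [mem_Icc, Nat.le_sqrt']
      refine ⟨hf, ?_⟩
      rw [Nat.le_div_iff_mul_le (hE m hm)]
      rw [mul_comm]; exact hmf
    have e2 := (card_le_card e1).trans (card_biUnion_le.trans (sum_le_sum fun m _ => card_biUnion_le))
    exact_mod_cast e2
  refine (sum_le_sum fun T hT => sum_le_sum fun T' hT' => h1 T hT T' hT').trans ?_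
  simp_rw [sum_comm (s := Famj L₁ K₁) (t := E)]
  rw [sum_comm, sum_mul]
  refine sum_le_sum fun m hm => ?_
  simp_rw [sum_comm (s := Famj L₁ K₁) (t := Icc 1 (Nat.sqrt (24 * X / m)))]
  rw [sum_comm]
  have h2 := fun f : ℕ => partj_trivial hS sh Ω μ Y hΩ hY ((m : ℤ) * f ^ 2 - 24 * d)
  refine (sum_le_sum fun f _ => h2 f).trans ?_
  rw [sum_const, Nat.card_Icc, Nat.add_sub_cancel, nsmul_eq_mul]
  have hD := Dpos hS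
  have t0 := EMj_nonneg L₀ K₀
  have t1 := EMj_nonneg L₁ K₁
  refine mul_le_mul_of_nonneg_right ?_ (by positivity)
  rw [Real.le_sqrt (Nat.cast_nonneg _) (by positivity)]
  have h3 : Nat.sqrt (24 * X / m) ^ 2 ≤ 24 * X / m := Nat.sqrt_le' _
  have h4 : ((24 * X / m : ℕ) : ℝ) ≤ (24 * X : ℕ) / (m : ℝ) := Nat.cast_div_le
  push_cast at h4
  refine le_trans ?_ h4
  exact_mod_cast h3

section small
variable (Ω : (ι₀ → Finset ℕ) → (ι₁ → Finset ℕ) → Finset ℕ) (E : Finset ℕ) (lam H : ℝ) (hH : 0 ≤ H)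
  (hS : JSys L₀ L₁ 𝒟)
  (h2 : ∀ T ∈ Famj L₀ K₀, ∀ T' ∈ Famj L₁ K₁, ((Ω T T').card : ℝ) ≤ H / (mdj 𝒟 T * prj T'))

include hH hS h2

open Classical in
/-- the small exceptional kernels, shift 0. -/
lemma partj_small0 (i₀ : ι₀) 
    (h1 : ∀ m ∈ E, hs ((L₀ i₀).filter fun ℓ => J ℓ m ≠ -1) ≤ lam * hs (L₀ i₀)) :
    ∑ T ∈ Famj L₀ K₀, ∑ T' ∈ Famj L₁ K₁,
      (((Ω T T').filter fun _ => ∃ m ∈ E, ∀ ℓ ∈ T i₀, J ℓ m ≠ -1).card : ℝ)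
      ≤ E.card * (H / (∏ ℓ ∈ 𝒟, (ℓ : ℝ)) * (lam ^ K₀ i₀ * (EMj L₀ K₀ * EMj L₁ K₁))) := by
  have hD := Dpos hS
  have e1 : ∀ T ∈ Famj L₀ K₀, ∀ T' ∈ Famj L₁ K₁,
      (((Ω T T').filter fun _ => ∃ m ∈ E, ∀ ℓ ∈ T i₀, J ℓ m ≠ -1).card : ℝ)
      ≤ ∑ m ∈ E, if (∀ ℓ ∈ T i₀, J ℓ m ≠ -1) then
        H / (∏ ℓ ∈ 𝒟, (ℓ : ℝ)) * ((1 / prj T) * (1 / prj T')) else 0 := by
    intro T hT T' hT'
    have hpos : (0 : ℝ) ≤ H / (∏ ℓ ∈ 𝒟, (ℓ : ℝ)) * ((1 / prj T) * (1 / prj T')) := by positivity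
    by_cases hm : ∃ m ∈ E, ∀ ℓ ∈ T i₀, J ℓ m ≠ -1
    · obtain ⟨m, hm1, hm2⟩ := hm
      have f1 : (((Ω T T').filter fun _ => ∃ m ∈ E, ∀ ℓ ∈ T i₀, J ℓ m ≠ -1).card : ℝ)
          ≤ H / (∏ ℓ ∈ 𝒟, (ℓ : ℝ)) * ((1 / prj T) * (1 / prj T')) := by
        have f2 : (((Ω T T').filter fun _ => ∃ m ∈ E, ∀ ℓ ∈ T i₀, J ℓ m ≠ -1).card : ℝ)
            ≤ (Ω T T').card := by exact_mod_cast card_filter_le _ _
        refine f2.trans ((h2 T hT T' hT').trans (le_of_eq ?_))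
        unfold mdj
        push_cast
        rw [div_mul_div_comm, div_mul_div_comm, mul_one, mul_one, mul_assoc]
      refine f1.trans ?_
      have f3 := single_le_sum (f := fun m => if (∀ ℓ ∈ T i₀, J ℓ m ≠ -1) then
        H / (∏ ℓ ∈ 𝒟, (ℓ : ℝ)) * ((1 / (prj T : ℝ)) * (1 / prj T')) else 0) (s := E) (fun m _ => by
          split_ifs
          · exact hpos
          · exact le_refl _) hm1
      simp only [if_pos hm2] at f3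
      exact f3
    · rw [filter_false_of_mem (fun _ _ => hm), card_empty, Nat.cast_zero]
      exact sum_nonneg fun m _ => by
        split_ifs
        · exact hpos
        · exact le_refl _
  refine (sum_le_sum fun T hT => sum_le_sum fun T' hT' => e1 T hT T' hT').trans ?_
  simp_rw [sum_comm (s := Famj L₁ K₁) (t := E)]
  rw [sum_comm, ← nsmul_eq_mul, ← sum_const]
  refine sum_le_sum fun m hm => ?_
  have e2 : ∀ T : ι₀ → Finset ℕ, ∑ T' ∈ Famj L₁ K₁, (if (∀ ℓ ∈ T i₀, J ℓ m ≠ -1) then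
        H / (∏ ℓ ∈ 𝒟, (ℓ : ℝ)) * ((1 / (prj T : ℝ)) * (1 / (prj T' : ℝ))) else 0)
      = if (∀ ℓ ∈ T i₀, J ℓ m ≠ -1) then H / (∏ ℓ ∈ 𝒟, (ℓ : ℝ)) *
        ((1 / (prj T : ℝ)) * ∑ T' ∈ Famj L₁ K₁, 1 / (prj T' : ℝ)) else 0 := by
    intro T
    split_ifs
    · rw [mul_sum, mul_sum]
    · exact sum_const_zero
  simp_rw [e2]
  rw [← sum_filter, ← mul_sum, ← sum_mul]
  refine mul_le_mul_of_nonneg_left ?_ (by positivity)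
  have g1 := sum_restrictj_le L₀ K₀ i₀ (fun ℓ => J ℓ m ≠ -1) lam (h1 m hm)
  have g2 := sum_inv_prj_le L₁ K₁
  have g3 : (0 : ℝ) ≤ ∑ T' ∈ Famj L₁ K₁, 1 / (prj T' : ℝ) := sum_nonneg fun _ _ => by positivity
  have g4 : (0 : ℝ) ≤ ∑ T ∈ (Famj L₀ K₀).filter (fun T => ∀ ℓ ∈ T i₀, J ℓ m ≠ -1), 1 / (prj T : ℝ) :=
    sum_nonneg fun _ _ => by positivity
  have g5 := mul_le_mul g1 g2 g3 (g4.trans g1)
  rw [mul_assoc] at g5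
  exact g5

open Classical in
/-- the small exceptional kernels, other shifts. -/
lemma partj_small1 (i₀ : ι₁)
    (h1 : ∀ m ∈ E, hs ((L₁ i₀).filter fun ℓ => J ℓ m ≠ -1) ≤ lam * hs (L₁ i₀)) :
    ∑ T ∈ Famj L₀ K₀, ∑ T' ∈ Famj L₁ K₁,
      (((Ω T T').filter fun _ => ∃ m ∈ E, ∀ ℓ ∈ T' i₀, J ℓ m ≠ -1).card : ℝ)
      ≤ E.card * (H / (∏ ℓ ∈ 𝒟, (ℓ : ℝ)) * (lam ^ K₁ i₀ * (EMj L₀ K₀ * EMj L₁ K₁))) := by
  have hD := Dpos hS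
  have e1 : ∀ T ∈ Famj L₀ K₀, ∀ T' ∈ Famj L₁ K₁,
      (((Ω T T').filter fun _ => ∃ m ∈ E, ∀ ℓ ∈ T' i₀, J ℓ m ≠ -1).card : ℝ)
      ≤ ∑ m ∈ E, if (∀ ℓ ∈ T' i₀, J ℓ m ≠ -1) then
        H / (∏ ℓ ∈ 𝒟, (ℓ : ℝ)) * ((1 / prj T) * (1 / prj T')) else 0 := by
    intro T hT T' hT'
    have hpos : (0 : ℝ) ≤ H / (∏ ℓ ∈ 𝒟, (ℓ : ℝ)) * ((1 / prj T) * (1 / prj T')) := by positivity
    by_cases hm : ∃ m ∈ E, ∀ ℓ ∈ T' i₀, J ℓ m ≠ -1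
    · obtain ⟨m, hm1, hm2⟩ := hm
      have f1 : (((Ω T T').filter fun _ => ∃ m ∈ E, ∀ ℓ ∈ T' i₀, J ℓ m ≠ -1).card : ℝ)
          ≤ H / (∏ ℓ ∈ 𝒟, (ℓ : ℝ)) * ((1 / prj T) * (1 / prj T')) := by
        have f2 : (((Ω T T').filter fun _ => ∃ m ∈ E, ∀ ℓ ∈ T' i₀, J ℓ m ≠ -1).card : ℝ)
            ≤ (Ω T T').card := by exact_mod_cast card_filter_le _ _
        refine f2.trans ((h2 T hT T' hT').trans (le_of_eq ?_))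
        unfold mdj
        push_cast
        rw [div_mul_div_comm, div_mul_div_comm, mul_one, mul_one, mul_assoc]
      refine f1.trans ?_
      have f3 := single_le_sum (f := fun m => if (∀ ℓ ∈ T' i₀, J ℓ m ≠ -1) then
        H / (∏ ℓ ∈ 𝒟, (ℓ : ℝ)) * ((1 / (prj T : ℝ)) * (1 / prj T')) else 0) (s := E) (fun m _ => by
          split_ifs
          · exact hpos
          · exact le_refl _) hm1
      simp only [if_pos hm2] at f3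
      exact f3
    · rw [filter_false_of_mem (fun _ _ => hm), card_empty, Nat.cast_zero]
      exact sum_nonneg fun m _ => by
        split_ifs
        · exact hpos
        · exact le_refl _
  refine (sum_le_sum fun T hT => sum_le_sum fun T' hT' => e1 T hT T' hT').trans ?_
  simp_rw [sum_comm (s := Famj L₁ K₁) (t := E)]
  rw [sum_comm, ← nsmul_eq_mul, ← sum_const]
  refine sum_le_sum fun m hm => ?_
  have e2 : ∀ T : ι₀ → Finset ℕ, ∑ T' ∈ Famj L₁ K₁, (if (∀ ℓ ∈ T' i₀, J ℓ m ≠ -1) then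
        H / (∏ ℓ ∈ 𝒟, (ℓ : ℝ)) * ((1 / (prj T : ℝ)) * (1 / (prj T' : ℝ))) else 0)
      = H / (∏ ℓ ∈ 𝒟, (ℓ : ℝ)) * ((1 / (prj T : ℝ)) *
        ∑ T' ∈ (Famj L₁ K₁).filter (fun T' => ∀ ℓ ∈ T' i₀, J ℓ m ≠ -1), 1 / (prj T' : ℝ)) := by
    intro T
    rw [← sum_filter, ← mul_sum, ← mul_sum]
  simp_rw [e2]
  rw [← mul_sum, ← sum_mul]
  refine mul_le_mul_of_nonneg_left ?_ (by positivity)
  have g1 := sum_restrictj_le L₁ K₁ i₀ (fun ℓ => J ℓ m ≠ -1) lam (h1 m hm)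
  have g2 := sum_inv_prj_le L₀ K₀
  have g4 : (0 : ℝ) ≤ ∑ T' ∈ (Famj L₁ K₁).filter (fun T' => ∀ ℓ ∈ T' i₀, J ℓ m ≠ -1),
      1 / (prj T' : ℝ) := sum_nonneg fun _ _ => by positivity
  have g5 := mul_le_mul g2 g1 g4 (EMj_nonneg L₀ K₀)
  calc _ ≤ _ := g5
    _ = _ := by ring

end small

end Pool.Agent.helper7.JT
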