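import Mathlib
import Pool.Agent.helper7.JT.J3

/-!
# JT 4: the counting inequality with shifts
-/

set_option autoImplicit false

open Finset

namespace Pool.Agent.helper7.JT

open OC (J hs cs PA P5 Exc Hit card_w_le one_add_J_nonneg one_add_J_le)

variable {ι₀ κ : Type} [Fintype ι₀] [DecidableEq ι₀] [Fintype κ] [DecidableEq κ] {nh : ℕ}
variable {L₀ : ι₀ → Finset ℕ} {K₀ : ι₀ → ℕ} {L₁ : Fin nh × κ → Finset ℕ} {K₁ : Fin nh × κ → ℕ}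
  {𝒟 : Finset ℕ}

/-- no exceptional kernel -/
def NoExc (E : Finset ℕ) (v : ℕ) : Prop := ∀ m ∈ E, ∀ f : ℕ, 24 * v ≠ m * f ^ 2 + 1

open Classical in
/-- **The counting inequality with shifts.** -/
theorem jcore_ineq (hS : JSys L₀ L₁ 𝒟) (dsh : Fin nh → ℕ) (h₀ : ℕ)
    (Ω : (ι₀ → Finset ℕ) → (Fin nh × κ → Finset ℕ) → Finset ℕ) (O : Finset ℕ)
    (μ Y X N₀ Q : ℕ) (β H : ℝ) (hβ : 0 ≤ β) (hH : 0 ≤ H)
    (lam₀ : ι₀ → ℝ) (hl0 : ∀ i, 0 ≤ lam₀ i) (lam₁ : Fin nh × κ → ℝ) (hl1 : ∀ i, 0 ≤ lam₁ i)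
    (δ₀ : ι₀ → ℝ) (hδ0 : ∀ i, 0 ≤ δ₀ i) (δ₁ : Fin nh × κ → ℝ) (hδ1 : ∀ i, 0 ≤ δ₁ i)
    (E : Finset ℕ) (A₀ : ι₀ → Finset ℕ) (A₁ : Fin nh × κ → Finset ℕ)
    (hY : ∀ T ∈ Famj L₀ K₀, ∀ T' ∈ Famj L₁ K₁, mdj 𝒟 T * prj T' ≤ Y)
    (hΩE : ∀ T ∈ Famj L₀ K₀, ∀ T' ∈ Famj L₁ K₁, ∀ w ∈ Ω T T', Exact (mdj 𝒟 T) (fun p => dsh p.1) T' w)
    (hcop : ∀ T ∈ Famj L₀ K₀, ∀ T' ∈ Famj L₁ K₁, ∀ w ∈ Ω T T', ∀ ℓ ∈ unj 𝒟 T T', ¬ ℓ ∣ w)
    (hN₀ : h₀ + 1 ≤ N₀)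
    (cover : ∀ T ∈ Famj L₀ K₀, ∀ T' ∈ Famj L₁ K₁, ∀ w ∈ Ω T T', ∃ n : ℕ, (n ∈ O ∨ n < N₀) ∧
      (∀ h, n + dsh h ≤ X) ∧ n ≤ X ∧ Hit (mdj 𝒟 T) μ Y (24 * ((n : ℤ) - h₀) - 1) w)
    (hN : ∀ n ∈ O, h₀ + 1 ≤ n → NoExc E (n - h₀) → (∀ h, NoExc E (n - h₀ + dsh h)) →
      (∀ T ∈ Famj L₀ K₀, ∀ T' ∈ Famj L₁ K₁, (((Icc 1 Y).filter fun y : ℕ =>
      ∃ w ∈ Ω T T', 3 * ((mdj 𝒟 T : ℤ) * (w : ℤ)) = (24 * ((n : ℤ) - h₀) - 1) +
        (2 ^ μ * (y : ℤ)) ^ 2).card : ℝ)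
      ≤ β * (∏ ℓ ∈ unj 𝒟 T T', (1 + J ℓ (24 * (n - h₀ + sfj (fun p => dsh p.1) L₁ ℓ) - 1))) *
        (Y / ∏ ℓ ∈ unj 𝒟 T T', (ℓ : ℝ))) ∧
      (∀ i, ∑ ℓ ∈ L₀ i, (1 + J ℓ (24 * (n - h₀) - 1)) / ℓ ≤ (1 + δ₀ i) * hs (L₀ i)) ∧
      ∀ p, ∑ ℓ ∈ L₁ p, (1 + J ℓ (24 * (n - h₀ + dsh p.1) - 1)) / ℓ ≤ (1 + δ₁ p) * hs (L₁ p))
    (hE : ∀ m ∈ E, 1 ≤ m)
    (hsmall0 : ∀ m ∈ E, m ≤ Q → (∃ ℓ ∈ 𝒟, J ℓ m = -1) ∨
      ∃ i, m ∈ A₀ i ∧ hs ((L₀ i).filter fun ℓ => J ℓ m ≠ -1) ≤ lam₀ i * hs (L₀ i))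
    (hsmall1 : ∀ m ∈ E, m ≤ Q → ∀ h : Fin nh, ∃ i, m ∈ A₁ (h, i) ∧
      hs ((L₁ (h, i)).filter fun ℓ => J ℓ m ≠ -1) ≤ lam₁ (h, i) * hs (L₁ (h, i)))
    (hΩ : ∀ T ∈ Famj L₀ K₀, ∀ T' ∈ Famj L₁ K₁, ((Ω T T').card : ℝ) ≤ H / (mdj 𝒟 T * prj T')) :
    ∑ T ∈ Famj L₀ K₀, ∑ T' ∈ Famj L₁ K₁, ((Ω T T').card : ℝ) ≤
      O.card * (β * 2 ^ 𝒟.card * (Y / ∏ ℓ ∈ 𝒟, (ℓ : ℝ)) *
        (Real.exp (∑ i, K₀ i * δ₀ i + ∑ i, K₁ i * δ₁ i) * (EMj L₀ K₀ * EMj L₁ K₁)))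
      + (N₀ + (nh + 1) * ∑ m ∈ E.filter (fun m => Q < m), √(24 * X / m)) *
        (2 ^ (𝒟.card + ∑ i, K₀ i + ∑ i, K₁ i) * (2 * Y / ∏ ℓ ∈ 𝒟, (ℓ : ℝ)) *
          (EMj L₀ K₀ * EMj L₁ K₁))
      + (∑ i, ((A₀ i).card : ℝ) * lam₀ i ^ K₀ i + ∑ i, ((A₁ i).card : ℝ) * lam₁ i ^ K₁ i) *
        (H / (∏ ℓ ∈ 𝒟, (ℓ : ℝ)) * (EMj L₀ K₀ * EMj L₁ K₁)) := by
  set sh : Fin nh × κ → ℕ := fun p => dsh p.1 with hsh
  set Q' := E.filter (fun m => Q < m) with hQ'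
  set O' := O.filter fun n => h₀ + 1 ≤ n ∧ NoExc E (n - h₀) ∧ ∀ h, NoExc E (n - h₀ + dsh h) with hO'
  set B₀ : ι₀ → Finset ℕ := fun i => (A₀ i).filter fun m =>
    hs ((L₀ i).filter fun ℓ => J ℓ m ≠ -1) ≤ lam₀ i * hs (L₀ i) with hB₀
  set B₁ : Fin nh × κ → Finset ℕ := fun i => (A₁ i).filter fun m =>
    hs ((L₁ i).filter fun ℓ => J ℓ m ≠ -1) ≤ lam₁ i * hs (L₁ i) with hB₁
  have hD := Dpos hS
  have t0 := EMj_nonneg L₀ K₀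
  have t1 := EMj_nonneg L₁ K₁
  -- the parts
  have key : ∀ T ∈ Famj L₀ K₀, ∀ T' ∈ Famj L₁ K₁, ((Ω T T').card : ℝ) ≤
      (((Ω T T').filter fun w => ∃ n ∈ O', Hit (mdj 𝒟 T) μ Y (24 * ((n : ℤ) - h₀) - 1) w).card : ℝ)
      + ∑ n ∈ range N₀, (((Ω T T').filter fun w => Hit (mdj 𝒟 T) μ Y (24 * ((n : ℤ) - h₀) - 1) w).card : ℝ)
      + ((((Ω T T').filter fun w => ∃ m ∈ Q', ∃ f : ℕ, 1 ≤ f ∧
          m * f ^ 2 ≤ 24 * X ∧ Hit (mdj 𝒟 T) μ Y ((m : ℤ) * f ^ 2 - 24 * (0 : ℕ)) w).card : ℝ)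
      + ∑ h : Fin nh, (((Ω T T').filter fun w => ∃ m ∈ Q', ∃ f : ℕ, 1 ≤ f ∧
          m * f ^ 2 ≤ 24 * X ∧ Hit (mdj 𝒟 T) μ Y ((m : ℤ) * f ^ 2 - 24 * (dsh h : ℕ)) w).card : ℝ))
      + (∑ i, (((Ω T T').filter fun _ => ∃ m ∈ B₀ i, ∀ ℓ ∈ T i, J ℓ m ≠ -1).card : ℝ)
      + ∑ i, (((Ω T T').filter fun _ => ∃ m ∈ B₁ i, ∀ ℓ ∈ T' i, J ℓ m ≠ -1).card : ℝ)) := by
    intro T hT T' hT'
    have hsub : Ω T T' ⊆ (((Ω T T').filter fun w => ∃ n ∈ O',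
          Hit (mdj 𝒟 T) μ Y (24 * ((n : ℤ) - h₀) - 1) w)
        ∪ (range N₀).biUnion fun n => (Ω T T').filter fun w =>
          Hit (mdj 𝒟 T) μ Y (24 * ((n : ℤ) - h₀) - 1) w)
        ∪ (((Ω T T').filter fun w => ∃ m ∈ Q', ∃ f : ℕ, 1 ≤ f ∧
          m * f ^ 2 ≤ 24 * X ∧ Hit (mdj 𝒟 T) μ Y ((m : ℤ) * f ^ 2 - 24 * (0 : ℕ)) w)
        ∪ univ.biUnion fun h : Fin nh => (Ω T T').filter fun w => ∃ m ∈ Q', ∃ f : ℕ, 1 ≤ f ∧
          m * f ^ 2 ≤ 24 * X ∧ Hit (mdj 𝒟 T) μ Y ((m : ℤ) * f ^ 2 - 24 * (dsh h : ℕ)) w)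
        ∪ ((univ.biUnion fun i => (Ω T T').filter fun _ => ∃ m ∈ B₀ i, ∀ ℓ ∈ T i, J ℓ m ≠ -1)
        ∪ univ.biUnion fun i => (Ω T T').filter fun _ => ∃ m ∈ B₁ i, ∀ ℓ ∈ T' i, J ℓ m ≠ -1) := by
      intro w hw
      obtain ⟨n, hn, hnX, hnX0, hit⟩ := cover T hT T' hT' w hw
      have hit' := hit
      obtain ⟨y, hy1, hy⟩ := hit'
      by_cases hn0 : n < N₀
      · refine mem_union_left _ (mem_union_left _ (mem_union_right _ ?_))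
        exact mem_biUnion.mpr ⟨n, mem_range.mpr hn0, mem_filter.mpr ⟨hw, hit⟩⟩
      · have hn1 : h₀ + 1 ≤ n := by omega
        have hnO : n ∈ O := by
          rcases hn with h | h
          · exact h
          · omega
        have hcast : ((n - h₀ : ℕ) : ℤ) = (n : ℤ) - h₀ := by
          rw [Nat.cast_sub (by omega)]
        -- an exceptional kernel at the shift `d`
        have hbig : ∀ d : ℕ, n + d ≤ X → ∀ m ∈ E, Q < m → ∀ f : ℕ, 24 * (n - h₀ + d) = m * f ^ 2 + 1 →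
            w ∈ (Ω T T').filter fun w => ∃ m ∈ Q', ∃ f : ℕ, 1 ≤ f ∧
              m * f ^ 2 ≤ 24 * X ∧ Hit (mdj 𝒟 T) μ Y ((m : ℤ) * f ^ 2 - 24 * (d : ℕ)) w := by
          intro d hdX m hm hmQ f hf
          refine mem_filter.mpr ⟨hw, m, mem_filter.mpr ⟨hm, hmQ⟩, f, ?_, ?_, ?_⟩
          · rcases Nat.eq_zero_or_pos f with h | h
            · exfalso
              rw [h] at hf
              omega
            · exact h
          · omega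
          · have e : ((m : ℤ) * (f : ℤ) ^ 2 - 24 * (d : ℤ)) = 24 * ((n : ℤ) - h₀) - 1 := by
              have : (24 * (((n - h₀ : ℕ) : ℤ) + d)) = m * f ^ 2 + 1 := by exact_mod_cast hf
              rw [hcast] at this
              linarith
            rw [e]; exact hit
        have hker : ∀ d : ℕ, ∀ m f : ℕ, 24 * (n - h₀ + d) = m * f ^ 2 + 1 → ∀ ℓ : ℕ, ℓ.Prime → 3 < ℓ →
            ℓ ∣ mdj 𝒟 T * w + 8 * d → ¬ ℓ ^ 2 ∣ mdj 𝒟 T * w + 8 * d → J ℓ m ≠ -1 := by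
          intro d m f hf ℓ hp h3 hd hsq
          refine not_neg_one_gen μ y (mdj 𝒟 T * w + 8 * d) m f ℓ hp h3 hd hsq (by omega) ?_
          have e : (24 * (((n - h₀ : ℕ) : ℤ) + d)) = m * f ^ 2 + 1 := by exact_mod_cast hf
          rw [hcast] at e
          have e2 : (3 * ((mdj 𝒟 T : ℤ) * w + 8 * d)) = m * f ^ 2 + (2 ^ μ * y) ^ 2 := by linarith
          exact_mod_cast e2
        by_cases hgood : NoExc E (n - h₀) ∧ ∀ h, NoExc E (n - h₀ + dsh h)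
        · refine mem_union_left _ (mem_union_left _ (mem_union_left _ ?_))
          exact mem_filter.mpr ⟨hw, n, mem_filter.mpr ⟨hnO, hn1, hgood.1, hgood.2⟩, hit⟩
        · rw [not_and_or] at hgood
          rcases hgood with hg | hg
          · unfold NoExc at hg
            push Not at hg
            obtain ⟨m, hm, f, hf⟩ := hg
            by_cases hmQ : Q < m
            · exact mem_union_left _ (mem_union_right _ (mem_union_left _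
                (hbig 0 (by omega) m hm hmQ f (by rw [add_zero]; exact hf))))
            · refine mem_union_right _ (mem_union_left _ ?_)
              have hk := hker 0 m f (by rw [add_zero]; exact hf)
              have hall : ∀ ℓ ∈ 𝒟 ∪ univ.biUnion T, J ℓ m ≠ -1 := by
                intro ℓ hℓ
                have hℓu : ℓ ∈ unj 𝒟 T T' := by
                  unfold unj
                  rw [mem_union] at hℓ ⊢
                  rcases hℓ with h | h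
                  · exact Or.inl h
                  · exact Or.inr (mem_union_left _ h)
                obtain ⟨hp, h3⟩ := hS.prime_un hT hT' hℓu
                have hs0 : sfj sh L₁ ℓ = 0 := by
                  rw [mem_union, mem_biUnion] at hℓ
                  rcases hℓ with h | ⟨i, _, h⟩
                  · exact hS.sfD sh h
                  · exact hS.sf0 sh (((mem_Famj _ _ _).mp hT i).1 h)
                have hd := hS.dvd_shift hT hT' sh (hΩE T hT T' hT' w hw) hℓu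
                rw [hs0, mul_zero, add_zero] at hd
                refine hk ℓ hp h3 (by rw [mul_zero, add_zero]; exact hd) ?_
                rw [mul_zero, add_zero]
                intro hsq
                have hc1 : Nat.Coprime (ℓ ^ 2) w := Nat.Coprime.pow_left 2
                  ((Nat.Prime.coprime_iff_not_dvd hp).mpr (hcop T hT T' hT' w hw ℓ hℓu))
                have hc2 : ℓ ^ 2 ∣ mdj 𝒟 T := hc1.dvd_of_dvd_mul_right hsq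
                have hc3 := hS.squarefree hT hT'
                have hc4 : ℓ ^ 2 ∣ mdj 𝒟 T * prj T' := Dvd.dvd.mul_right hc2 _
                rw [pow_two] at hc4
                exact hp.one_lt.ne' (Nat.isUnit_iff.mp (hc3 ℓ hc4))
              rcases hsmall0 m hm (by omega) with ⟨ℓ, hℓ, hJ⟩ | ⟨i, hi, hle⟩
              · exact absurd hJ (hall ℓ (mem_union_left _ hℓ))
              · refine mem_biUnion.mpr ⟨i, mem_univ _, mem_filter.mpr ⟨hw, m, ?_, ?_⟩⟩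
                · exact mem_filter.mpr ⟨hi, hle⟩
                · intro ℓ hℓ
                  exact hall ℓ (mem_union_right _ (mem_biUnion.mpr ⟨i, mem_univ _, hℓ⟩))
          · push Not at hg
            obtain ⟨h, hg⟩ := hg
            unfold NoExc at hg
            push Not at hg
            obtain ⟨m, hm, f, hf⟩ := hg
            by_cases hmQ : Q < m
            · refine mem_union_left _ (mem_union_right _ (mem_union_right _ ?_))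
              exact mem_biUnion.mpr ⟨h, mem_univ _, hbig (dsh h) (hnX h) m hm hmQ f hf⟩
            · refine mem_union_right _ (mem_union_right _ ?_)
              obtain ⟨i, hi, hle⟩ := hsmall1 m hm (by omega) h
              refine mem_biUnion.mpr ⟨(h, i), mem_univ _, mem_filter.mpr ⟨hw, m, ?_, ?_⟩⟩
              · exact mem_filter.mpr ⟨hi, hle⟩
              · intro ℓ hℓ
                have h1 := (hΩE T hT T' hT' w hw) (h, i) ℓ hℓ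
                have h2 := hS.prime1 (h, i) ℓ (((mem_Famj _ _ _).mp hT' (h, i)).1 hℓ)
                exact hker (dsh h) m f hf ℓ h2.1 h2.2 h1.1 h1.2
    have h1 := card_le_card hsub
    have h2 := h1.trans ((card_union_le _ _).trans (Nat.add_le_add ((card_union_le _ _).trans
      (Nat.add_le_add ((card_union_le _ _).trans (Nat.add_le_add le_rfl card_biUnion_le))
        ((card_union_le _ _).trans (Nat.add_le_add le_rfl card_biUnion_le))))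
      ((card_union_le _ _).trans (Nat.add_le_add card_biUnion_le card_biUnion_le))))
    exact_mod_cast h2
  refine (sum_le_sum fun T hT => sum_le_sum fun T' hT' => key T hT T' hT').trans ?_
  simp_rw [sum_add_distrib]
  have p1 := partj_normal hS sh h₀ Ω μ Y O' β hβ δ₀ hδ0 δ₁ hδ1
    (fun n hn T hT T' hT' => by
      have hn' := (mem_filter.mp hn)
      exact (hN n hn'.1 hn'.2.1 hn'.2.2.1 hn'.2.2.2).1 T hT T' hT')
    (fun n hn => by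
      have hn' := (mem_filter.mp hn)
      exact (hN n hn'.1 hn'.2.1 hn'.2.2.1 hn'.2.2.2).2)
  have p1' : (O'.card : ℝ) * (β * 2 ^ 𝒟.card * (Y / ∏ ℓ ∈ 𝒟, (ℓ : ℝ)) *
      (Real.exp (∑ i, K₀ i * δ₀ i + ∑ i, K₁ i * δ₁ i) * (EMj L₀ K₀ * EMj L₁ K₁))) ≤
      O.card * (β * 2 ^ 𝒟.card * (Y / ∏ ℓ ∈ 𝒟, (ℓ : ℝ)) *
      (Real.exp (∑ i, K₀ i * δ₀ i + ∑ i, K₁ i * δ₁ i) * (EMj L₀ K₀ * EMj L₁ K₁))) := by
    refine mul_le_mul_of_nonneg_right (by exact_mod_cast card_filter_le _ _) ?_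
    positivity
  set Tr := (2 : ℝ) ^ (𝒟.card + ∑ i, K₀ i + ∑ i, K₁ i) * (2 * Y / ∏ ℓ ∈ 𝒟, (ℓ : ℝ)) *
          (EMj L₀ K₀ * EMj L₁ K₁) with hTr
  have p2 : ∑ T ∈ Famj L₀ K₀, ∑ T' ∈ Famj L₁ K₁, ∑ n ∈ range N₀,
      (((Ω T T').filter fun w => Hit (mdj 𝒟 T) μ Y (24 * ((n : ℤ) - h₀) - 1) w).card : ℝ)
      ≤ N₀ * Tr := by
    simp_rw [sum_comm (s := Famj L₁ K₁) (t := range N₀)]
    rw [sum_comm]
    have q2 := fun n : ℕ => partj_trivial hS sh Ω μ Y hΩE hY (24 * ((n : ℤ) - h₀) - 1)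
    refine (sum_le_sum fun n _ => q2 n).trans ?_
    rw [sum_const, card_range, nsmul_eq_mul]
  have p3 := fun d : ℕ => partj_large hS sh Ω μ Y X d hΩE hY Q'
    (fun m hm => hE m (mem_filter.mp hm).1)
  have p3b : ∑ T ∈ Famj L₀ K₀, ∑ T' ∈ Famj L₁ K₁, ∑ h : Fin nh, (((Ω T T').filter fun w =>
      ∃ m ∈ Q', ∃ f : ℕ, 1 ≤ f ∧ m * f ^ 2 ≤ 24 * X ∧
        Hit (mdj 𝒟 T) μ Y ((m : ℤ) * f ^ 2 - 24 * (dsh h : ℕ)) w).card : ℝ)
      ≤ nh * ((∑ m ∈ Q', √(24 * X / m)) * Tr) := by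
    simp_rw [sum_comm (s := Famj L₁ K₁) (t := (univ : Finset (Fin nh)))]
    rw [sum_comm]
    refine (sum_le_sum fun h _ => p3 (dsh h)).trans ?_
    rw [sum_const, card_univ, Fintype.card_fin, nsmul_eq_mul]
  have p4 : ∑ T ∈ Famj L₀ K₀, ∑ T' ∈ Famj L₁ K₁,
      ∑ i, (((Ω T T').filter fun _ => ∃ m ∈ B₀ i, ∀ ℓ ∈ T i, J ℓ m ≠ -1).card : ℝ)
      ≤ (∑ i, ((A₀ i).card : ℝ) * lam₀ i ^ K₀ i) *
        (H / (∏ ℓ ∈ 𝒟, (ℓ : ℝ)) * (EMj L₀ K₀ * EMj L₁ K₁)) := by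
    simp_rw [sum_comm (s := Famj L₁ K₁) (t := (univ : Finset ι₀))]
    rw [sum_comm, sum_mul]
    refine sum_le_sum fun i _ => ?_
    refine (partj_small0 Ω (B₀ i) (lam₀ i) H hH hS hΩ i (fun m hm => (mem_filter.mp hm).2)).trans ?_
    calc ((B₀ i).card : ℝ) * (H / (∏ ℓ ∈ 𝒟, (ℓ : ℝ)) * (lam₀ i ^ K₀ i * (EMj L₀ K₀ * EMj L₁ K₁)))
        ≤ ((A₀ i).card : ℝ) * (H / (∏ ℓ ∈ 𝒟, (ℓ : ℝ)) * (lam₀ i ^ K₀ i * (EMj L₀ K₀ * EMj L₁ K₁))) := by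
          refine mul_le_mul_of_nonneg_right (by exact_mod_cast card_filter_le _ _) ?_
          have := hl0 i
          positivity
      _ = _ := by ring
  have p5 : ∑ T ∈ Famj L₀ K₀, ∑ T' ∈ Famj L₁ K₁,
      ∑ i, (((Ω T T').filter fun _ => ∃ m ∈ B₁ i, ∀ ℓ ∈ T' i, J ℓ m ≠ -1).card : ℝ)
      ≤ (∑ i, ((A₁ i).card : ℝ) * lam₁ i ^ K₁ i) *
        (H / (∏ ℓ ∈ 𝒟, (ℓ : ℝ)) * (EMj L₀ K₀ * EMj L₁ K₁)) := by
    simp_rw [sum_comm (s := Famj L₁ K₁) (t := (univ : Finset (Fin nh × κ)))]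
    rw [sum_comm, sum_mul]
    refine sum_le_sum fun i _ => ?_
    refine (partj_small1 Ω (B₁ i) (lam₁ i) H hH hS hΩ i (fun m hm => (mem_filter.mp hm).2)).trans ?_
    calc ((B₁ i).card : ℝ) * (H / (∏ ℓ ∈ 𝒟, (ℓ : ℝ)) * (lam₁ i ^ K₁ i * (EMj L₀ K₀ * EMj L₁ K₁)))
        ≤ ((A₁ i).card : ℝ) * (H / (∏ ℓ ∈ 𝒟, (ℓ : ℝ)) * (lam₁ i ^ K₁ i * (EMj L₀ K₀ * EMj L₁ K₁))) := by
          refine mul_le_mul_of_nonneg_right (by exact_mod_cast card_filter_le _ _) ?_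
          have := hl1 i
          positivity
      _ = _ := by ring
  have e5 : ((N₀ : ℝ) + (nh + 1) * ∑ m ∈ Q', √(24 * X / m)) * Tr
      = N₀ * Tr + ((∑ m ∈ Q', √(24 * X / m)) * Tr + nh * ((∑ m ∈ Q', √(24 * X / m)) * Tr)) := by ring
  rw [e5, add_mul]
  have p30 := p3 0
  refine add_le_add (add_le_add (add_le_add (p1.trans p1') p2) (add_le_add p30 p3b)) (add_le_add p4 p5)
    |>.trans (le_of_eq ?_)
  ring

end Pool.Agent.helper7.JT
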