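import Mathlib
import Pool.Agent.helper7.JT.J4

/-!
# JT 5: the final inequality
-/

set_option autoImplicit false

open Finset

namespace Pool.Agent.helper7.JT

open OC (J hs cs PA P5 Exc Hit one_add_J_nonneg one_add_J_le)

open Classical in
/-- **Final inequality.** -/
theorem jcore_final {X nh s N₀ CD C₁ : ℕ} {c₀ c₁ : ℝ} (hc₁ : 0 < c₁)
    (d : JData X nh s N₀ CD C₁ c₀ (c₁ / 4)) (dsh : Fin nh → ℕ) (h₀ : ℕ)
    (Ω : (Fin d.n → Finset ℕ) → (Fin nh × Fin (d.n + 1) → Finset ℕ) → Finset ℕ) (O : Finset ℕ)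
    (β H : ℝ) (hβ : 0 ≤ β) (hX : 1 ≤ Real.log X) (hH : X / Real.log X ≤ H)
    (hY : ∀ T ∈ Famj d.L₀ d.K₀, ∀ T' ∈ Famj d.L₁ d.K₁,
      mdj d.𝒟 T * prj T' ≤ Nat.sqrt (25 * X) / 2 ^ d.μ)
    (hΩE : ∀ T ∈ Famj d.L₀ d.K₀, ∀ T' ∈ Famj d.L₁ d.K₁, ∀ w ∈ Ω T T',
      Exact (mdj d.𝒟 T) (fun p => dsh p.1) T' w)
    (hcop : ∀ T ∈ Famj d.L₀ d.K₀, ∀ T' ∈ Famj d.L₁ d.K₁, ∀ w ∈ Ω T T', ∀ ℓ ∈ unj d.𝒟 T T', ¬ ℓ ∣ w)
    (hN₀ : h₀ + 1 ≤ N₀)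
    (cover : ∀ T ∈ Famj d.L₀ d.K₀, ∀ T' ∈ Famj d.L₁ d.K₁, ∀ w ∈ Ω T T', ∃ n : ℕ, (n ∈ O ∨ n < N₀) ∧
      (∀ h, n + dsh h ≤ X) ∧ n ≤ X ∧
        Hit (mdj d.𝒟 T) d.μ (Nat.sqrt (25 * X) / 2 ^ d.μ) (24 * ((n : ℤ) - h₀) - 1) w)
    (hOX : ∀ n ∈ O, n ≤ X ∧ ∀ h, n + dsh h ≤ X)
    (hN : ∀ n ∈ O, h₀ + 1 ≤ n →
      (∀ r : ℕ, d.a ≤ 2 ^ r → 2 ^ 2 ^ r ≤ X → -2 ≤ cs (PA (2 ^ d.a) (2 ^ 2 ^ r)) (24 * (n - h₀) - 1)) →
      ∀ T ∈ Famj d.L₀ d.K₀, ∀ T' ∈ Famj d.L₁ d.K₁,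
      (((Icc 1 (Nat.sqrt (25 * X) / 2 ^ d.μ)).filter fun y : ℕ =>
      ∃ w ∈ Ω T T', 3 * ((mdj d.𝒟 T : ℤ) * (w : ℤ)) = (24 * ((n : ℤ) - h₀) - 1) +
        (2 ^ d.μ * (y : ℤ)) ^ 2).card : ℝ)
      ≤ β * (∏ ℓ ∈ unj d.𝒟 T T', (1 + J ℓ (24 * (n - h₀ + sfj (fun p => dsh p.1) d.L₁ ℓ) - 1))) *
        (((Nat.sqrt (25 * X) / 2 ^ d.μ : ℕ) : ℝ) / ∏ ℓ ∈ unj d.𝒟 T T', (ℓ : ℝ)))
    (hΩ : ∀ T ∈ Famj d.L₀ d.K₀, ∀ T' ∈ Famj d.L₁ d.K₁, ((Ω T T').card : ℝ) ≤ H / (mdj d.𝒟 T * prj T'))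
    (hlow : c₁ * H * (EMj d.L₀ d.K₀ * EMj d.L₁ d.K₁ / ∏ ℓ ∈ d.𝒟, (ℓ : ℝ)) ≤
      ∑ T ∈ Famj d.L₀ d.K₀, ∑ T' ∈ Famj d.L₁ d.K₁, ((Ω T T').card : ℝ)) :
    c₁ / 2 * H ≤ O.card * (β * 2 ^ CD * Real.exp CD * (5 * √X / 2 ^ d.μ)) := by
  set Y := Nat.sqrt (25 * X) / 2 ^ d.μ with hYdef
  set D := ∏ ℓ ∈ d.𝒟, (ℓ : ℝ) with hD
  have hDpos : 0 < D := Dpos d.sys
  have hXpos : (0 : ℝ) < X := by
    rcases Nat.eq_zero_or_pos X with h | h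
    · rw [h] at hX; simp at hX; linarith
    · exact_mod_cast h
  have hHpos : 0 < H := lt_of_lt_of_le (by positivity) hH
  have hYle : (Y : ℝ) ≤ 5 * √X / 2 ^ d.μ := by
    have h1 : (Y : ℝ) ≤ (Nat.sqrt (25 * X) : ℝ) / (2 ^ d.μ : ℕ) := Nat.cast_div_le
    refine h1.trans ?_
    push_cast
    refine div_le_div_of_nonneg_right ?_ (by positivity)
    have h2 : (Nat.sqrt (25 * X) : ℝ) ≤ √((25 * X : ℕ) : ℝ) := Real.nat_sqrt_le_real_sqrt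
    refine h2.trans (le_of_eq ?_)
    push_cast
    rw [Real.sqrt_mul (by norm_num), show (25 : ℝ) = 5 ^ 2 by norm_num, Real.sqrt_sq (by norm_num)]
  have hYle' : (Y : ℝ) ≤ 5 * √X := by
    refine hYle.trans (div_le_self (by positivity) (one_le_pow₀ (by norm_num)))
  have hE0 := d.EM₀_pos
  have hE1 := d.EM₁_pos
  set EE := EMj d.L₀ d.K₀ * EMj d.L₁ d.K₁ with hEE
  have hEEpos : 0 < EE := by positivity
  have key := jcore_ineq (E := Exc X d.a d.n C₁) d.sys dsh h₀ Ω O d.μ Y X N₀ d.Q β H hβ hHpos.le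
    d.lam₀ d.lam₀_nonneg d.lam₁ d.lam₁_nonneg d.δ₀ d.δ₀_nonneg d.δ₁ d.δ₁_nonneg d.A₀ d.A₁ hY hΩE
    hcop hN₀ cover
    (fun n hn hn1 h1 h2 => by
      obtain ⟨hX0, hXh⟩ := hOX n hn
      have n1 := d.normal (n - h₀) (by omega) (by omega) h1
      refine ⟨hN n hn hn1 n1.1, n1.2.1, fun p => ?_⟩
      have n2 := d.normal (n - h₀ + dsh p.1) (by omega) (by have := hXh p.1; omega) (h2 p.1)
      exact n2.2.2 p)
    (fun m hm => by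
      unfold Exc at hm
      rw [mem_filter, mem_Icc] at hm
      exact hm.1.1)
    d.small0 d.small1 hΩ
  -- second term
  set KK := d.𝒟.card + ∑ i, d.K₀ i + ∑ i, d.K₁ i with hKK
  set S := ((N₀ : ℝ) + (nh + 1) * ∑ m ∈ (Exc X d.a d.n C₁).filter (fun m => d.Q < m),
      √(24 * X / m)) with hS
  have hS0 : 0 ≤ S := by
    rw [hS]
    exact add_nonneg (by positivity) (mul_nonneg (by positivity) (sum_nonneg fun _ _ => Real.sqrt_nonneg _))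
  have e2 : S * (2 ^ KK * (2 * Y / D) * EE) ≤ c₁ / 4 * H * (EE / D) := by
    have h1 : S * (2 ^ KK * (2 * Y)) ≤ c₁ / 4 * H := by
      calc S * (2 ^ KK * (2 * Y))
          ≤ (S + 1) * (2 ^ KK * (2 * (5 * √X))) := by
            refine mul_le_mul (by linarith) ?_ (by positivity) (by linarith)
            refine mul_le_mul_of_nonneg_left ?_ (by positivity)
            linarith
        _ = (N₀ + 1 + (nh + 1) * ∑ m ∈ (Exc X d.a d.n C₁).filter (fun m => d.Q < m),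
              √(24 * X / m)) * (2 ^ KK * (2 * (5 * √X))) := by rw [hS]; ring
        _ ≤ c₁ / 4 * (X / Real.log X) := d.large
        _ ≤ c₁ / 4 * H := mul_le_mul_of_nonneg_left hH (by positivity)
    calc S * (2 ^ KK * (2 * Y / D) * EE)
        = S * (2 ^ KK * (2 * Y)) * (EE / D) := by ring
      _ ≤ _ := mul_le_mul_of_nonneg_right h1 (by positivity)
  have e3 : (∑ i, ((d.A₀ i).card : ℝ) * d.lam₀ i ^ d.K₀ i + ∑ i, ((d.A₁ i).card : ℝ) * d.lam₁ i ^ d.K₁ i) *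
      (H / D * EE) ≤ c₁ / 4 * H * (EE / D) := by
    calc _ ≤ c₁ / 4 * (H / D * EE) := mul_le_mul_of_nonneg_right d.A_sum (by positivity)
      _ = _ := by ring
  have e1 : (O.card : ℝ) * (β * 2 ^ d.𝒟.card * (Y / D) *
      (Real.exp (∑ i, d.K₀ i * d.δ₀ i + ∑ i, d.K₁ i * d.δ₁ i) * EE))
      ≤ O.card * (β * 2 ^ CD * Real.exp CD * (5 * √X / 2 ^ d.μ)) * (EE / D) := by
    have h1 : Real.exp (∑ i, d.K₀ i * d.δ₀ i + ∑ i, d.K₁ i * d.δ₁ i) ≤ Real.exp CD :=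
      Real.exp_le_exp.mpr d.δ_sum
    have h2 : (2 : ℝ) ^ d.𝒟.card ≤ 2 ^ CD := pow_le_pow_right₀ (by norm_num) d.D_card
    calc (O.card : ℝ) * (β * 2 ^ d.𝒟.card * (Y / D) *
          (Real.exp (∑ i, d.K₀ i * d.δ₀ i + ∑ i, d.K₁ i * d.δ₁ i) * EE))
        = O.card * β * (2 ^ d.𝒟.card * Real.exp (∑ i, d.K₀ i * d.δ₀ i + ∑ i, d.K₁ i * d.δ₁ i) * Y)
          * (EE / D) := by ring
      _ ≤ O.card * β * (2 ^ CD * Real.exp CD * (5 * √X / 2 ^ d.μ)) * (EE / D) := by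
          refine mul_le_mul_of_nonneg_right ?_ (by positivity)
          refine mul_le_mul_of_nonneg_left ?_ (by positivity)
          refine mul_le_mul (mul_le_mul h2 h1 (by positivity) (by positivity)) hYle
            (Nat.cast_nonneg _) (by positivity)
      _ = _ := by ring
  have e4 : c₁ * H * (EE / D) ≤
      O.card * (β * 2 ^ CD * Real.exp CD * (5 * √X / 2 ^ d.μ)) * (EE / D)
      + c₁ / 4 * H * (EE / D) + c₁ / 4 * H * (EE / D) := by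
    refine hlow.trans (key.trans ?_)
    linarith
  have hpos : 0 < EE / D := by positivity
  have e5 : (c₁ * H) * (EE / D) ≤
      (O.card * (β * 2 ^ CD * Real.exp CD * (5 * √X / 2 ^ d.μ)) + c₁ / 4 * H + c₁ / 4 * H)
        * (EE / D) := by
    calc _ ≤ _ := e4
      _ = _ := by ring
  have e6 := le_of_mul_le_mul_right e5 hpos
  linarith

end Pool.Agent.helper7.JT
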